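import Pool.Agent.MEternal.Rel

/-!
# The adjacency relation in terms of codes, continued
-/

namespace Pool.Agent.MEternal

namespace Codes

open CAGame

variable {C : Type} {e : C → ℕ} {P D : ℕ}

/-- Equality, written out. -/
def eqN (x y : N7) : Prop :=
  x.1 = y.1 ∧ x.2.1 = y.2.1 ∧ x.2.2.1 = y.2.2.1 ∧ x.2.2.2.1 = y.2.2.2.1 ∧
    x.2.2.2.2.1 = y.2.2.2.2.1 ∧ x.2.2.2.2.2.1 = y.2.2.2.2.2.1 ∧
    x.2.2.2.2.2.2 = y.2.2.2.2.2.2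

theorem eqN_iff (x y : N7) : eqN x y ↔ x = y := by
  simp only [eqN, Prod.ext_iff]

/-- The base relation of the graph. -/
def relN (D : ℕ) (cur nxt : ℕ × ℕ × ℕ × ℕ × ℕ → ℕ × ℕ × ℕ → Prop) (x y : ℕ × N7) : Prop :=
  (x.1 = 0 ∧ (y.1 = 1 ∨ y.1 = 2 ∨ y.1 = 3)) ∨
  (x.1 = 1 ∧ y.1 = 1) ∨
  (x.1 = 2 ∧ (y.1 = 2 ∨ y.1 = 3)) ∨
  (x.1 = 3 ∧ y.1 = 3) ∨
  (x.1 = 1 ∧ y.1 = 2 ∧ ¬ attN y.2 x.2.1 x.2.2.1) ∨
  (x.1 = 4 ∧ y.1 = 5 ∧ eqN x.2 y.2) ∨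
  ((x.1 = 4 ∨ x.1 = 5) ∧ y.1 = 6 ∧ lVarIsN (p5 y.2) (p4 x.2)) ∨
  (x.1 = 5 ∧ y.1 = 1) ∨
  (x.1 = 6 ∧ y.1 = 6 ∧ lVarEqN (p5 x.2) (p5 y.2) ∧ nearN (p5 x.2) (p5 y.2)) ∨
  (x.1 = 7 ∧ (y.1 = 8 ∨ y.1 = 9 ∨ y.1 = 10) ∧ eqN x.2 y.2) ∨
  (x.1 = 8 ∧ (y.1 = 9 ∨ y.1 = 10) ∧ eqN x.2 y.2) ∨
  (x.1 = 9 ∧ y.1 = 10 ∧ eqN x.2 y.2) ∨
  (x.1 = 8 ∧ y.1 = 1) ∨
  ((x.1 = 9 ∨ x.1 = 8) ∧ y.1 = 6 ∧ eqN x.2 y.2) ∨
  (x.1 = 10 ∧ y.1 = 6 ∧ ¬ eqN x.2 y.2 ∧ lVarEqN (p5 x.2) (p5 y.2)) ∨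
  (x.1 = 3 ∧ y.1 = 9 ∧ eqN x.2 y.2) ∨
  (x.1 = 2 ∧ y.1 = 6 ∧ litN D cur nxt x.2 (p5 y.2))

section

variable (F : C → C → C → C) (acc : C → Prop) (blank : C) (row0 : ℤ → C)
  (hP : 0 < P) (hD : 0 < D)

theorem relN_iff (he : Function.Injective e) {cb : ℕ}
    (hcb : cb = oc e (some blank)) (row : ℕ → ℕ → ℕ → Prop)
    (hrow : ∀ (a : Fin D) (k : Fin 3) (c : Option C),
      row a k (oc e c) ↔ c = some (row0 ((a : ℕ) + (k : ℕ) - 2)))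
    (x y : V C P D) :
    relN D (curN F acc e) (nxtN P D cb row) (cV e x) (cV e y) ↔
      (game F acc blank row0 P D hP hD).lock.rel x y := by
  have h1 := lVarEqN_iff (e := e) F acc blank row0 hP hD
  have h2 := lVarIsN_iff (e := e) F acc blank row0 hP hD
  have h3 := nearN_iff (e := e) F acc blank row0 hP hD
  have h4 := attN_iff (e := e) F acc blank row0 hP hD
  have h5 := litN_iff (e := e) F acc blank row0 hP hD he hcb row hrow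
  have h6 : ∀ x y : LW (GW C P D) (Fin 3), cLW e x = cLW e y ↔ x = y :=
    fun _ _ => (cLW_inj he).eq_iff
  have h7 : ∀ x y : Option (Fin 3 × GV P), cI x = cI y ↔ x = y := fun _ _ => cI_inj.eq_iff
  have h8 : ∀ x y, e5 x = e5 y ↔ x = y := fun _ _ => e5_inj.eq_iff
  have h9 : ∀ x y, e4 x = e4 y ↔ x = y := fun _ _ => e4_inj.eq_iff
  rcases x with _ | a | q | x | i | i | x | x | x | x | x <;>
    rcases y with _ | a' | q' | y | i' | i' | y | y | y | y | y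
  all_goals first
    | (simp [relN, cV, LockGame.rel]; done)
    | simp [relN, cV, LockGame.rel, eqN_iff, h1, h2, h3, h4, h5, h6, h7, h8, h9]

theorem cV_adj_iff (he : Function.Injective e) {cb : ℕ}
    (hcb : cb = oc e (some blank)) (row : ℕ → ℕ → ℕ → Prop)
    (hrow : ∀ (a : Fin D) (k : Fin 3) (c : Option C),
      row a k (oc e c) ↔ c = some (row0 ((a : ℕ) + (k : ℕ) - 2)))
    (x y : V C P D) :
    (¬ ((cV e x).1 = (cV e y).1 ∧ eqN (cV e x).2 (cV e y).2) ∧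
      (relN D (curN F acc e) (nxtN P D cb row) (cV e x) (cV e y) ∨
      relN D (curN F acc e) (nxtN P D cb row) (cV e y) (cV e x))) ↔
      (game F acc blank row0 P D hP hD).lock.graph.Adj x y := by
  rw [LockGame.adj_iff, relN_iff F acc blank row0 hP hD he hcb row hrow,
    relN_iff F acc blank row0 hP hD he hcb row hrow, eqN_iff, ← Prod.ext_iff,
    (cV_inj he).eq_iff]

end

end Codes

end Pool.Agent.MEternal
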