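import Pool.Agent.MEternal.Defs

/-!
# The decision problem as a language, and exponential time
-/

namespace Pool.Agent.MEternal

open Turing

open Classical in
/-- The instance `(G, k)` of M-ETERNAL DOMINATION as a bit string: the number of vertices and `k`
in unary, followed by the adjacency matrix, row by row. -/
noncomputable def encodeInstance {N : ℕ} (G : SimpleGraph (Fin N)) (k : ℕ) : List Bool :=
  List.replicate N true ++ false :: (List.replicate k true ++ false ::
    (List.finRange N).flatMap fun i => (List.finRange N).map fun j => decide (G.Adj i j))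

/-- M-ETERNAL DOMINATION: the encodings of the pairs `(G, k)` for which the m-eternal domination
number of `G` is at most `k`. -/
def MED : Set (List Bool) :=
  {w | ∃ (N : ℕ) (G : SimpleGraph (Fin N)) (k : ℕ),
    w = encodeInstance G k ∧ mEternalDominationNumber G ≤ k}

/-- The languages of bit strings decided in time `2 ^ p(n)`, for some polynomial `p`, by a
deterministic Turing machine (Mathlib's `TM0`: one two-way infinite tape, finite alphabet `Γ`,
finite set `Λ` of states; the input is written on the tape through `enc`; `acc` are the accepting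
states). On input `w` the machine reaches, after at most `2 ^ p(|w|)` steps, a configuration `c`
in which it halts, and `w` belongs to the language if and only if the state of `c` is accepting. -/
def EXPTIME : Set (Set (List Bool)) :=
  {L | ∃ (Γ Λ : Type) (_ : Inhabited Γ) (_ : Inhabited Λ) (_ : Finite Γ) (_ : Finite Λ)
    (M : TM0.Machine Γ Λ) (enc : Bool → Γ) (acc : Set Λ) (p : Polynomial ℕ),
    ∀ w : List Bool, ∃ c : TM0.Cfg Γ Λ,
      Nonempty (StateTransition.EvalsToInTime (TM0.step M) (TM0.init (w.map enc)) (some c)
        (2 ^ p.eval w.length)) ∧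
      TM0.step M c = none ∧ (w ∈ L ↔ c.q ∈ acc)}

section number

theorem IsStrategy.map {V W : Type*} {G : SimpleGraph V} {H : SimpleGraph W} (f : G ≃g H) {k : ℕ}
    {𝒞 : Set (Finset V)} (h : IsStrategy G k 𝒞) :
    IsStrategy H k ((fun C => C.map f.toEquiv.toEmbedding) '' 𝒞) := by
  obtain ⟨hne, hk, hs⟩ := h
  refine ⟨hne.image _, ?_, ?_⟩
  · rintro _ ⟨C, hC, rfl⟩
    simpa using hk C hC
  · rintro _ ⟨C, hC, rfl⟩ v
    obtain ⟨C', hC', hv, h⟩ := hs C hC (f.symm v)
    refine ⟨_, ⟨C', hC', rfl⟩, ?_, ?_⟩
    · simp only [Finset.mem_map]
      exact ⟨f.symm v, hv, f.apply_symm_apply v⟩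
    · rcases h with rfl | ⟨g, hg⟩
      · exact Or.inl rfl
      · right
        refine ⟨(Finset.equivMap f.toEquiv.toEmbedding C).symm.trans (g.trans
          (Finset.equivMap f.toEquiv.toEmbedding C')), ?_⟩
        intro u
        obtain ⟨u, rfl⟩ := (Finset.equivMap f.toEquiv.toEmbedding C).surjective u
        simp only [Equiv.trans_apply, Equiv.symm_apply_apply]
        rcases hg u with h | h
        · left
          show f (g u) = f u
          rw [h]
        · right
          exact f.map_rel_iff.2 h

theorem number_iso {V W : Type*} {G : SimpleGraph V} {H : SimpleGraph W} (f : G ≃g H) :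
    mEternalDominationNumber G = mEternalDominationNumber H := by
  unfold mEternalDominationNumber
  congr 1
  ext k
  exact ⟨fun ⟨_, h⟩ => ⟨_, h.map f⟩, fun ⟨_, h⟩ => ⟨_, h.map f.symm⟩⟩

end number

section injective

theorem unary_inj {m n : ℕ} {l l' : List Bool}
    (h : List.replicate m true ++ false :: l = List.replicate n true ++ false :: l') :
    m = n ∧ l = l' := by
  induction m generalizing n with
  | zero =>
    rcases n with _ | n
    · simpa using h
    · simp [List.replicate_succ] at h
  | succ m ih =>
    rcases n with _ | n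
    · simp [List.replicate_succ] at h
    · simp only [List.replicate_succ, List.cons_append, List.cons.injEq, true_and] at h
      obtain ⟨h1, h2⟩ := ih h
      exact ⟨by rw [h1], h2⟩

theorem matrix_inj {α : Type*} {β γ : Type*} {a b : α → β → γ} {m : List β} :
    ∀ {l : List α}, (l.flatMap fun i => m.map fun j => a i j) =
      (l.flatMap fun i => m.map fun j => b i j) → ∀ i ∈ l, ∀ j ∈ m, a i j = b i j := by
  intro l
  induction l with
  | nil => intro _ i hi; simp at hi
  | cons i l ih =>
    intro h
    simp only [List.flatMap_cons] at h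
    obtain ⟨h1, h2⟩ := List.append_inj h (by simp)
    intro i' hi'
    rcases List.mem_cons.1 hi' with rfl | hi'
    · exact fun j hj => (List.map_inj_left.1 h1) j hj
    · exact ih h2 i' hi'

theorem encodeInstance_inj {N N' : ℕ} {G : SimpleGraph (Fin N)} {G' : SimpleGraph (Fin N')}
    {k k' : ℕ} (h : encodeInstance G k = encodeInstance G' k') :
    ∃ e : N = N', k = k' ∧ e ▸ G = G' := by
  unfold encodeInstance at h
  obtain ⟨rfl, h1⟩ := unary_inj h
  obtain ⟨rfl, h2⟩ := unary_inj h1
  refine ⟨rfl, rfl, ?_⟩
  have := matrix_inj h2
  ext i j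
  have h3 := this i (List.mem_finRange i) j (List.mem_finRange j)
  simpa using h3

theorem encodeInstance_mem {N : ℕ} (G : SimpleGraph (Fin N)) (k : ℕ) :
    encodeInstance G k ∈ MED ↔ mEternalDominationNumber G ≤ k := by
  constructor
  · rintro ⟨N', G', k', h, hle⟩
    obtain ⟨rfl, rfl, rfl⟩ := encodeInstance_inj h
    exact hle
  · intro h
    exact ⟨N, G, k, rfl, h⟩

end injective

end Pool.Agent.MEternal
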