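import Pool.Agent.MEternal.Loops
import Pool.Agent.MEternal.Language

/-!
# The output of the graph-writing program is an instance of M-ETERNAL DOMINATION
-/

namespace Pool.Agent.MEternal

open Classical in
theorem encode_of_codes {V : Type} [Fintype V] (G : SimpleGraph V) (code : V → List ℕ)
    (hinj : Function.Injective code) (B : ℕ) (valid isP : List ℕ → Prop)
    (adj : List ℕ → List ℕ → Prop)
    (h1 : ∀ l ∈ box B 8, valid l → ∃ x, code x = l) (h1' : ∀ x, valid (code x))
    (h2 : ∀ x, code x ∈ box B 8)
    (P : V → Prop) (h3 : ∀ x, isP (code x) ↔ P x)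
    (h4 : ∀ x y, adj (code x) (code y) ↔ G.Adj x y) {cs : List (List ℕ)}
    (hcs : cs = (box B 8).filter valid) :
    ∃ (N : ℕ) (H : SimpleGraph (Fin N)), Nonempty (H ≃g G) ∧
      List.replicate cs.length true ++ false :: (List.replicate (cs.filter isP).length true ++
        false :: cs.flatMap fun c => cs.map fun d => decide (adj c d)) =
      encodeInstance H (Fintype.card {x // P x}) := by
  have hnodup : cs.Nodup := by
    rw [hcs]
    exact (nodup_box B 8).filter _
  have hmem : ∀ l, l ∈ cs ↔ ∃ x, code x = l := by
    intro l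
    rw [hcs, List.mem_filter]
    constructor
    · rintro ⟨hl, hv⟩
      exact h1 l hl (by simpa using hv)
    · rintro ⟨x, rfl⟩
      exact ⟨h2 x, by simpa using h1' x⟩
  have hex : ∀ i : Fin cs.length, ∃ x, code x = cs.get i := fun i =>
    (hmem _).1 (List.get_mem cs i)
  choose e he using hex
  have hbij : Function.Bijective e := by
    constructor
    · intro i j hij
      have : cs.get i = cs.get j := by rw [← he, ← he, hij]
      exact (List.nodup_iff_injective_get.1 hnodup) this
    · intro x
      obtain ⟨i, hi⟩ := List.get_of_mem ((hmem (code x)).2 ⟨x, rfl⟩)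
      exact ⟨i, hinj ((he i).trans hi)⟩
  let E : Fin cs.length ≃ V := Equiv.ofBijective e hbij
  refine ⟨cs.length, G.comap E.toEmbedding, ⟨SimpleGraph.Iso.comap E G⟩, ?_⟩
  unfold encodeInstance
  have hcount : (cs.filter isP).length = Fintype.card {x // P x} := by
    rw [← List.toFinset_card_of_nodup (hnodup.filter _), Fintype.card_subtype,
      ← Finset.card_image_of_injective (Finset.univ.filter P) hinj]
    congr 1
    ext l
    simp only [List.mem_toFinset, List.mem_filter, decide_eq_true_eq, Finset.mem_image,
      Finset.mem_filter, Finset.mem_univ, true_and]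
    rw [hmem]
    constructor
    · rintro ⟨⟨x, rfl⟩, hx⟩
      exact ⟨x, (h3 x).1 hx, rfl⟩
    · rintro ⟨x, hx, rfl⟩
      exact ⟨⟨x, rfl⟩, (h3 x).2 hx⟩
  rw [hcount]
  have hlist : cs = (List.finRange cs.length).map fun i => code (e i) := by
    rw [← List.ofFn_eq_map]
    conv_lhs => rw [← List.ofFn_get cs]
    congr 1
    funext i
    exact (he i).symm
  congr 4
  conv_lhs => rw [hlist]
  rw [List.flatMap_map]
  apply List.flatMap_congr
  intro i _
  rw [List.map_map]
  apply List.map_congr_left
  intro j _
  simp only [Function.comp]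
  rw [decide_eq_decide, h4]
  rfl

end Pool.Agent.MEternal
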