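import Pool.Agent.MEternal.Adj
import Pool.Agent.MEternal.Assemble

/-!
# The numeric relations are given by tests
-/

namespace Pool.Agent.MEternal

namespace Codes

open CAGame

variable {C : Type} {e : C → ℕ} {R : ℕ}

theorem isTest_vV {P D : (Fin R → ℕ) → ℕ} (hP : IsExpr P) (hD : IsExpr D) (c : ℕ)
    {x1 x2 x3 x4 x5 x6 x7 x8 : (Fin R → ℕ) → ℕ} (h1 : IsExpr x1) (h2 : IsExpr x2)
    (h3 : IsExpr x3) (h4 : IsExpr x4) (h5 : IsExpr x5) (h6 : IsExpr x6) (h7 : IsExpr x7)
    (h8 : IsExpr x8) :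
    IsTest fun (_ : List Bool) env => vV (P env) (D env) c
      (x1 env, x2 env, x3 env, x4 env, x5 env, x6 env, x7 env, x8 env) := by
  simp only [vV, vLQ, vLW, vI, vGQ, vGW, vGV, p5, p4]
  repeat' first
    | exact IsTest.const _
    | apply IsTest.and
    | apply IsTest.or
    | apply IsTest.eq
    | apply IsTest.lt
    | exact IsExpr.const _
    | assumption
    | apply IsExpr.add

theorem isTest_okN [Finite C] (F : C → C → C → C) (acc : C → Prop) (e : C → ℕ)
    {x1 x2 x3 x4 : (Fin R → ℕ) → ℕ} (h1 : IsExpr x1) (h2 : IsExpr x2)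
    (h3 : IsExpr x3) (h4 : IsExpr x4) :
    IsTest fun (_ : List Bool) env => okN F acc e (x1 env) (x2 env) (x3 env) (x4 env) := by
  unfold okN
  apply IsTest.exists
  intro u
  repeat' first
    | exact IsTest.const _
    | apply IsTest.and
    | apply IsTest.eq
    | exact IsExpr.const _
    | assumption

theorem isTest_relN [Finite C] (F : C → C → C → C) (acc : C → Prop) (e : C → ℕ) (cb : ℕ)
    {P D : (Fin R → ℕ) → ℕ} (hP : IsExpr P) (hD : IsExpr D)
    (row : List Bool → (Fin R → ℕ) → ℕ → ℕ → ℕ → Prop)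
    (hrow : ∀ a k d : (Fin R → ℕ) → ℕ, IsExpr a → IsExpr k → IsExpr d →
      IsTest fun w env => row w env (a env) (k env) (d env))
    {x1 x2 x3 x4 x5 x6 x7 x8 : (Fin R → ℕ) → ℕ} (h1 : IsExpr x1) (h2 : IsExpr x2)
    (h3 : IsExpr x3) (h4 : IsExpr x4) (h5 : IsExpr x5) (h6 : IsExpr x6) (h7 : IsExpr x7)
    (h8 : IsExpr x8)
    {y1 y2 y3 y4 y5 y6 y7 y8 : (Fin R → ℕ) → ℕ} (g1 : IsExpr y1) (g2 : IsExpr y2)
    (g3 : IsExpr y3) (g4 : IsExpr y4) (g5 : IsExpr y5) (g6 : IsExpr y6) (g7 : IsExpr y7)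
    (g8 : IsExpr y8) :
    IsTest fun (w : List Bool) env =>
      relN (D env) (curN F acc e) (nxtN (P env) (D env) cb (row w env))
        (x1 env, x2 env, x3 env, x4 env, x5 env, x6 env, x7 env, x8 env)
        (y1 env, y2 env, y3 env, y4 env, y5 env, y6 env, y7 env, y8 env) := by
  simp only [relN, litN, attN, eqN, lVarEqN, lVarIsN, varEqN, varIsN, nearN, initN, curN, nxtN,
    succ3N, decN, mvN, offN, p5, p4]
  repeat' first
    | exact IsTest.const _
    | apply IsTest.and
    | apply IsTest.or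
    | apply IsTest.eq
    | apply IsTest.lt
    | apply IsTest.ne
    | apply IsTest.not
    | apply isTest_okN
    | apply hrow
    | exact IsExpr.const _
    | assumption
    | apply IsExpr.add

end Codes

end Pool.Agent.MEternal
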