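import Pool.Agent.MEternal.AdjTests

/-!
# Codes lie in a box; the symbols of the initial row
-/

namespace Pool.Agent.MEternal

namespace Codes

open CAGame Turing

section bound

variable {P D c : ℕ}

theorem vGV_lt {j : ℕ × ℕ} (h : vGV P j) : j.1 < P + D + c + 12 ∧ j.2 < P + D + c + 12 := by
  unfold vGV at h
  omega

theorem vGW_lt {x : ℕ × ℕ × ℕ} (h : vGW P D c x) :
    x.1 < P + D + c + 12 ∧ x.2.1 < P + D + c + 12 ∧ x.2.2 < P + D + c + 12 := by
  unfold vGW at h
  omega

theorem vGQ_lt {x : ℕ × ℕ × ℕ × ℕ × ℕ} (h : vGQ P D c x) :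
    x.1 < P + D + c + 12 ∧ x.2.1 < P + D + c + 12 ∧ x.2.2.1 < P + D + c + 12 ∧
      x.2.2.2.1 < P + D + c + 12 ∧ x.2.2.2.2 < P + D + c + 12 := by
  unfold vGQ at h
  omega

theorem vI_lt {x : ℕ × ℕ × ℕ × ℕ} (h : vI P x) :
    x.1 < P + D + c + 12 ∧ x.2.1 < P + D + c + 12 ∧ x.2.2.1 < P + D + c + 12 ∧
      x.2.2.2 < P + D + c + 12 := by
  rcases h with h | ⟨h1, h2, h3⟩
  · omega
  · have := vGV_lt (D := D) (c := c) h3
    omega

theorem vLW_lt {x : ℕ × ℕ × ℕ × ℕ × ℕ} (h : vLW P D c x) :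
    x.1 < P + D + c + 12 ∧ x.2.1 < P + D + c + 12 ∧ x.2.2.1 < P + D + c + 12 ∧
      x.2.2.2.1 < P + D + c + 12 ∧ x.2.2.2.2 < P + D + c + 12 := by
  obtain ⟨h0, h | h | ⟨h, h'⟩⟩ := h
  · omega
  · omega
  · have := vGW_lt h'
    omega

theorem vLQ_lt {x : N7} (h : vLQ P D c x) :
    x.1 < P + D + c + 12 ∧ x.2.1 < P + D + c + 12 ∧ x.2.2.1 < P + D + c + 12 ∧
      x.2.2.2.1 < P + D + c + 12 ∧ x.2.2.2.2.1 < P + D + c + 12 ∧
      x.2.2.2.2.2.1 < P + D + c + 12 ∧ x.2.2.2.2.2.2 < P + D + c + 12 := by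
  obtain ⟨h0, h | ⟨h1, h2, h3, h4⟩ | ⟨h1, h2, h3, h4⟩ | ⟨h1, h3, h4⟩ | ⟨h1, h3⟩⟩ := h
  · omega
  · have := vGV_lt (D := D) (c := c) h3
    simp only at this
    omega
  · have := vGV_lt (D := D) (c := c) h3
    simp only at this
    omega
  · have := vGV_lt (D := D) (c := c) h3
    simp only at this
    omega
  · have := vGQ_lt h3
    omega

theorem vV_lt {x : ℕ × N7} (h : vV P D c x) : ∀ a ∈ toL x, a < P + D + c + 12 := by
  have key : x.1 < P + D + c + 12 ∧ x.2.1 < P + D + c + 12 ∧ x.2.2.1 < P + D + c + 12 ∧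
      x.2.2.2.1 < P + D + c + 12 ∧ x.2.2.2.2.1 < P + D + c + 12 ∧
      x.2.2.2.2.2.1 < P + D + c + 12 ∧ x.2.2.2.2.2.2.1 < P + D + c + 12 ∧
      x.2.2.2.2.2.2.2 < P + D + c + 12 := by
    rcases h with h | h | ⟨h0, h1⟩ | ⟨h0, h1, h2⟩ | ⟨h0, h1, h2⟩
    · omega
    · omega
    · have := vLQ_lt h1
      omega
    · have := vLW_lt h1
      simp only [p5] at this
      omega
    · have := vI_lt (D := D) (c := c) h1
      simp only [p4] at this
      omega
  intro a ha
  simp only [toL, List.mem_cons, List.not_mem_nil, or_false] at ha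
  rcases ha with rfl | rfl | rfl | rfl | rfl | rfl | rfl | rfl
  · exact key.1
  · exact key.2.1
  · exact key.2.2.1
  · exact key.2.2.2.1
  · exact key.2.2.2.2.1
  · exact key.2.2.2.2.2.1
  · exact key.2.2.2.2.2.2.1
  · exact key.2.2.2.2.2.2.2

end bound

/-- The tuple of a list. -/
def fromL : List ℕ → ℕ × N7
  | [a, b, c, d, e, f, g, h] => (a, b, c, d, e, f, g, h)
  | _ => (0, 0, 0, 0, 0, 0, 0, 0)

@[simp] theorem fromL_toL (x : ℕ × N7) : fromL (toL x) = x := rfl

theorem toL_fromL {l : List ℕ} (h : l.length = 8) : toL (fromL l) = l := by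
  match l, h with
  | [a1, a2, a3, a4, a5, a6, a7, a8], _ => rfl

section row

variable {Γ Λ : Type} [Inhabited Γ] [Inhabited Λ]

/-- The position `s` of the input holds `b`; `none` means beyond the end. -/
def posN (n : ℕ) (w : List Bool) (s : ℕ) : Option Bool → Prop
  | none => n ≤ s
  | some true => s < n ∧ w.getD s false = true
  | some false => s < n ∧ ¬ w.getD s false = true

theorem exists_posN (n : ℕ) (w : List Bool) (s : ℕ) : ∃ b, posN n w s b := by
  by_cases h : s < n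
  · by_cases h' : w.getD s false = true
    · exact ⟨some true, h, h'⟩
    · exact ⟨some false, h, h'⟩
  · exact ⟨none, not_lt.1 h⟩

/-- The symbol on the tape. -/
def sym (enc : Bool → Γ) : Option Bool → Γ
  | none => default
  | some b => enc b

/-- The symbol with code `c` is in the initial row at position `a + k - 2`. -/
def rowN (e : Γ × Option Λ → ℕ) (enc : Bool → Γ) (n : ℕ) (w : List Bool) (a k c : ℕ) : Prop :=
  (a + k < 2 ∧ c = oc e (some (default, none))) ∨
  (a + k = 2 ∧ ∃ b, posN n w 0 b ∧ c = oc e (some (sym enc b, some default))) ∨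
  (2 < a + k ∧ ∃ b, posN n w (a + k - 2) b ∧ c = oc e (some (sym enc b, none)))

theorem nth_init (enc : Bool → Γ) (w : List Bool) (s : ℕ) {b : Option Bool}
    (h : posN w.length w s b) : (Tape.mk₁ (w.map enc)).nth (s : ℤ) = sym enc b := by
  simp only [Tape.mk₁, Tape.mk₂]
  rw [Tape.mk'_nth_nat, ListBlank.nth_mk]
  rcases b with _ | _ | _
  · rw [List.getI_eq_default]
    · rfl
    · simpa using (show w.length ≤ s from h)
  · obtain ⟨h1, h2⟩ := h
    rw [List.getI_eq_getElem _ (by simpa using h1)]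
    simp only [List.getElem_map, sym]
    rw [List.getD_eq_getElem _ _ h1] at h2
    simp at h2
    rw [h2]
  · obtain ⟨h1, h2⟩ := h
    rw [List.getI_eq_getElem _ (by simpa using h1)]
    simp only [List.getElem_map, sym]
    rw [List.getD_eq_getElem _ _ h1] at h2
    rw [h2]

theorem nth_init_neg (enc : Bool → Γ) (w : List Bool) {s : ℤ} (h : s < 0) :
    (Tape.mk₁ (w.map enc)).nth s = default := by
  simp only [Tape.mk₁, Tape.mk₂]
  obtain ⟨n, rfl⟩ := Int.eq_negSucc_of_lt_zero h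
  simp [Tape.mk', Tape.nth, ListBlank.nth_mk]

theorem rowN_iff {e : Γ × Option Λ → ℕ} (he : Function.Injective e) (M : TM0.Machine Γ Λ)
    (enc : Bool → Γ) (w : List Bool) (a k : ℕ) (c : Option (Γ × Option Λ)) :
    rowN e enc w.length w a k (oc e c) ↔
      c = some (TMRow.cont (TMRow.run M (w.map enc) 0) ((a : ℕ) + (k : ℕ) - 2)) := by
  have hr : TMRow.run M (w.map enc) 0 = (TM0.init (w.map enc), 0) := rfl
  have hc : ∀ j : ℤ, TMRow.cont (TMRow.run M (w.map enc) 0) j =
      ((Tape.mk₁ (w.map enc)).nth j, if j = 0 then some default else none) := by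
    intro j
    rw [hr]
    simp [TMRow.cont, TM0.init]
  rw [hc]
  simp only [rowN, (oc_inj he).eq_iff]
  rcases lt_trichotomy (a + k) 2 with h | h | h
  · have h1 : (a : ℤ) + (k : ℤ) - 2 < 0 := by
      have : (a : ℤ) + k < 2 := by exact_mod_cast h
      omega
    rw [nth_init_neg enc w h1, if_neg h1.ne]
    constructor
    · rintro (⟨-, h2⟩ | ⟨h2, -⟩ | ⟨h2, -⟩)
      · exact h2
      · omega
      · omega
    · exact fun h2 => Or.inl ⟨h, h2⟩
  · have h1 : (a : ℤ) + (k : ℤ) - 2 = ((0 : ℕ) : ℤ) := by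
      have : (a : ℤ) + k = 2 := by exact_mod_cast h
      simp only [Nat.cast_zero]
      omega
    rw [h1]
    constructor
    · rintro (⟨h2, -⟩ | ⟨-, b, hb, h2⟩ | ⟨h2, -⟩)
      · omega
      · rw [nth_init enc w 0 hb]
        simpa using h2
      · omega
    · intro h2
      obtain ⟨b, hb⟩ := exists_posN w.length w 0
      refine Or.inr (Or.inl ⟨h, b, hb, ?_⟩)
      rw [nth_init enc w 0 hb] at h2
      simpa using h2
  · have h1 : (a : ℤ) + (k : ℤ) - 2 = ((a + k - 2 : ℕ) : ℤ) := by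
      have : 2 ≤ a + k := h.le
      push_cast [Nat.cast_sub this]
      ring
    have h3 : ((a + k - 2 : ℕ) : ℤ) ≠ 0 := by
      have : a + k - 2 ≠ 0 := by omega
      exact_mod_cast this
    rw [h1, if_neg h3]
    constructor
    · rintro (⟨h2, -⟩ | ⟨h2, -⟩ | ⟨-, b, hb, h2⟩)
      · omega
      · omega
      · rw [nth_init enc w _ hb]
        exact h2
    · intro h2
      obtain ⟨b, hb⟩ := exists_posN w.length w (a + k - 2)
      refine Or.inr (Or.inr ⟨h, b, hb, ?_⟩)
      rw [nth_init enc w _ hb] at h2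
      exact h2

variable {R : ℕ}

theorem isTest_posN {n s : (Fin R → ℕ) → ℕ} (hn : IsExpr n) (hs : IsExpr s)
    (b : Option Bool) : IsTest fun (w : List Bool) env => posN (n env) w (s env) b := by
  rcases b with _ | _ | _
  · exact IsTest.le hn hs
  · exact (IsTest.lt hs hn).and (IsTest.bit hs).not
  · exact (IsTest.lt hs hn).and (IsTest.bit hs)

theorem isTest_rowN (e : Γ × Option Λ → ℕ) (enc : Bool → Γ) {n a k c : (Fin R → ℕ) → ℕ}
    (hn : IsExpr n) (ha : IsExpr a) (hk : IsExpr k) (hc : IsExpr c) :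
    IsTest fun (w : List Bool) env => rowN e enc (n env) w (a env) (k env) (c env) := by
  have h2 : IsExpr fun env => a env + k env - 2 := by
    obtain ⟨x, hx⟩ := (ha.add hk).pred.pred
    exact ⟨x, fun env => by rw [hx]; beta_reduce; rw [Nat.sub_sub]⟩
  refine IsTest.or (IsTest.and (IsTest.lt (ha.add hk) (IsExpr.const 2))
    (IsTest.eq hc (IsExpr.const _))) (IsTest.or (IsTest.and (IsTest.eq (ha.add hk)
    (IsExpr.const 2)) (IsTest.exists fun b => ?_)) (IsTest.and (IsTest.lt (IsExpr.const 2)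
    (ha.add hk)) (IsTest.exists fun b => ?_)))
  · exact (isTest_posN hn (IsExpr.const 0) b).and (IsTest.eq hc (IsExpr.const _))
  · exact (isTest_posN hn h2 b).and (IsTest.eq hc (IsExpr.const _))

end row

end Codes

end Pool.Agent.MEternal
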