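import Pool.Agent.MEternal.Safety

/-!
# The tableau game of a one-dimensional cellular automaton

A local rule `F : C → C → C → C` and an initial row; the defender claims that an accepting symbol
occurs in row `T`, where `T + 2` is the `P`-th power of the base `D`; the attacker challenges one of
three neighbouring cells in each round.
-/

namespace Pool.Agent.MEternal

namespace CAGame

/-- Variables of the game: digits of the time, digits of the position, position of the borrow for
the time, position of the borrow or carry for the position, end flag, claimed symbols. -/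
inductive GV (P : ℕ)
  | td (i : Fin P) : GV P
  | pd (i : Fin (P + 2)) : GV P
  | mt : GV P
  | mp : GV P
  | zf : GV P
  | cell (k : Fin 3) : GV P
  deriving DecidableEq, Fintype

/-- Values of the variables of the game. -/
inductive GW (C : Type) (P D : ℕ)
  | td (i : Fin P) (v : Fin D) : GW C P D
  | pd (i : Fin (P + 2)) (v : Fin D) : GW C P D
  | mt (m : Fin P) : GW C P D
  | mp (m : Fin (P + 2)) : GW C P D
  | zf (b : Bool) : GW C P D
  | cell (k : Fin 3) (c : Option C) : GW C P D
  deriving DecidableEq, Fintype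

/-- Clauses of the game. -/
inductive GQ (C : Type) (P D : ℕ)
  | T (b : Fin 3) (m i : Fin P) (v : Fin D) : GQ C P D
  | A (b : Fin 3) (m i : Fin (P + 2)) (v : Fin D) : GQ C P D
  | C (b : Fin 3) (u₀ u₁ u₂ : Option C) : GQ C P D
  | Z (b : Fin 3) (i : Fin P) : GQ C P D
  | I (b : Fin 3) (a : Fin D) (k : Fin 3) : GQ C P D
  | J (b : Fin 3) (i : Fin (P + 2)) (k : Fin 3) : GQ C P D
  deriving DecidableEq, Fintype

/-- Digit `i` may change from `v` to `v'` when one is subtracted and the borrow stops at `m`. -/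
def Dec (D m i v v' : ℕ) : Prop :=
  if i < m then v = 0 ∧ v' + 1 = D else if i = m then v' + 1 = v else v' = v

/-- Digit `i` may change from `v` to `v'` when the position moves by `b - 1`, the borrow or carry
stopping at `m`. -/
def Mv (D b m i v v' : ℕ) : Prop :=
  if b = 0 then Dec D m i v v' else if b = 1 then v' = v else Dec D m i v' v

/-- Digits of the origin, except the lowest one. -/
def off (P i : ℕ) : ℕ := if i = P + 1 then 1 else 0

/-- The claim `c` is supported by the claims `u₀ u₁ u₂` one row below. The claim `none` is the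
initial claim that an accepting symbol occurs. -/
def Ok {C : Type} (F : C → C → C → C) (acc : C → Prop) (u₀ u₁ u₂ c : Option C) : Prop :=
  ∃ v₀ v₁ v₂, u₀ = some v₀ ∧ u₁ = some v₁ ∧ u₂ = some v₂ ∧
    (c = some (F v₀ v₁ v₂) ∨ (c = none ∧ acc v₁))

/-- The variable of a value. -/
def varL {C : Type} {P D : ℕ} : GW C P D → GV P
  | .td i _ => .td i
  | .pd i _ => .pd i
  | .mt _ => .mt
  | .mp _ => .mp
  | .zf _ => .zf
  | .cell k _ => .cell k

/-- The initial state. -/
def initL {C : Type} {P D : ℕ} (hP : 0 < P) (hD : 0 < D) : GV P → GW C P D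
  | .td i => .td i ⟨D - 1, by omega⟩
  | .pd i => .pd i ⟨0, hD⟩
  | .mt => .mt ⟨0, hP⟩
  | .mp => .mp ⟨0, by omega⟩
  | .zf => .zf false
  | .cell k => .cell k none

/-- The attacker's option to which a clause belongs. -/
def optL {C : Type} {P D : ℕ} : GQ C P D → Fin 3
  | .T b _ _ _ => b
  | .A b _ _ _ => b
  | .C b _ _ _ => b
  | .Z b _ => b
  | .I b _ _ => b
  | .J b _ _ => b

/-- Literals about the current state. -/
def curL {C : Type} (F : C → C → C → C) (acc : C → Prop) {P D : ℕ} : GQ C P D → GW C P D → Prop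
  | _, .zf c => c = true
  | .T _ _ i v, .td i' v' => i' = i ∧ v' ≠ v
  | .A _ _ i v, .pd i' v' => i' = i ∧ v' ≠ v
  | .A b _ _ _, .cell k c => k = b ∧ c = none
  | .C b u₀ u₁ u₂, .cell k c => k = b ∧ Ok F acc u₀ u₁ u₂ c
  | _, _ => False

/-- Literals about the next state. -/
def nxtL {C : Type} (blank : C) (row0 : ℤ → C) {P D : ℕ} : GQ C P D → GW C P D → Prop
  | .T _ m _ _, .mt m' => m' ≠ m
  | .T _ m i v, .td i' v' => i' = i ∧ Dec D m i v v'
  | .A _ m _ _, .mp m' => m' ≠ m
  | .A b m i v, .pd i' v' => i' = i ∧ Mv D b m i v v'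
  | .C _ u₀ u₁ u₂, .cell k c => (k = 0 ∧ c ≠ u₀) ∨ (k = 1 ∧ c ≠ u₁) ∨ (k = 2 ∧ c ≠ u₂)
  | .Z _ _, .zf c => c = false
  | .Z _ i, .td i' v' => i' = i ∧ (v' : ℕ) = 0
  | .I _ _ _, .zf c => c = false
  | .I _ a _, .pd i v => ((i : ℕ) = 0 ∧ v ≠ a) ∨ ((i : ℕ) ≠ 0 ∧ (v : ℕ) ≠ off P i)
  | .I _ a k, .cell k' c => k' = k ∧ c = some (row0 ((a : ℤ) + (k : ℕ) - 2))
  | .J _ _ _, .zf c => c = false
  | .J _ i _, .pd i' v => i' = i ∧ ((i : ℕ) = 0 ∨ (v : ℕ) = off P i)
  | .J _ _ k, .cell k' c => k' = k ∧ c = some blank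
  | _, _ => False

/-- The tableau game. Symbol `k` of the initial row claimed at lowest digit `a` is
`row0 (a + k - 2)`. -/
def game {C : Type} (F : C → C → C → C) (acc : C → Prop) (blank : C) (row0 : ℤ → C) (P D : ℕ)
    (hP : 0 < P) (hD : 0 < D) : SafetyGame (GV P) (GW C P D) (Fin 3) (GQ C P D) where
  var := varL
  init := initL hP hD
  opt := optL
  cur := curL F acc
  nxt := nxtL blank row0

/-- States of the game. -/
structure St (C : Type) (P D : ℕ) where
  t : Fin P → Fin D
  a : Fin (P + 2) → Fin D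
  mt : Fin P
  mp : Fin (P + 2)
  z : Bool
  c : Fin 3 → Option C

/-- The assignment of a state. -/
def St.toFun {C : Type} {P D : ℕ} (s : St C P D) : GV P → GW C P D
  | .td i => .td i (s.t i)
  | .pd i => .pd i (s.a i)
  | .mt => .mt s.mt
  | .mp => .mp s.mp
  | .zf => .zf s.z
  | .cell k => .cell k (s.c k)

variable {C : Type} {F : C → C → C → C} {acc : C → Prop} {blank : C} {row0 : ℤ → C} {P D : ℕ}
  {hP : 0 < P} {hD : 0 < D}

theorem exists_st {x : GV P → GW C P D}
    (hx : ∀ j, (game F acc blank row0 P D hP hD).var (x j) = j) :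
    ∃ s : St C P D, x = s.toFun := by
  have h1 : ∀ i, ∃ v, x (.td i) = .td i v := by
    intro i
    have := hx (.td i)
    rcases h : x (.td i) with ⟨i', v⟩ | ⟨i', v⟩ | m | m | b | ⟨k, c⟩ <;> rw [h] at this <;>
      simp [game, varL] at this
    subst this; exact ⟨v, rfl⟩
  have h2 : ∀ i, ∃ v, x (.pd i) = .pd i v := by
    intro i
    have := hx (.pd i)
    rcases h : x (.pd i) with ⟨i', v⟩ | ⟨i', v⟩ | m | m | b | ⟨k, c⟩ <;> rw [h] at this <;>
      simp [game, varL] at this
    subst this; exact ⟨v, rfl⟩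
  have h3 : ∃ v, x .mt = .mt v := by
    have := hx .mt
    rcases h : x .mt with ⟨i', v⟩ | ⟨i', v⟩ | m | m | b | ⟨k, c⟩ <;> rw [h] at this <;>
      simp [game, varL] at this
    exact ⟨m, rfl⟩
  have h4 : ∃ v, x .mp = .mp v := by
    have := hx .mp
    rcases h : x .mp with ⟨i', v⟩ | ⟨i', v⟩ | m | m | b | ⟨k, c⟩ <;> rw [h] at this <;>
      simp [game, varL] at this
    exact ⟨m, rfl⟩
  have h5 : ∃ v, x .zf = .zf v := by
    have := hx .zf
    rcases h : x .zf with ⟨i', v⟩ | ⟨i', v⟩ | m | m | b | ⟨k, c⟩ <;> rw [h] at this <;>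
      simp [game, varL] at this
    exact ⟨b, rfl⟩
  have h6 : ∀ i, ∃ v, x (.cell i) = .cell i v := by
    intro i
    have := hx (.cell i)
    rcases h : x (.cell i) with ⟨i', v⟩ | ⟨i', v⟩ | m | m | b | ⟨k, c⟩ <;> rw [h] at this <;>
      simp [game, varL] at this
    subst this; exact ⟨c, rfl⟩
  choose t ht using h1
  choose a ha using h2
  obtain ⟨mt, hmt⟩ := h3
  obtain ⟨mp, hmp⟩ := h4
  obtain ⟨z, hz⟩ := h5
  choose c hc using h6
  refine ⟨⟨t, a, mt, mp, z, c⟩, ?_⟩
  funext j
  rcases j with i | i | _ | _ | _ | k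
  · exact ht i
  · exact ha i
  · exact hmt
  · exact hmp
  · exact hz
  · exact hc k

theorem var_toFun (s : St C P D) (j : GV P) :
    (game F acc blank row0 P D hP hD).var (s.toFun j) = j := by
  rcases j with i | i | _ | _ | _ | k <;> rfl

/-- The initial row matches the claims of a state. -/
def InitOk (blank : C) (row0 : ℤ → C) (s : St C P D) : Prop :=
  (∀ i, (s.t i : ℕ) = 0) ∧
  (∀ k : Fin 3, (∀ i : Fin (P + 2), (i : ℕ) ≠ 0 → (s.a i : ℕ) = off P i) →
    ∀ i : Fin (P + 2), (i : ℕ) = 0 → s.c k = some (row0 ((s.a i : ℤ) + (k : ℕ) - 2))) ∧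
  ∀ k : Fin 3, ∀ i : Fin (P + 2), (i : ℕ) ≠ 0 → (s.a i : ℕ) ≠ off P i → s.c k = some blank

/-- The moves of the defender, in terms of states. -/
def Tr (F : C → C → C → C) (acc : C → Prop) (blank : C) (row0 : ℤ → C) (b : Fin 3)
    (s s' : St C P D) : Prop :=
  s.z = true ∨
    ((∀ i : Fin P, Dec D s'.mt i (s.t i) (s'.t i)) ∧
      (s.c b = none ∨ ∀ i : Fin (P + 2), Mv D b s'.mp i (s.a i) (s'.a i)) ∧
      Ok F acc (s'.c 0) (s'.c 1) (s'.c 2) (s.c b) ∧
      (s'.z = true → InitOk blank row0 s'))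

theorem trans_iff (b : Fin 3) (s s' : St C P D) :
    (game F acc blank row0 P D hP hD).Trans b s.toFun s'.toFun ↔
      Tr F acc blank row0 b s s' := by
  constructor
  · intro h
    by_cases hz : s.z = true
    · exact Or.inl hz
    · right
      refine ⟨?_, ?_, ?_, ?_⟩
      · intro i
        rcases h (.T b s'.mt i (s.t i)) rfl with ⟨w, hw, hx⟩ | ⟨w, hw, hx⟩
        · exfalso
          rcases w with ⟨i', v⟩ | ⟨i', v⟩ | m | m | b | ⟨k, c⟩ <;>
            simp [game, varL, curL, nxtL, St.toFun] at hw hx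
          · obtain ⟨rfl, hw⟩ := hw; exact hw hx.symm
          · subst hx; exact hz hw
        · rcases w with ⟨i', v⟩ | ⟨i', v⟩ | m | m | b | ⟨k, c⟩ <;>
            simp [game, varL, curL, nxtL, St.toFun] at hw hx
          · obtain ⟨rfl, hw⟩ := hw; subst hx; exact hw
          · exact absurd hx.symm hw
      · by_cases hc : s.c b = none
        · exact Or.inl hc
        · right
          intro i
          rcases h (.A b s'.mp i (s.a i)) rfl with ⟨w, hw, hx⟩ | ⟨w, hw, hx⟩
          · exfalso
            rcases w with ⟨i', v⟩ | ⟨i', v⟩ | m | m | b | ⟨k, c⟩ <;>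
              simp [game, varL, curL, nxtL, St.toFun] at hw hx
            · obtain ⟨rfl, hw⟩ := hw; exact hw hx.symm
            · subst hx; exact hz hw
            · obtain ⟨rfl, hw⟩ := hw; subst hx; exact hc hw
          · rcases w with ⟨i', v⟩ | ⟨i', v⟩ | m | m | b | ⟨k, c⟩ <;>
              simp [game, varL, curL, nxtL, St.toFun] at hw hx
            · obtain ⟨rfl, hw⟩ := hw; subst hx; exact hw
            · exact absurd hx.symm hw
      · rcases h (.C b (s'.c 0) (s'.c 1) (s'.c 2)) rfl with ⟨w, hw, hx⟩ | ⟨w, hw, hx⟩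
        · rcases w with ⟨i', v⟩ | ⟨i', v⟩ | m | m | b | ⟨k, c⟩ <;>
            simp [game, varL, curL, nxtL, St.toFun] at hw hx
          · subst hx; exact absurd hw hz
          · obtain ⟨rfl, hw⟩ := hw; subst hx; exact hw
        · exfalso
          rcases w with ⟨i', v⟩ | ⟨i', v⟩ | m | m | b | ⟨k, c⟩ <;>
            simp [game, varL, curL, nxtL, St.toFun] at hw hx
          rcases hw with ⟨rfl, hw⟩ | ⟨rfl, hw⟩ | ⟨rfl, hw⟩ <;> exact hw hx.symm
      · intro hz'
        refine ⟨?_, ?_, ?_⟩
        · intro i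
          rcases h (.Z b i) rfl with ⟨w, hw, hx⟩ | ⟨w, hw, hx⟩
          · exfalso
            rcases w with ⟨i', v⟩ | ⟨i', v⟩ | m | m | b | ⟨k, c⟩ <;>
              simp [game, varL, curL, nxtL, St.toFun] at hw hx
            subst hx; exact hz hw
          · rcases w with ⟨i', v⟩ | ⟨i', v⟩ | m | m | b | ⟨k, c⟩ <;>
              simp [game, varL, curL, nxtL, St.toFun] at hw hx
            · obtain ⟨rfl, hw⟩ := hw; subst hx; exact hw
            · subst hw; rw [hz'] at hx; exact absurd hx (by simp)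
        · intro k hoff i hi
          rcases h (.I b (s'.a i) k) rfl with ⟨w, hw, hx⟩ | ⟨w, hw, hx⟩
          · exfalso
            rcases w with ⟨i', v⟩ | ⟨i', v⟩ | m | m | b | ⟨k, c⟩ <;>
              simp [game, varL, curL, nxtL, St.toFun] at hw hx
            subst hx; exact hz hw
          · rcases w with ⟨i', v⟩ | ⟨i', v⟩ | m | m | b | ⟨k', c⟩ <;>
              simp [game, varL, curL, nxtL, St.toFun] at hw hx
            · exfalso
              rcases hw with ⟨h0, hw⟩ | ⟨h0, hw⟩
              · have : i' = i := Fin.ext (by simpa [hi] using h0)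
                subst this; exact hw hx.symm
              · subst hx; exact hw (hoff i' (by simpa using h0))
            · subst hw; rw [hz'] at hx; exact absurd hx (by simp)
            · obtain ⟨rfl, hw⟩ := hw; rw [hx, hw]
        · intro k i hi hne
          rcases h (.J b i k) rfl with ⟨w, hw, hx⟩ | ⟨w, hw, hx⟩
          · exfalso
            rcases w with ⟨i', v⟩ | ⟨i', v⟩ | m | m | b | ⟨k, c⟩ <;>
              simp [game, varL, curL, nxtL, St.toFun] at hw hx
            subst hx; exact hz hw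
          · rcases w with ⟨i', v⟩ | ⟨i', v⟩ | m | m | b | ⟨k', c⟩ <;>
              simp [game, varL, curL, nxtL, St.toFun] at hw hx
            · exfalso
              obtain ⟨rfl, hw⟩ := hw
              rcases hw with hw | hw
              · exact hi (by simp [hw])
              · subst hx; exact hne hw
            · subst hw; rw [hz'] at hx; exact absurd hx (by simp)
            · obtain ⟨rfl, hw⟩ := hw; rw [hx, hw]
  · rintro (hz | ⟨h1, h2, h3, h4⟩) q hq
    · left
      refine ⟨.zf true, ?_, by simp [game, varL, St.toFun, hz]⟩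
      rcases q with _ | _ | _ | _ | _ | _ <;> rfl
    · rcases q with ⟨b', m, i, v⟩ | ⟨b', m, i, v⟩ | ⟨b', u₀, u₁, u₂⟩ | ⟨b', i⟩ | ⟨b', a, k⟩ |
        ⟨b', i, k⟩ <;> simp only [game, optL] at hq <;> subst hq
      · by_cases hm : s'.mt = m
        · by_cases hv : s.t i = v
          · subst hm hv
            right
            exact ⟨.td i (s'.t i), ⟨rfl, h1 i⟩, rfl⟩
          · left; exact ⟨.td i (s.t i), ⟨rfl, hv⟩, rfl⟩
        · right; exact ⟨.mt s'.mt, hm, rfl⟩
      · by_cases hm : s'.mp = m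
        · by_cases hv : s.a i = v
          · subst hm hv
            rcases h2 with h2 | h2
            · left; exact ⟨.cell b' none, ⟨rfl, rfl⟩, by simp [game, varL, St.toFun, h2]⟩
            · right
              exact ⟨.pd i (s'.a i), ⟨rfl, h2 i⟩, rfl⟩
          · left; exact ⟨.pd i (s.a i), ⟨rfl, hv⟩, rfl⟩
        · right; exact ⟨.mp s'.mp, hm, rfl⟩
      · by_cases hu0 : s'.c 0 = u₀
        · by_cases hu1 : s'.c 1 = u₁
          · by_cases hu2 : s'.c 2 = u₂
            · left
              subst hu0 hu1 hu2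
              exact ⟨.cell b' (s.c b'), ⟨rfl, h3⟩, rfl⟩
            · right; exact ⟨.cell 2 (s'.c 2), Or.inr (Or.inr ⟨rfl, hu2⟩), rfl⟩
          · right; exact ⟨.cell 1 (s'.c 1), Or.inr (Or.inl ⟨rfl, hu1⟩), rfl⟩
        · right; exact ⟨.cell 0 (s'.c 0), Or.inl ⟨rfl, hu0⟩, rfl⟩
      · right
        by_cases hz' : s'.z = true
        · exact ⟨.td i (s'.t i), ⟨rfl, (h4 hz').1 i⟩, rfl⟩
        · exact ⟨.zf false, rfl, by simpa [game, varL, St.toFun] using hz'⟩
      · right
        by_cases hz' : s'.z = true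
        · obtain ⟨-, h5, -⟩ := h4 hz'
          by_cases hoff : ∀ i : Fin (P + 2), (i : ℕ) ≠ 0 → (s'.a i : ℕ) = off P i
          · by_cases ha : s'.a ⟨0, by omega⟩ = a
            · subst ha
              exact ⟨.cell k (s'.c k), ⟨rfl, h5 k hoff ⟨0, by omega⟩ rfl⟩, rfl⟩
            · exact ⟨.pd ⟨0, by omega⟩ (s'.a ⟨0, by omega⟩), by simpa [game, nxtL] using ha, rfl⟩
          · push Not at hoff
            obtain ⟨i, hi, hne⟩ := hoff
            refine ⟨.pd i (s'.a i), ?_, rfl⟩
            exact Or.inr ⟨hi, hne⟩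
        · exact ⟨.zf false, rfl, by simpa [game, varL, St.toFun] using hz'⟩
      · right
        by_cases hz' : s'.z = true
        · obtain ⟨-, -, h5⟩ := h4 hz'
          by_cases hi : (i : ℕ) = 0
          · exact ⟨.pd i (s'.a i), ⟨rfl, Or.inl hi⟩, rfl⟩
          · by_cases hne : (s'.a i : ℕ) = off P i
            · exact ⟨.pd i (s'.a i), ⟨rfl, Or.inr hne⟩, rfl⟩
            · exact ⟨.cell k (s'.c k), ⟨rfl, h5 k i hi hne⟩, rfl⟩
        · exact ⟨.zf false, rfl, by simpa [game, varL, St.toFun] using hz'⟩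

end CAGame

end Pool.Agent.MEternal
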