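import Pool.Agent.MEternal.Digits

/-!
# Who wins the tableau game
-/

namespace Pool.Agent.MEternal

namespace CAGame

/-- The rows of the cellular automaton. -/
def row {C : Type} (F : C → C → C → C) (row0 : ℤ → C) : ℕ → ℤ → C
  | 0 => row0
  | t + 1 => fun j => F (row F row0 t (j - 1)) (row F row0 t j) (row F row0 t (j + 1))

theorem nval_max {D : ℕ} (hD : 0 < D) (n : ℕ) :
    nval (fun _ : Fin n => (⟨D - 1, by omega⟩ : Fin D)) + 1 = D ^ n := by
  unfold nval
  simp only
  rw [Fin.sum_univ_eq_sum_range (fun i : ℕ => (D - 1) * D ^ i) n, ← Finset.mul_sum]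
  have h3 := geom_sum_mul_add (D - 1) n
  have h4 : D - 1 + 1 = D := by omega
  rw [h4] at h3
  rw [mul_comm]
  exact h3

/-- The initial state. -/
def s₀ {C : Type} {P D : ℕ} (hP : 0 < P) (hD : 0 < D) : St C P D where
  t := fun _ => ⟨D - 1, by omega⟩
  a := fun _ => ⟨0, hD⟩
  mt := ⟨0, hP⟩
  mp := ⟨0, by omega⟩
  z := false
  c := fun _ => none

variable {C : Type} {F : C → C → C → C} {acc : C → Prop} {blank : C} {row0 : ℤ → C} {P D : ℕ}
  {hP : 0 < P} {hD : 0 < D}

theorem mv_val {n b : ℕ} (hb : b < 3) {m : Fin n} {a a' : Fin n → Fin D}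
    (h : ∀ i : Fin n, Mv D b m i (a i) (a' i)) : (nval a' : ℤ) = nval a + b - 1 := by
  unfold Mv at h
  by_cases h0 : b = 0
  · subst h0
    simp only [if_true] at h
    have := dec_val h
    push_cast
    omega
  · by_cases h1 : b = 1
    · subst h1
      simp only [one_ne_zero, if_false, if_true] at h
      have : a' = a := funext fun i => Fin.ext (h i)
      rw [this]; push_cast; omega
    · have h2 : b = 2 := by omega
      subst h2
      simp only [OfNat.ofNat_ne_zero, OfNat.ofNat_ne_one, if_false] at h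
      have := dec_val h
      push_cast
      omega

/-- The position claimed in a state, relative to the first input cell. -/
def pos (s : St C P D) : ℤ := nval s.a - (D : ℤ) ^ (P + 1) - 1

/-- The three claims of a state are true. -/
def Claims (F : C → C → C → C) (row0 : ℤ → C) (s : St C P D) : Prop :=
  ∀ k : Fin 3, s.c k = some (row F row0 (nval s.t) (pos s + (k : ℕ) - 1))

theorem off_val (a : Fin (P + 2) → Fin D) (h : ∀ i : Fin (P + 2), (i : ℕ) ≠ 0 → (a i : ℕ) = off P i) :
    nval a = a 0 + D ^ (P + 1) := by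
  unfold nval
  rw [Fin.sum_univ_succ, Fin.sum_univ_castSucc]
  have h1 : ∀ i : Fin P, (a (Fin.succ (Fin.castSucc i)) : ℕ) * D ^ ((Fin.succ (Fin.castSucc i) : Fin (P + 2)) : ℕ) = 0 := by
    intro i
    rw [h _ (by simp)]
    have : off P ((Fin.succ (Fin.castSucc i) : Fin (P + 2)) : ℕ) = 0 := by
      unfold off
      rw [if_neg]
      simp
      omega
    rw [this, zero_mul]
  rw [Finset.sum_congr rfl (fun i _ => h1 i), Finset.sum_const_zero, zero_add,
    h (Fin.succ (Fin.last P)) (by simp)]
  have h2 : off P ((Fin.succ (Fin.last P) : Fin (P + 2)) : ℕ) = 1 := by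
    unfold off
    rw [if_pos]
    simp
  rw [h2]
  simp

theorem off_iff (hD2 : 2 ≤ D) (a : Fin (P + 2) → Fin D) :
    (∀ i : Fin (P + 2), (i : ℕ) ≠ 0 → (a i : ℕ) = off P i) ↔
      D ^ (P + 1) ≤ nval a ∧ nval a < D ^ (P + 1) + D := by
  constructor
  · intro h
    rw [off_val a h]
    have := (a 0).2
    omega
  · rintro ⟨h1, h2⟩
    let a' : Fin (P + 2) → Fin D := fun i => if (i : ℕ) = 0 then ⟨nval a - D ^ (P + 1), by omega⟩
      else ⟨off P i, by unfold off; split_ifs <;> omega⟩
    have ha' : ∀ i : Fin (P + 2), (i : ℕ) ≠ 0 → (a' i : ℕ) = off P i := by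
      intro i hi
      simp only [a']
      rw [if_neg hi]
    have h3 : nval a' = nval a := by
      rw [off_val a' ha']
      simp [a']
      omega
    rw [← nval_inj h3]
    exact ha'

theorem initOk_iff (hD2 : 2 ≤ D) (hrow : ∀ τ : ℤ, (τ < 0 ∨ (D : ℤ) - 2 ≤ τ) → row0 τ = blank)
    (s : St C P D) :
    InitOk blank row0 s ↔ (nval s.t = 0 ∧ Claims F row0 s) := by
  have ht : (∀ i, (s.t i : ℕ) = 0) ↔ nval s.t = 0 := by
    constructor
    · intro h
      unfold nval
      apply Finset.sum_eq_zero
      intro i _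
      rw [h i, zero_mul]
    · intro h i
      unfold nval at h
      rw [Finset.sum_eq_zero_iff] at h
      have := h i (Finset.mem_univ _)
      rcases Nat.mul_eq_zero.1 this with h | h
      · exact h
      · exact absurd h (pow_ne_zero _ (by omega))
  unfold InitOk
  rw [ht]
  apply and_congr_right
  intro ht0
  unfold Claims
  rw [ht0]
  simp only [row]
  by_cases hoff : ∀ i : Fin (P + 2), (i : ℕ) ≠ 0 → (s.a i : ℕ) = off P i
  · have hv := off_val s.a hoff
    constructor
    · rintro ⟨h1, -⟩ k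
      rw [h1 k hoff 0 rfl]
      unfold pos
      rw [hv]
      congr 2
      push_cast
      ring
    · intro h
      refine ⟨?_, ?_⟩
      · intro k _ i hi
        have : i = 0 := Fin.ext hi
        subst this
        rw [h k]
        unfold pos
        rw [hv]
        congr 2
        push_cast
        ring
      · intro k i hi hne
        exact absurd (hoff i hi) hne
  · have hoff' := hoff
    rw [off_iff hD2] at hoff'
    have hpos : ∀ k : Fin 3, row0 (pos s + (k : ℕ) - 1) = blank := by
      intro k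
      apply hrow
      unfold pos
      have hk := k.2
      by_contra hcon
      push Not at hcon
      apply hoff'
      have h1 : ((D ^ (P + 1) : ℕ) : ℤ) = (D : ℤ) ^ (P + 1) := by push_cast; ring
      constructor
      · zify
        omega
      · zify
        omega
    push Not at hoff
    obtain ⟨i, hi, hne⟩ := hoff
    constructor
    · rintro ⟨-, h2⟩ k
      rw [hpos k]
      exact h2 k i hi hne
    · intro h
      refine ⟨fun k h' => absurd (h' i hi) hne, fun k i' hi' hne' => ?_⟩
      rw [h k, hpos k]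

theorem step_claims (hD2 : 2 ≤ D)
    (hrow : ∀ τ : ℤ, (τ < 0 ∨ (D : ℤ) - 2 ≤ τ) → row0 τ = blank)
    {S : Set (GV P → GW C P D)}
    (hS1 : ∀ x ∈ S, ∀ j, (game F acc blank row0 P D hP hD).var (x j) = j)
    (hS2 : ∀ x ∈ S, ∀ b, ∃ x' ∈ S, (game F acc blank row0 P D hP hD).Trans b x x') :
    ∀ t : ℕ, ∀ s : St C P D, s.toFun ∈ S → s.z = false → nval s.t = t →
      (∀ k, s.c k ≠ none) → Claims F row0 s := by
  intro t
  induction t with
  | zero =>
    intro s hs hz ht _
    exfalso
    obtain ⟨x', hx', hT⟩ := hS2 _ hs 0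
    obtain ⟨s', rfl⟩ := exists_st (hS1 x' hx')
    rw [trans_iff] at hT
    rcases hT with h | ⟨h, -⟩
    · rw [hz] at h; exact absurd h (by simp)
    · have := dec_val h
      omega
  | succ t ih =>
    intro s hs hz ht hc k
    obtain ⟨x', hx', hT⟩ := hS2 _ hs k
    obtain ⟨s', rfl⟩ := exists_st (hS1 x' hx')
    rw [trans_iff] at hT
    rcases hT with h | ⟨h1, h2, ⟨v₀, v₁, v₂, hv0, hv1, hv2, h3⟩, h4⟩
    · rw [hz] at h; exact absurd h (by simp)
    · have ht' : nval s'.t = t := by
        have := dec_val h1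
        omega
      have hcl : Claims F row0 s' := by
        by_cases hz' : s'.z = true
        · exact ((initOk_iff hD2 hrow s').1 (h4 hz')).2
        · apply ih s' hx' (by simpa using hz') ht'
          intro j
          have hj : j = 0 ∨ j = 1 ∨ j = 2 := by
            revert j; decide
          rcases hj with rfl | rfl | rfl
          · rw [hv0]; simp
          · rw [hv1]; simp
          · rw [hv2]; simp
      have hpos : pos s' = pos s + (k : ℕ) - 1 := by
        rcases h2 with h2 | h2
        · exact absurd h2 (hc k)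
        · have := mv_val k.2 h2
          unfold pos
          rw [this]; ring
      have e0 := hcl 0
      have e1 := hcl 1
      have e2 := hcl 2
      rw [hv0] at e0
      rw [hv1] at e1
      rw [hv2] at e2
      rcases h3 with h3 | ⟨h3, -⟩
      · rw [h3, ht, ← hpos]
        simp only [row]
        rw [ht'] at e0 e1 e2
        simp only [Option.some.injEq] at e0 e1 e2
        rw [e0, e1, e2]
        congr 2
        · congr 1
          simp
        · congr 1
          simp
        · congr 1
          simp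
          ring
      · exact absurd h3 (hc k)

theorem s₀_toFun :
    (s₀ hP hD : St C P D).toFun = (game F acc blank row0 P D hP hD).init := by
  funext j
  rcases j with i | i | _ | _ | _ | k <;> rfl

theorem sound (hD2 : 2 ≤ D)
    (hrow : ∀ τ : ℤ, (τ < 0 ∨ (D : ℤ) - 2 ≤ τ) → row0 τ = blank)
    (h : (game F acc blank row0 P D hP hD).DefenderWins) :
    ∃ τ : ℤ, acc (row F row0 (D ^ P - 2) τ) := by
  obtain ⟨S, hi, hS1, hS2⟩ := h
  rw [← s₀_toFun] at hi
  obtain ⟨x', hx', hT⟩ := hS2 _ hi 1
  obtain ⟨s', rfl⟩ := exists_st (hS1 x' hx')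
  rw [trans_iff] at hT
  rcases hT with h | ⟨h1, h2, ⟨v₀, v₁, v₂, hv0, hv1, hv2, h3⟩, h4⟩
  · exact absurd h (by simp [s₀])
  · have ht' : nval s'.t = D ^ P - 2 := by
      have h5 := dec_val h1
      have h6 := nval_max hD P
      have h7 : (s₀ hP hD : St C P D).t = (fun _ : Fin P => (⟨D - 1, by omega⟩ : Fin D)) := rfl
      rw [h7] at h5
      omega
    have hcl : Claims F row0 s' := by
      by_cases hz' : s'.z = true
      · exact ((initOk_iff hD2 hrow s').1 (h4 hz')).2
      · apply step_claims hD2 hrow hS1 hS2 _ s' hx' (by simpa using hz') rfl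
        intro j
        have hj : j = 0 ∨ j = 1 ∨ j = 2 := by
          revert j; decide
        rcases hj with rfl | rfl | rfl
        · rw [hv0]; simp
        · rw [hv1]; simp
        · rw [hv2]; simp
    rcases h3 with h3 | ⟨-, h3⟩
    · exact absurd h3 (by simp [s₀])
    · have e1 := hcl 1
      rw [hv1, ht'] at e1
      simp only [Option.some.injEq] at e1
      exact ⟨_, e1 ▸ h3⟩

theorem next_tr (hD2 : 2 ≤ D)
    (hrow : ∀ τ : ℤ, (τ < 0 ∨ (D : ℤ) - 2 ≤ τ) → row0 τ = blank) {s : St C P D} {b : Fin 3}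
    {m : Fin P} {t' : Fin P → Fin D} (ht : ∀ i : Fin P, Dec D m i (s.t i) (t' i))
    {mp' : Fin (P + 2)} {a' : Fin (P + 2) → Fin D}
    (ha : s.c b = none ∨ ∀ i : Fin (P + 2), Mv D b mp' i (s.a i) (a' i))
    (hc : s.c b = some (row F row0 (nval t' + 1) (nval a' - (D : ℤ) ^ (P + 1) - 1)) ∨
      s.c b = none ∧ acc (row F row0 (nval t') (nval a' - (D : ℤ) ^ (P + 1) - 1))) :
    ∃ s' : St C P D, s'.t = t' ∧ s'.a = a' ∧ (s'.z = true ↔ nval t' = 0) ∧ Claims F row0 s' ∧
      Tr F acc blank row0 b s s' := by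
  let s' : St C P D := ⟨t', a', m, mp', decide (nval t' = 0), fun k =>
    some (row F row0 (nval t') (nval a' - (D : ℤ) ^ (P + 1) - 1 + (k : ℕ) - 1))⟩
  have hcl : Claims F row0 s' := fun k => rfl
  refine ⟨s', rfl, rfl, by simp [s'], hcl, Or.inr ⟨ht, ha, ?_, ?_⟩⟩
  · refine ⟨_, _, _, rfl, rfl, rfl, ?_⟩
    rcases hc with hc | ⟨hc, hc'⟩
    · left
      rw [hc]
      simp only [row]
      congr 2
      · congr 1
        simp
      · congr 1
        simp
      · congr 1
        simp
        ring
    · right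
      refine ⟨hc, ?_⟩
      have : (nval a' - (D : ℤ) ^ (P + 1) - 1 + ((1 : Fin 3) : ℕ) - 1) =
          (nval a' - (D : ℤ) ^ (P + 1) - 1) := by simp
      rw [this]
      exact hc'
  · intro hz
    rw [initOk_iff hD2 hrow]
    exact ⟨by simpa [s'] using hz, hcl⟩

/-- States in which the defender plays truthfully. -/
def Good (F : C → C → C → C) (row0 : ℤ → C) (s : St C P D) : Prop :=
  s.z = true ∨ (0 < nval s.t ∧ |pos s| + nval s.t ≤ 2 * ((D : ℤ) ^ P - 2) ∧ Claims F row0 s)

theorem complete (hD2 : 2 ≤ D)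
    (hrow : ∀ τ : ℤ, (τ < 0 ∨ (D : ℤ) - 2 ≤ τ) → row0 τ = blank)
    {τ₀ : ℤ} (hτ : |τ₀| ≤ (D : ℤ) ^ P - 2) (hacc : acc (row F row0 (D ^ P - 2) τ₀)) :
    (game F acc blank row0 P D hP hD).DefenderWins := by
  have hDP : D ≤ D ^ P := by
    calc D = D ^ 1 := (pow_one D).symm
      _ ≤ D ^ P := Nat.pow_le_pow_right hD hP
  have hDP' : (D : ℤ) ≤ (D : ℤ) ^ P := by exact_mod_cast hDP
  have hD2' : (2 : ℤ) ≤ D := by exact_mod_cast hD2
  have hO : 2 * (D : ℤ) ^ P ≤ (D : ℤ) ^ (P + 1) := by
    rw [pow_succ]; nlinarith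
  have hO2 : 2 * (D : ℤ) ^ (P + 1) ≤ (D : ℤ) ^ (P + 2) := by
    rw [pow_succ (D : ℤ) (P + 1)]; nlinarith
  -- any position in range has digits
  have hdig : ∀ τ : ℤ, |τ| ≤ 2 * ((D : ℤ) ^ P - 2) → ∃ a : Fin (P + 2) → Fin D,
      (nval a : ℤ) - (D : ℤ) ^ (P + 1) - 1 = τ := by
    intro τ hτ
    rw [abs_le] at hτ
    obtain ⟨N, hN⟩ := Int.eq_ofNat_of_zero_le (show 0 ≤ τ + (D : ℤ) ^ (P + 1) + 1 by linarith)
    obtain ⟨a, ha⟩ := nval_surj (n := P + 2) (D := D) (N := N) (by zify; linarith)
    refine ⟨a, ?_⟩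
    rw [ha]
    linarith
  refine ⟨{x | x = (game F acc blank row0 P D hP hD).init ∨
    ∃ s : St C P D, Good F row0 s ∧ x = s.toFun}, Or.inl rfl, ?_, ?_⟩
  · rintro x (rfl | ⟨s, -, rfl⟩) j
    · rw [← s₀_toFun]
      exact var_toFun _ j
    · exact var_toFun s j
  · rintro x (rfl | ⟨s, hs, rfl⟩) b
    · rw [← s₀_toFun]
      have h1 : 1 ≤ nval (s₀ hP hD : St C P D).t := by
        have h6 := nval_max hD P
        have h7 : (s₀ hP hD : St C P D).t = (fun _ : Fin P => (⟨D - 1, by omega⟩ : Fin D)) := rfl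
        rw [h7]; omega
      obtain ⟨m, t', ht'⟩ := exists_dec hD h1
      have ht'' : nval t' = D ^ P - 2 := by
        have h5 := dec_val ht'
        have h6 := nval_max hD P
        have h7 : (s₀ hP hD : St C P D).t = (fun _ : Fin P => (⟨D - 1, by omega⟩ : Fin D)) := rfl
        rw [h7] at h5
        omega
      have ht3 : (nval t' : ℤ) = (D : ℤ) ^ P - 2 := by
        rw [ht'']
        have : 2 ≤ D ^ P := hD2.trans hDP
        push_cast [Nat.cast_sub this]
        ring
      obtain ⟨a', ha'⟩ := hdig τ₀ (by linarith [abs_nonneg τ₀])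
      obtain ⟨s', h1, h2, h3, h4, h5⟩ := next_tr (F := F) (acc := acc) (blank := blank)
        (row0 := row0) hD2 hrow (s := s₀ hP hD) (b := b) ht'
        (mp' := ⟨0, by omega⟩) (a' := a') (Or.inl rfl)
        (Or.inr ⟨rfl, by rw [ht'', ha']; exact hacc⟩)
      refine ⟨s'.toFun, Or.inr ⟨s', ?_, rfl⟩, (trans_iff b _ _).2 h5⟩
      by_cases hz : s'.z = true
      · exact Or.inl hz
      · right
        refine ⟨?_, ?_, h4⟩
        · rw [h3] at hz; rw [h1]; omega
        · have : pos s' = τ₀ := by unfold pos; rw [h2, ha']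
          rw [this, h1, ht3]; linarith
    · rcases hs with hz | ⟨ht, hr, hcl⟩
      · exact ⟨s.toFun, Or.inr ⟨s, Or.inl hz, rfl⟩, (trans_iff b _ _).2 (Or.inl hz)⟩
      · obtain ⟨m, t', ht'⟩ := exists_dec hD ht
        have ht'' := dec_val ht'
        have hb := b.2
        -- the new position
        have habs := abs_le.1 (show |pos s| ≤ 2 * ((D : ℤ) ^ P - 2) - nval s.t by linarith)
        have htz : (0 : ℤ) < nval s.t := by exact_mod_cast ht
        have hmv : ∃ (mp' : Fin (P + 2)) (a' : Fin (P + 2) → Fin D),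
            ∀ i : Fin (P + 2), Mv D b mp' i (s.a i) (a' i) := by
          unfold pos at habs
          by_cases h0 : (b : ℕ) = 0
          · obtain ⟨m', a', h⟩ := exists_dec hD (t := s.a) (by zify; linarith [habs.1])
            exact ⟨m', a', fun i => by unfold Mv; rw [if_pos h0]; exact h i⟩
          · by_cases h1 : (b : ℕ) = 1
            · exact ⟨0, s.a, fun i => by unfold Mv; rw [if_neg h0, if_pos h1]⟩
            · obtain ⟨m', a', h⟩ := exists_inc hD (a := s.a) (by zify; linarith [habs.2])
              exact ⟨m', a', fun i => by unfold Mv; rw [if_neg h0, if_neg h1]; exact h i⟩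
        obtain ⟨mp', a', hmv⟩ := hmv
        have hpos := mv_val hb hmv
        have hpos' : (nval a' : ℤ) - (D : ℤ) ^ (P + 1) - 1 = pos s + (b : ℕ) - 1 := by
          unfold pos; rw [hpos]; ring
        obtain ⟨s', h1, h2, h3, h4, h5⟩ := next_tr (F := F) (acc := acc) (blank := blank)
          (row0 := row0) hD2 hrow (s := s) (b := b) ht' (Or.inr hmv)
          (Or.inl (by rw [hcl b, ht'', hpos']))
        refine ⟨s'.toFun, Or.inr ⟨s', ?_, rfl⟩, (trans_iff b _ _).2 h5⟩
        by_cases hz : s'.z = true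
        · exact Or.inl hz
        · right
          refine ⟨?_, ?_, h4⟩
          · rw [h3] at hz; rw [h1]; omega
          · have : pos s' = pos s + (b : ℕ) - 1 := by
              rw [← hpos']; unfold pos; rw [h2]
            rw [this, h1]
            have hb' : ((b : ℕ) : ℤ) ≤ 2 := by exact_mod_cast (by omega : (b : ℕ) ≤ 2)
            have hb'' : (0 : ℤ) ≤ ((b : ℕ) : ℤ) := by positivity
            have : |pos s + ((b : ℕ) : ℤ) - 1| ≤ |pos s| + 1 := by
              rw [abs_le]
              constructor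
              · linarith [neg_abs_le (pos s)]
              · linarith [le_abs_self (pos s)]
            have ht4 : (nval s.t : ℤ) = nval t' + 1 := by exact_mod_cast ht''
            linarith

end CAGame

end Pool.Agent.MEternal
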