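import Pool.Agent.MEternal.TMRow

/-!
# Codes of the vertices by tuples of natural numbers
-/

namespace Pool.Agent.MEternal

namespace Codes

open CAGame

/-- Code of an option. -/
def oc {α : Type} (e : α → ℕ) : Option α → ℕ
  | none => 0
  | some x => e x + 1

theorem oc_inj {α : Type} {e : α → ℕ} (he : Function.Injective e) :
    Function.Injective (oc e) := by
  rintro (_ | x) (_ | y) h
  · rfl
  · simp [oc] at h
  · simp [oc] at h
  · simp only [oc, add_left_inj] at h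
    rw [he h]

theorem oc_surj {α : Type} {e : α → ℕ} {c : ℕ} (he : ∀ i < c, ∃ x, e x = i) {i : ℕ}
    (hi : i < c + 1) : ∃ x, oc e x = i := by
  rcases i with _ | i
  · exact ⟨none, rfl⟩
  · obtain ⟨x, hx⟩ := he i (by omega)
    exact ⟨some x, by simp [oc, hx]⟩

theorem oc_lt {α : Type} {e : α → ℕ} {c : ℕ} (he : ∀ x, e x < c) (x : Option α) :
    oc e x < c + 1 := by
  rcases x with _ | x
  · simp [oc]
  · simpa [oc] using he x

/-- Code of an option of the attacker. -/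
def ob (b : Option (Fin 3)) : ℕ := oc (fun i : Fin 3 => (i : ℕ)) b

theorem ob_inj : Function.Injective ob := oc_inj Fin.val_injective

@[simp] theorem ob_eq_iff (b b' : Option (Fin 3)) : ob b = ob b' ↔ b = b' := ob_inj.eq_iff

@[simp] theorem ob_none : ob none = 0 := rfl

@[simp] theorem ob_some (i : Fin 3) : ob (some i) = i + 1 := rfl

theorem ob_lt (b : Option (Fin 3)) : ob b < 4 := oc_lt (fun i => i.2) b

theorem ob_surj {i : ℕ} (hi : i < 4) : ∃ b, ob b = i :=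
  oc_surj (c := 3) (fun i hi => ⟨⟨i, hi⟩, rfl⟩) hi

variable {C : Type} {P D : ℕ}

/-- Codes of the variables of the game. -/
def cGV : GV P → ℕ × ℕ
  | .td i => (0, i)
  | .pd i => (1, i)
  | .mt => (2, 0)
  | .mp => (3, 0)
  | .zf => (4, 0)
  | .cell k => (5, k)

/-- Codes of the values of the game. -/
def cGW (e : C → ℕ) : GW C P D → ℕ × ℕ × ℕ
  | .td i v => (0, i, v)
  | .pd i v => (1, i, v)
  | .mt m => (2, m, 0)
  | .mp m => (3, m, 0)
  | .zf b => (4, b.toNat, 0)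
  | .cell k c => (5, k, oc e c)

/-- Codes of the clauses of the game. -/
def cGQ (e : C → ℕ) : GQ C P D → ℕ × ℕ × ℕ × ℕ × ℕ
  | .T b m i v => (0, b, m, i, v)
  | .A b m i v => (1, b, m, i, v)
  | .C b u₀ u₁ u₂ => (2, b, oc e u₀, oc e u₁, oc e u₂)
  | .Z b i => (3, b, i, 0, 0)
  | .I b a k => (4, b, a, k, 0)
  | .J b i k => (5, b, i, k, 0)

/-- Codes of the variables of the lock game. -/
def cI : Option (Fin 3 × GV P) → ℕ × ℕ × ℕ × ℕ
  | none => (0, 0, 0, 0)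
  | some (t, j) => (1, t, cGV j)

/-- Codes of the values of the lock game. -/
def cLW (e : C → ℕ) : LW (GW C P D) (Fin 3) → ℕ × ℕ × ℕ × ℕ × ℕ
  | .eps t => (0, t, 0, 0, 0)
  | .esc t b => (1, t, ob b, 0, 0)
  | .buf t w => (2, t, cGW e w)

/-- Codes of the clauses of the lock game. -/
def cLQ (e : C → ℕ) : LQ (GV P) (Fin 3) (GQ C P D) → ℕ × ℕ × ℕ × ℕ × ℕ × ℕ × ℕ
  | .phase t b => (0, t, ob b, 0, 0, 0, 0)
  | .hold t b j => (1, t, ob b, (cGV j).1, (cGV j).2, 0, 0)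
  | .fill t b j => (2, t, ob b, (cGV j).1, (cGV j).2, 0, 0)
  | .reset t j => (3, t, (cGV j).1, (cGV j).2, 0, 0, 0)
  | .game t q => (4, t, cGQ e q)

/-- Seven natural numbers. -/
abbrev N7 := ℕ × ℕ × ℕ × ℕ × ℕ × ℕ × ℕ

/-- The first five components. -/
def p5 (x : N7) : ℕ × ℕ × ℕ × ℕ × ℕ := (x.1, x.2.1, x.2.2.1, x.2.2.2.1, x.2.2.2.2.1)

/-- The first four components. -/
def p4 (x : N7) : ℕ × ℕ × ℕ × ℕ := (x.1, x.2.1, x.2.2.1, x.2.2.2.1)

/-- Padding. -/
def e5 (x : ℕ × ℕ × ℕ × ℕ × ℕ) : N7 :=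
  (x.1, x.2.1, x.2.2.1, x.2.2.2.1, x.2.2.2.2, 0, 0)

/-- Padding. -/
def e4 (x : ℕ × ℕ × ℕ × ℕ) : N7 := (x.1, x.2.1, x.2.2.1, x.2.2.2, 0, 0, 0)

@[simp] theorem p5_e5 (x : ℕ × ℕ × ℕ × ℕ × ℕ) : p5 (e5 x) = x := rfl

@[simp] theorem p4_e4 (x : ℕ × ℕ × ℕ × ℕ) : p4 (e4 x) = x := rfl

/-- Vertices of the graph. -/
abbrev V (C : Type) (P D : ℕ) :=
  Vtx (Option (Fin 3 × GV P)) (LW (GW C P D) (Fin 3)) (Fin 3 × Option (Fin 3))
    (LQ (GV P) (Fin 3) (GQ C P D))

/-- Codes of the vertices. -/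
def cV (e : C → ℕ) : V C P D → ℕ × N7
  | .pA => (0, 0, 0, 0, 0, 0, 0, 0)
  | .att a => (1, a.1, ob a.2, 0, 0, 0, 0, 0)
  | .cl q => (2, cLQ e q)
  | .qz x => (3, e5 (cLW e x))
  | .p i => (4, e4 (cI i))
  | .h i => (5, e4 (cI i))
  | .val x => (6, e5 (cLW e x))
  | .sp x => (7, e5 (cLW e x))
  | .sh x => (8, e5 (cLW e x))
  | .sz x => (9, e5 (cLW e x))
  | .sw x => (10, e5 (cLW e x))

/-- The list of the components. -/
def toL (x : ℕ × N7) : List ℕ :=
  [x.1, x.2.1, x.2.2.1, x.2.2.2.1, x.2.2.2.2.1, x.2.2.2.2.2.1, x.2.2.2.2.2.2.1, x.2.2.2.2.2.2.2]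

section inj

theorem cGV_inj : Function.Injective (cGV (P := P)) := by
  intro x y h
  rcases x <;> rcases y <;> simp [cGV, Fin.val_inj] at h ⊢ <;> exact h

@[simp] theorem cGV_eq_iff (x y : GV P) : cGV x = cGV y ↔ x = y := cGV_inj.eq_iff

variable {e : C → ℕ}

theorem toNat_inj (b b' : Bool) : b.toNat = b'.toNat ↔ b = b' := by
  rcases b <;> rcases b' <;> simp

theorem cGW_inj (he : Function.Injective e) : Function.Injective (cGW (P := P) (D := D) e) := by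
  intro x y h
  rcases x <;> rcases y <;> simp [cGW, Fin.val_inj, (oc_inj he).eq_iff, toNat_inj] at h ⊢ <;>
    exact h

theorem cGQ_inj (he : Function.Injective e) : Function.Injective (cGQ (P := P) (D := D) e) := by
  intro x y h
  rcases x <;> rcases y <;> simp [cGQ, Fin.val_inj, (oc_inj he).eq_iff] at h ⊢ <;> exact h

theorem cI_inj : Function.Injective (cI (P := P)) := by
  intro x y h
  rcases x with _ | ⟨t, j⟩ <;> rcases y with _ | ⟨t', j'⟩ <;>
    simp [cI, Fin.val_inj] at h ⊢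
  exact h

theorem cLW_inj (he : Function.Injective e) : Function.Injective (cLW (P := P) (D := D) e) := by
  intro x y h
  rcases x <;> rcases y <;> simp [cLW, Fin.val_inj, (cGW_inj he).eq_iff] at h ⊢ <;> exact h

theorem cGV_ext {j j' : GV P} (h : (cGV j).1 = (cGV j').1) (h' : (cGV j).2 = (cGV j').2) :
    j = j' := cGV_inj (Prod.ext h h')

theorem cLQ_inj (he : Function.Injective e) : Function.Injective (cLQ (P := P) (D := D) e) := by
  intro x y h
  rcases x <;> rcases y <;> simp [cLQ, Fin.val_inj, (cGQ_inj he).eq_iff] at h ⊢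
  · exact h
  · exact ⟨h.1, h.2.1, cGV_ext h.2.2.1 h.2.2.2⟩
  · exact ⟨h.1, h.2.1, cGV_ext h.2.2.1 h.2.2.2⟩
  · exact ⟨h.1, cGV_ext h.2.1 h.2.2⟩
  · exact h

theorem e5_inj : Function.Injective e5 := by
  rintro ⟨a, b, c, d, f⟩ ⟨a', b', c', d', f'⟩ h
  simp_all [e5]

theorem e4_inj : Function.Injective e4 := by
  rintro ⟨a, b, c, d⟩ ⟨a', b', c', d'⟩ h
  simp_all [e4]

theorem cV_inj (he : Function.Injective e) : Function.Injective (cV (P := P) (D := D) e) := by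
  intro x y h
  rcases x <;> rcases y <;> simp_all [cV, (cLQ_inj he).eq_iff, (cLW_inj he).eq_iff,
    cI_inj.eq_iff, e5_inj.eq_iff, e4_inj.eq_iff]
  rename_i a a'
  exact Prod.ext (Fin.ext h.1) h.2

theorem toL_inj : Function.Injective toL := by
  rintro ⟨a, b, c, d, f, g, h, i⟩ ⟨a', b', c', d', f', g', h', i'⟩ hh
  simp_all [toL]

end inj

end Codes

end Pool.Agent.MEternal
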