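import Mathlib

/-!
# m-eternal domination

Guards on the vertices of a graph, at most one per vertex, all guards may move in each round.
-/

namespace Pool.Agent.MEternal

/-- Two configurations (finite sets of vertices carrying a guard) are traversable if there is a
bijection between them under which every guard stays put or moves to a neighbour. -/
def Traversable {V : Type*} (G : SimpleGraph V) (C₁ C₂ : Finset V) : Prop :=
  ∃ f : C₁ ≃ C₂, ∀ u : C₁, ((f u : V) = u) ∨ G.Adj u (f u)

/-- `𝒞` is an m-eternal dominating strategy of order `k`: a nonempty family of configurations of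
order `k` such that, whichever vertex `v` is attacked in whichever configuration `C` of the family,
there is a configuration of the family that contains `v` and is equal to `C` or traversable
from `C`. -/
def IsStrategy {V : Type*} (G : SimpleGraph V) (k : ℕ) (𝒞 : Set (Finset V)) : Prop :=
  𝒞.Nonempty ∧ (∀ C ∈ 𝒞, C.card = k) ∧
    ∀ C ∈ 𝒞, ∀ v : V, ∃ C' ∈ 𝒞, v ∈ C' ∧ (C' = C ∨ Traversable G C C')

/-- The m-eternal domination number: the least order of an m-eternal dominating strategy. -/
noncomputable def mEternalDominationNumber {V : Type*} (G : SimpleGraph V) : ℕ :=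
  sInf {k : ℕ | ∃ 𝒞 : Set (Finset V), IsStrategy G k 𝒞}

theorem exists_strategy {V : Type*} [Fintype V] (G : SimpleGraph V) :
    ∃ k, ∃ 𝒞 : Set (Finset V), IsStrategy G k 𝒞 := by
  classical
  refine ⟨Fintype.card V, {Finset.univ}, ⟨Finset.univ, rfl⟩, ?_, ?_⟩
  · rintro C hC
    rw [Set.mem_singleton_iff.1 hC]
    rfl
  · rintro C hC v
    rw [Set.mem_singleton_iff.1 hC]
    exact ⟨Finset.univ, rfl, Finset.mem_univ v, Or.inl rfl⟩

theorem number_le_iff {V : Type*} [Fintype V] (G : SimpleGraph V) (k : ℕ) :
    mEternalDominationNumber G ≤ k ↔ ∃ k' ≤ k, ∃ 𝒞 : Set (Finset V), IsStrategy G k' 𝒞 := by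
  constructor
  · intro h
    exact ⟨_, h, Nat.sInf_mem (s := {k : ℕ | ∃ 𝒞 : Set (Finset V), IsStrategy G k 𝒞})
      (exists_strategy G)⟩
  · rintro ⟨k', hk', 𝒞, h⟩
    exact (Nat.sInf_le (show k' ∈ {k : ℕ | ∃ 𝒞 : Set (Finset V), IsStrategy G k 𝒞} from
      ⟨𝒞, h⟩)).trans hk'

end Pool.Agent.MEternal
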