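import Pool.Agent.MEternal.CAGame

/-!
# Arithmetic of digit strings
-/

namespace Pool.Agent.MEternal

namespace CAGame

variable {n D : ℕ}

/-- The number with digits `f`. -/
def nval (f : Fin n → Fin D) : ℕ := ∑ i : Fin n, (f i : ℕ) * D ^ (i : ℕ)

theorem nval_inj {f g : Fin n → Fin D} (h : nval f = nval g) : f = g := by
  apply finFunctionFinEquiv.injective
  apply Fin.ext
  rw [finFunctionFinEquiv_apply, finFunctionFinEquiv_apply]
  exact h

theorem nval_lt (f : Fin n → Fin D) : nval f < D ^ n := by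
  have := (finFunctionFinEquiv f).2
  rw [finFunctionFinEquiv_apply] at this
  exact this

theorem nval_surj {N : ℕ} (hN : N < D ^ n) : ∃ f : Fin n → Fin D, nval f = N := by
  obtain ⟨f, hf⟩ := (finFunctionFinEquiv (m := D) (n := n)).surjective ⟨N, hN⟩
  refine ⟨f, ?_⟩
  have := congrArg Fin.val hf
  rw [finFunctionFinEquiv_apply] at this
  exact this

theorem dec_val {m : Fin n} {t t' : Fin n → Fin D}
    (h : ∀ i : Fin n, Dec D m i (t i) (t' i)) : nval t = nval t' + 1 := by
  have key : ∀ i : Fin n, ((t i : ℕ) : ℤ) * (D : ℤ) ^ (i : ℕ) - ((t' i : ℕ) : ℤ) * (D : ℤ) ^ (i : ℕ)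
      = (fun i : ℕ => if i < m then -(((D : ℤ) - 1) * (D : ℤ) ^ i) else
          if i = m then (D : ℤ) ^ i else 0) (i : ℕ) := by
    intro i
    have hi := h i
    unfold Dec at hi
    simp only
    split_ifs with h1 h2
    · rw [if_pos h1] at hi
      have h3 : ((t i : ℕ) : ℤ) = 0 := by exact_mod_cast hi.1
      have h4 : ((t' i : ℕ) : ℤ) = (D : ℤ) - 1 := by
        have : ((t' i : ℕ) : ℤ) + 1 = D := by exact_mod_cast hi.2
        linarith
      rw [h3, h4]; ring
    · rw [if_neg h1, if_pos h2] at hi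
      have h3 : ((t i : ℕ) : ℤ) = ((t' i : ℕ) : ℤ) + 1 := by exact_mod_cast hi.symm
      rw [h3]; ring
    · rw [if_neg h1, if_neg h2] at hi
      rw [hi]; ring
  have hsum : ((nval t : ℕ) : ℤ) - ((nval t' : ℕ) : ℤ) = 1 := by
    unfold nval
    push_cast
    rw [← Finset.sum_sub_distrib, Finset.sum_congr rfl (fun i _ => key i),
      Fin.sum_univ_eq_sum_range (fun i : ℕ => if i < m then -(((D : ℤ) - 1) * (D : ℤ) ^ i) else
          if i = m then (D : ℤ) ^ i else 0) n]
    have hm : (m : ℕ) + 1 ≤ n := m.2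
    have h1 : ∑ i ∈ Finset.range n, (if i < (m : ℕ) then -(((D : ℤ) - 1) * (D : ℤ) ^ i) else
          if i = (m : ℕ) then (D : ℤ) ^ i else 0) =
        ∑ i ∈ Finset.range ((m : ℕ) + 1), (if i < (m : ℕ) then -(((D : ℤ) - 1) * (D : ℤ) ^ i) else
          if i = (m : ℕ) then (D : ℤ) ^ i else 0) := by
      symm
      apply Finset.sum_subset (Finset.range_mono hm)
      intro i _ hi
      simp only [Finset.mem_range, not_lt] at hi
      rw [if_neg (by omega), if_neg (by omega)]
    rw [h1, Finset.sum_range_succ, if_neg (lt_irrefl _), if_pos rfl]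
    have h2 : ∑ i ∈ Finset.range (m : ℕ), (if i < (m : ℕ) then -(((D : ℤ) - 1) * (D : ℤ) ^ i) else
          if i = (m : ℕ) then (D : ℤ) ^ i else 0) =
        ∑ i ∈ Finset.range (m : ℕ), -(((D : ℤ) - 1) * (D : ℤ) ^ i) := by
      apply Finset.sum_congr rfl
      intro i hi
      rw [if_pos (Finset.mem_range.1 hi)]
    rw [h2, Finset.sum_neg_distrib, ← Finset.mul_sum, mul_geom_sum]
    ring
  omega

theorem exists_dec (hD : 0 < D) {t : Fin n → Fin D} (h : 1 ≤ nval t) :
    ∃ (m : Fin n) (t' : Fin n → Fin D), ∀ i : Fin n, Dec D m i (t i) (t' i) := by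
  classical
  have hex : ∃ i : ℕ, ∃ hi : i < n, (t ⟨i, hi⟩ : ℕ) ≠ 0 := by
    by_contra hcon
    push Not at hcon
    have : nval t = 0 := by
      unfold nval
      apply Finset.sum_eq_zero
      intro i _
      rw [hcon i i.2]; simp
    omega
  let m := Nat.find hex
  obtain ⟨hm, hm'⟩ := Nat.find_spec hex
  refine ⟨⟨m, hm⟩, fun i => if (i : ℕ) < m then ⟨D - 1, by omega⟩ else
    if (i : ℕ) = m then ⟨t i - 1, by omega⟩ else t i, ?_⟩
  intro i
  unfold Dec
  simp only
  split_ifs with h1 h2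
  · refine ⟨?_, by simp; omega⟩
    by_contra hne
    exact Nat.find_min hex h1 ⟨i.2, hne⟩
  · have : i = ⟨m, hm⟩ := Fin.ext h2
    subst this
    simp only
    have : (t ⟨m, hm⟩ : ℕ) ≠ 0 := hm'
    omega
  · rfl

theorem exists_inc (hD : 0 < D) {a : Fin n → Fin D} (h : nval a + 1 < D ^ n) :
    ∃ (m : Fin n) (a' : Fin n → Fin D), ∀ i : Fin n, Dec D m i (a' i) (a i) := by
  classical
  have hex : ∃ i : ℕ, ∃ hi : i < n, (a ⟨i, hi⟩ : ℕ) + 1 ≠ D := by
    by_contra hcon
    push Not at hcon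
    have : nval a + 1 = D ^ n := by
      unfold nval
      have h1 : ∀ i : Fin n, (a i : ℕ) * D ^ (i : ℕ) = (D - 1) * D ^ (i : ℕ) := by
        intro i
        have := hcon i i.2
        have h2 : (a i : ℕ) = D - 1 := by
          simp only [Fin.eta] at this
          omega
        rw [h2]
      rw [Finset.sum_congr rfl (fun i _ => h1 i), Fin.sum_univ_eq_sum_range
        (fun i : ℕ => (D - 1) * D ^ i) n, ← Finset.mul_sum]
      have h3 := geom_sum_mul_add (D - 1) n
      have h4 : D - 1 + 1 = D := by omega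
      rw [h4] at h3
      rw [mul_comm]
      exact h3
    omega
  let m := Nat.find hex
  obtain ⟨hm, hm'⟩ := Nat.find_spec hex
  have hm'' : (a ⟨m, hm⟩ : ℕ) + 1 < D := by
    have := (a ⟨m, hm⟩).2
    have h2 : (a ⟨m, hm⟩ : ℕ) + 1 ≠ D := hm'
    omega
  refine ⟨⟨m, hm⟩, fun i => if (i : ℕ) < m then ⟨0, hD⟩ else
    if h : (i : ℕ) = m then ⟨a ⟨m, hm⟩ + 1, hm''⟩ else a i, ?_⟩
  intro i
  unfold Dec
  simp only
  split_ifs with h1 h2
  · refine ⟨rfl, ?_⟩
    by_contra hne
    exact Nat.find_min hex h1 ⟨i.2, hne⟩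
  · have : i = ⟨m, hm⟩ := Fin.ext h2
    subst this
    rfl
  · rfl

end CAGame

end Pool.Agent.MEternal
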