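import Pool.Agent.MEternal.SP

/-!
# Loop programs and their translation to stack programs
-/

namespace Pool.Agent.MEternal

/-- Registers. -/
inductive Reg (R : ℕ)
  | inp | inq | V | A | B | C | O | out
  | x (i : Fin R)
  deriving DecidableEq, Fintype

/-- Arithmetical expressions over variables `x 0, ..., x (R - 1)`. -/
inductive Expr (R : ℕ)
  | var (i : Fin R) : Expr R
  | const (c : ℕ) : Expr R
  | add (e f : Expr R) : Expr R
  | mul (e f : Expr R) : Expr R
  | pred (e : Expr R) : Expr R

/-- Tests. -/
inductive BExpr (R : ℕ)
  | tt : BExpr R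
  | lt (e f : Expr R) : BExpr R
  | bit (e : Expr R) : BExpr R
  | and (b c : BExpr R) : BExpr R
  | or (b c : BExpr R) : BExpr R
  | not (b : BExpr R) : BExpr R

/-- Loop programs. -/
inductive FProg (R : ℕ)
  | nop : FProg R
  | emit (b : Bool) : FProg R
  | seq (p q : FProg R) : FProg R
  | ite (b : BExpr R) (p q : FProg R) : FProg R
  | loopUp (i : Fin R) (e : Expr R) (p : FProg R) : FProg R

variable {R : ℕ}

/-- Value of an expression. -/
def Expr.val (env : Fin R → ℕ) : Expr R → ℕ
  | .var i => env i
  | .const c => c
  | .add e f => e.val env + f.val env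
  | .mul e f => e.val env * f.val env
  | .pred e => e.val env - 1

/-- Value of a test. -/
def BExpr.val (w : List Bool) (env : Fin R → ℕ) : BExpr R → Bool
  | .tt => true
  | .lt e f => decide (e.val env < f.val env)
  | .bit e => w.getD (e.val env) false
  | .and b c => b.val w env && c.val w env
  | .or b c => b.val w env || c.val w env
  | .not b => !(b.val w env)

/-- Output of a program. -/
def FProg.output (w : List Bool) : FProg R → (Fin R → ℕ) → List Bool
  | .nop, _ => []
  | .emit b, _ => [b]
  | .seq p q, env => p.output w env ++ q.output w env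
  | .ite b p q, env => if b.val w env then p.output w env else q.output w env
  | .loopUp i e p, env => (List.range (e.val env)).flatMap fun v =>
      p.output w (Function.update env i v)

/-- Contents of the registers. -/
@[ext] structure Sta (R : ℕ) where
  w : List Bool
  w' : List Bool
  v : List Bool
  a : List Bool
  b : List Bool
  c : List Bool
  o : List Bool
  u : List Bool
  env : Fin R → ℕ

/-- The assignment of the contents. -/
def Sta.toFun (s : Sta R) : Reg R → List Bool
  | .inp => s.w
  | .inq => s.w'
  | .V => s.v
  | .A => s.a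
  | .B => s.b
  | .C => s.c
  | .O => s.o
  | .out => s.u
  | .x i => List.replicate (s.env i) true

section update

variable (s : Sta R) (l : List Bool)

theorem upd_inp : Function.update s.toFun .inp l = ({s with w := l} : Sta R).toFun := by
  funext r; rcases r with _ | _ | _ | _ | _ | _ | _ | _ | i <;> simp [Sta.toFun, Function.update]

theorem upd_inq : Function.update s.toFun .inq l = ({s with w' := l} : Sta R).toFun := by
  funext r; rcases r with _ | _ | _ | _ | _ | _ | _ | _ | i <;> simp [Sta.toFun, Function.update]

theorem upd_V : Function.update s.toFun .V l = ({s with v := l} : Sta R).toFun := by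
  funext r; rcases r with _ | _ | _ | _ | _ | _ | _ | _ | i <;> simp [Sta.toFun, Function.update]

theorem upd_A : Function.update s.toFun .A l = ({s with a := l} : Sta R).toFun := by
  funext r; rcases r with _ | _ | _ | _ | _ | _ | _ | _ | i <;> simp [Sta.toFun, Function.update]

theorem upd_B : Function.update s.toFun .B l = ({s with b := l} : Sta R).toFun := by
  funext r; rcases r with _ | _ | _ | _ | _ | _ | _ | _ | i <;> simp [Sta.toFun, Function.update]

theorem upd_C : Function.update s.toFun .C l = ({s with c := l} : Sta R).toFun := by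
  funext r; rcases r with _ | _ | _ | _ | _ | _ | _ | _ | i <;> simp [Sta.toFun, Function.update]

theorem upd_O : Function.update s.toFun .O l = ({s with o := l} : Sta R).toFun := by
  funext r; rcases r with _ | _ | _ | _ | _ | _ | _ | _ | i <;> simp [Sta.toFun, Function.update]

theorem upd_out : Function.update s.toFun .out l = ({s with u := l} : Sta R).toFun := by
  funext r; rcases r with _ | _ | _ | _ | _ | _ | _ | _ | i <;> simp [Sta.toFun, Function.update]

theorem upd_x (i : Fin R) (n : ℕ) : Function.update s.toFun (.x i) (List.replicate n true) =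
    ({s with env := Function.update s.env i n} : Sta R).toFun := by
  funext r
  rcases r with _ | _ | _ | _ | _ | _ | _ | _ | j <;> simp [Sta.toFun, Function.update]
  split_ifs with h <;> simp [h]

end update

namespace SP

/-- The program `p` leads from `s` to `s'` in at most `T` steps. -/
def RunLe {K : Type} [DecidableEq K] (p : SP K) (s s' : K → List Bool) (T : ℕ) : Prop :=
  ∃ t ≤ T, Run p s s' t

variable {K : Type} [DecidableEq K]

theorem RunLe.mono {p : SP K} {s s' : K → List Bool} {T T' : ℕ} (h : RunLe p s s' T)
    (hT : T ≤ T') : RunLe p s s' T' := by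
  obtain ⟨t, ht, h⟩ := h
  exact ⟨t, ht.trans hT, h⟩

theorem RunLe.skip (s : K → List Bool) : RunLe .skip s s 0 := ⟨0, le_rfl, Run.skip s⟩

theorem RunLe.push (k : K) (b : Bool) (s : K → List Bool) :
    RunLe (.push k b) s (Function.update s k (b :: s k)) 1 := ⟨1, le_rfl, Run.push k b s⟩

theorem RunLe.seq {p q : SP K} {s s' s'' : K → List Bool} {T T' : ℕ} (h : RunLe p s s' T)
    (h' : RunLe q s' s'' T') : RunLe (.seq p q) s s'' (T + T') := by
  obtain ⟨t, ht, h⟩ := h
  obtain ⟨t', ht', h'⟩ := h'
  exact ⟨t + t', add_le_add ht ht', Run.seq h h'⟩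

theorem RunLe.pop_nil {k : K} {e f t : SP K} {s s' : K → List Bool} {T : ℕ} (h : s k = [])
    (hr : RunLe e s s' T) : RunLe (.pop k e f t) s s' (T + 1) := by
  obtain ⟨n, hn, hr⟩ := hr
  exact ⟨n + 1, Nat.succ_le_succ hn, Run.pop_nil h hr⟩

theorem RunLe.pop_false {k : K} {e f t : SP K} {s s' : K → List Bool} {T : ℕ} {l : List Bool}
    (h : s k = false :: l) (hr : RunLe f (Function.update s k l) s' T) :
    RunLe (.pop k e f t) s s' (T + 1) := by
  obtain ⟨n, hn, hr⟩ := hr
  exact ⟨n + 1, Nat.succ_le_succ hn, Run.pop_false h hr⟩

theorem RunLe.pop_true {k : K} {e f t : SP K} {s s' : K → List Bool} {T : ℕ} {l : List Bool}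
    (h : s k = true :: l) (hr : RunLe t (Function.update s k l) s' T) :
    RunLe (.pop k e f t) s s' (T + 1) := by
  obtain ⟨n, hn, hr⟩ := hr
  exact ⟨n + 1, Nat.succ_le_succ hn, Run.pop_true h hr⟩

/-- A counting loop, ended by a separator or the end of the stack. -/
theorem RunLe.loop {k : K} {p : SP K} {T : ℕ} {rest : List Bool} {s' : K → List Bool} :
    ∀ (n : ℕ) (G : ℕ → K → List Bool), (∀ i ≤ n, G i k = List.replicate (n - i) true ++ rest) →
    (∀ i < n, RunLe p (Function.update (G i) k (List.replicate (n - i - 1) true ++ rest))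
      (G (i + 1)) T) →
    RunLe (.loop k p) (G n) s' 1 →
    RunLe (.loop k p) (G 0) s' (n * (T + 1) + 1) := by
  intro n
  induction n with
  | zero =>
    intro G _ _ h
    exact h.mono (by omega)
  | succ n ih =>
    intro G hk hstep hend
    have h1 := ih (fun i => G (i + 1)) (fun i hi => by
      rw [hk (i + 1) (by omega)]
      congr 2
      omega) (fun i hi => by
      have := hstep (i + 1) (by omega)
      have e : n + 1 - (i + 1) - 1 = n - i - 1 := by omega
      rw [e] at this
      exact this) hend
    have h0 := hstep 0 (by omega)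
    obtain ⟨t0, ht0, hr0⟩ := h0
    obtain ⟨t1, ht1, hr1⟩ := h1
    refine ⟨t0 + t1 + 1, ?_, Run.loop_true (l := List.replicate n true ++ rest) ?_ hr0 hr1⟩
    · nlinarith
    · rw [hk 0 (by omega)]
      simp [List.replicate_succ]

theorem RunLe.loop_nil {k : K} {p : SP K} {s : K → List Bool} (h : s k = []) :
    RunLe (.loop k p) s s 1 := ⟨1, le_rfl, Run.loop_nil h⟩

theorem RunLe.loop_false {k : K} {p : SP K} {s : K → List Bool} {l : List Bool}
    (h : s k = false :: l) : RunLe (.loop k p) s (Function.update s k l) 1 :=
  ⟨1, le_rfl, Run.loop_false h⟩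

/-- Going through a stack. -/
theorem RunLe.each {k : K} {f t : SP K} {T : ℕ} :
    ∀ (l : List Bool) (G : ℕ → K → List Bool), (∀ i ≤ l.length, G i k = l.drop i) →
    (∀ i (hi : i < l.length), RunLe (if l[i] then t else f)
      (Function.update (G i) k (l.drop (i + 1))) (G (i + 1)) T) →
    RunLe (.each k f t) (G 0) (G l.length) (l.length * (T + 1) + 1) := by
  intro l
  induction l with
  | nil =>
    intro G hk _
    exact ⟨1, by simp, Run.each_nil (by rw [hk 0 (by simp)]; simp)⟩
  | cons b l ih =>
    intro G hk hstep
    have h1 := ih (fun i => G (i + 1)) (fun i hi => by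
      rw [hk (i + 1) (by simpa using hi)]
      simp) (fun i hi => by
      have := hstep (i + 1) (by simpa using hi)
      simpa using this)
    have h0 := hstep 0 (by simp)
    obtain ⟨t0, ht0, hr0⟩ := h0
    obtain ⟨t1, ht1, hr1⟩ := h1
    have hk0 : G 0 k = b :: l := by rw [hk 0 (by simp)]; simp
    rcases b with _ | _
    · refine ⟨t0 + t1 + 1, ?_, Run.each_false (l := l) hk0 (by simpa using hr0)
        (by simpa using hr1)⟩
      simp only [List.length_cons]
      nlinarith
    · refine ⟨t0 + t1 + 1, ?_, Run.each_true (l := l) hk0 (by simpa using hr0)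
        (by simpa using hr1)⟩
      simp only [List.length_cons]
      nlinarith

end SP

end Pool.Agent.MEternal
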