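import Pool.Agent.MEternal.FPRun

/-!
# Loop programs run in polynomial time
-/

namespace Pool.Agent.MEternal

open SP

variable {R : ℕ}

/-- Translation of loop programs. -/
def FProg.comp : FProg R → SP (Reg R)
  | .nop => .skip
  | .emit b => .push .O b
  | .seq p q => .seq p.comp q.comp
  | .ite b p q => b.comp p.comp q.comp
  | .loopUp i e p => .seq (.push .V false) (.seq e.comp (.seq (.push .B false)
      (.seq (.loop .V (.push .B true)) (.seq (.loop .B (.seq p.comp (.push (.x i) true)))
        (.loop (.x i) .skip)))))

/-- Bound for the running time. -/
noncomputable def FProg.tp : FProg R → Polynomial ℕ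
  | .nop => 0
  | .emit _ => 1
  | .seq p q => p.tp + q.tp
  | .ite b p q => b.tp + p.tp + q.tp
  | .loopUp _ e p => e.tp + 3 * e.vp + 5 + e.vp * (p.tp + 2)

/-- All loop variables are zero when their loop starts and all bounds are at most `m`. -/
def FProg.Safe (m : ℕ) : FProg R → (Fin R → ℕ) → Prop
  | .nop, _ => True
  | .emit _, _ => True
  | .seq p q, env => p.Safe m env ∧ q.Safe m env
  | .ite _ p q, env => p.Safe m env ∧ q.Safe m env
  | .loopUp i e p, env => env i = 0 ∧ e.val env ≤ m ∧
      ∀ v, v < e.val env → p.Safe m (Function.update env i v)

/-- Moving a counter from `V` to `B`. -/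
theorem move_VB (n : ℕ) (s : Sta R) (v : List Bool)
    (hv : s.v = List.replicate n true ++ false :: v) :
    RunLe (.loop .V (.push .B true)) s.toFun
      ({s with v := v, b := List.replicate n true ++ s.b} : Sta R).toFun (2 * n + 1) := by
  have h := RunLe.loop (k := (.V : Reg R)) (p := .push .B true) (T := 1) (rest := false :: v)
    (s' := ({s with v := v, b := List.replicate n true ++ s.b} : Sta R).toFun) n
    (fun i => ({s with v := List.replicate (n - i) true ++ false :: v,
                       b := List.replicate i true ++ s.b} : Sta R).toFun)
    (fun i _ => rfl) ?_ ?_
  · simp only [Nat.sub_zero, List.replicate_zero, List.nil_append] at h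
    rw [← hv] at h
    exact h.mono (by omega)
  · intro i hi
    rw [upd_V]
    have h1 := RunLe.push (.B : Reg R) true ({s with
      v := List.replicate (n - i - 1) true ++ false :: v,
      b := List.replicate i true ++ s.b} : Sta R).toFun
    rw [upd_B] at h1
    have e1 : n - i - 1 = n - (i + 1) := by omega
    rw [e1] at h1
    rw [e1]
    exact h1
  · simp only [Nat.sub_self, List.replicate_zero, List.nil_append]
    have h1 := RunLe.loop_false (k := (.V : Reg R)) (p := .push .B true)
      (s := ({s with v := false :: v, b := List.replicate n true ++ s.b} : Sta R).toFun) (l := v) rfl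
    rw [upd_V] at h1
    exact h1

/-- Clearing a loop variable. -/
theorem clear_x (i : Fin R) (s : Sta R) :
    RunLe (.loop (.x i) .skip) s.toFun
      ({s with env := Function.update s.env i 0} : Sta R).toFun (s.env i + 1) := by
  have h := RunLe.loop (k := (.x i : Reg R)) (p := .skip) (T := 0) (rest := [])
    (s' := ({s with env := Function.update s.env i 0} : Sta R).toFun) (s.env i)
    (fun j => ({s with env := Function.update s.env i (s.env i - j)} : Sta R).toFun)
    (fun j _ => by simp [Sta.toFun]) ?_ ?_
  · simp only [Nat.sub_zero, Function.update_eq_self] at h
    exact h.mono (by omega)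
  · intro j hj
    rw [List.append_nil, upd_x]
    simp only [Function.update_idem]
    have e1 : s.env i - j - 1 = s.env i - (j + 1) := by omega
    rw [e1]
    exact RunLe.skip _
  · rw [Nat.sub_self]
    exact RunLe.loop_nil (by simp [Sta.toFun])

theorem FProg.comp_run {m : ℕ} (p : FProg R) : ∀ (s : Sta R), s.c = [] → s.w' = [] →
    (∀ i, s.env i ≤ m) → s.w.length ≤ m → p.Safe m s.env →
    RunLe p.comp s.toFun ({s with o := (p.output s.w s.env).reverse ++ s.o} : Sta R).toFun
      (p.tp.eval m) := by
  induction p with
  | nop =>
    intro s _ _ _ _ _
    exact (RunLe.skip _).mono (Nat.zero_le _)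
  | emit b =>
    intro s _ _ _ _ _
    have h1 := RunLe.push (.O : Reg R) b s.toFun
    rw [upd_O] at h1
    simp only [FProg.tp, Polynomial.eval_one]
    exact h1
  | seq p q ihp ihq =>
    intro s hc hw' hm hw hs
    have h1 := ihp s hc hw' hm hw hs.1
    have h2 := ihq ({s with o := (p.output s.w s.env).reverse ++ s.o} : Sta R) hc hw' hm hw hs.2
    have h3 := RunLe.seq h1 h2
    simp only [FProg.tp, FProg.output, Polynomial.eval_add, List.reverse_append,
      List.append_assoc] at h3 ⊢
    exact h3
  | ite b p q ihp ihq =>
    intro s hc hw' hm hw hs
    have h1 := ihp s hc hw' hm hw hs.1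
    have h2 := ihq s hc hw' hm hw hs.2
    simp only [FProg.tp, Polynomial.eval_add, FProg.comp, FProg.output]
    rw [add_assoc]
    apply b.comp_run _ _ s _ _ hc hw' hm hw
    · intro hb
      rw [if_pos hb]
      exact h1.mono (by omega)
    · intro hb
      rw [if_neg (by simp [hb])]
      exact h2.mono (by omega)
  | loopUp i e p ih =>
    intro s hc hw' hm hw hs
    obtain ⟨hi, he, hs⟩ := hs
    have h1 := RunLe.push (.V : Reg R) false s.toFun
    rw [upd_V] at h1
    have h2 := e.comp_run ({s with v := false :: s.v} : Sta R) hc hm
    have h3 := RunLe.push (.B : Reg R) false
      ({s with v := List.replicate (e.val s.env) true ++ false :: s.v} : Sta R).toFun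
    rw [upd_B] at h3
    have h4 := move_VB (e.val s.env)
      ({s with v := List.replicate (e.val s.env) true ++ false :: s.v,
               b := false :: s.b} : Sta R) s.v rfl
    have h5 : RunLe (.loop .B (.seq p.comp (.push (.x i) true)) : SP (Reg R))
        ({s with b := List.replicate (e.val s.env) true ++ false :: s.b} : Sta R).toFun
        ({s with o := ((FProg.loopUp i e p).output s.w s.env).reverse ++ s.o,
                 env := Function.update s.env i (e.val s.env)} : Sta R).toFun
        (e.val s.env * (p.tp.eval m + 1 + 1) + 1) := by
      have h := RunLe.loop (k := (.B : Reg R)) (p := .seq p.comp (.push (.x i) true))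
        (T := p.tp.eval m + 1) (rest := false :: s.b)
        (s' := ({s with o := ((FProg.loopUp i e p).output s.w s.env).reverse ++ s.o,
                        env := Function.update s.env i (e.val s.env)} : Sta R).toFun)
        (e.val s.env)
        (fun j => ({s with b := List.replicate (e.val s.env - j) true ++ false :: s.b,
                           o := ((List.range j).flatMap fun v =>
                             p.output s.w (Function.update s.env i v)).reverse ++ s.o,
                           env := Function.update s.env i j} : Sta R).toFun)
        (fun j _ => by simp [Sta.toFun]) ?_ ?_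
      · simp only [Nat.sub_zero, List.range_zero, List.flatMap_nil, List.reverse_nil,
          List.nil_append] at h
        have e0 : Function.update s.env i 0 = s.env := by rw [← hi, Function.update_eq_self]
        rw [e0] at h
        exact h
      · intro j hj
        rw [upd_B]
        have e1 : e.val s.env - j - 1 = e.val s.env - (j + 1) := by omega
        rw [e1]
        have h6 := ih ({s with b := List.replicate (e.val s.env - (j + 1)) true ++ false :: s.b,
                               o := ((List.range j).flatMap fun v =>
                                 p.output s.w (Function.update s.env i v)).reverse ++ s.o,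
                               env := Function.update s.env i j} : Sta R) hc hw' (by
                                 intro k
                                 by_cases hk : k = i
                                 · subst hk
                                   simp only [Function.update_self]
                                   omega
                                 · simp only [Function.update_of_ne hk]
                                   exact hm k) hw (hs j hj)
        have h7 := RunLe.push (.x i : Reg R) true ({s with
          b := List.replicate (e.val s.env - (j + 1)) true ++ false :: s.b,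
          o := ((List.range (j + 1)).flatMap fun v =>
            p.output s.w (Function.update s.env i v)).reverse ++ s.o,
          env := Function.update s.env i j} : Sta R).toFun
        have e2 : (true :: ({s with
          b := List.replicate (e.val s.env - (j + 1)) true ++ false :: s.b,
          o := ((List.range (j + 1)).flatMap fun v =>
            p.output s.w (Function.update s.env i v)).reverse ++ s.o,
          env := Function.update s.env i j} : Sta R).toFun (.x i)) =
            List.replicate (j + 1) true := by simp [Sta.toFun, List.replicate_succ]
        rw [e2, upd_x] at h7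
        simp only [Function.update_idem] at h7
        refine RunLe.seq ?_ h7
        have e3 : ((List.range (j + 1)).flatMap fun v =>
            p.output s.w (Function.update s.env i v)).reverse ++ s.o =
            (p.output s.w (Function.update s.env i j)).reverse ++
              (((List.range j).flatMap fun v =>
                p.output s.w (Function.update s.env i v)).reverse ++ s.o) := by
          rw [List.range_succ, List.flatMap_append]
          simp
        rw [e3]
        exact h6
      · simp only [Nat.sub_self, List.replicate_zero, List.nil_append]
        have h7 := RunLe.loop_false (k := (.B : Reg R)) (p := .seq p.comp (.push (.x i) true))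
          (s := ({s with b := false :: s.b,
                         o := ((FProg.loopUp i e p).output s.w s.env).reverse ++ s.o,
                         env := Function.update s.env i (e.val s.env)} : Sta R).toFun)
          (l := s.b) rfl
        rw [upd_B] at h7
        exact h7
    have h8 := clear_x i ({s with o := ((FProg.loopUp i e p).output s.w s.env).reverse ++ s.o,
                                  env := Function.update s.env i (e.val s.env)} : Sta R)
    simp only [Function.update_idem, Function.update_self] at h8
    have e0 : Function.update s.env i 0 = s.env := by rw [← hi, Function.update_eq_self]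
    rw [e0] at h8
    have h6 := RunLe.seq h1 (RunLe.seq h2 (RunLe.seq h3 (RunLe.seq h4 (RunLe.seq h5 h8))))
    refine h6.mono ?_
    have hv := Expr.val_le hm e
    have : e.val s.env * (p.tp.eval m + 1 + 1) ≤ e.vp.eval m * (p.tp.eval m + 2) :=
      Nat.mul_le_mul hv (by omega)
    simp only [FProg.tp, Polynomial.eval_add, Polynomial.eval_mul, Polynomial.eval_ofNat]
    omega

/-- The whole program: count the input, run the loop program, clean up and put the output
in the right order. -/
def FProg.main (p : FProg (R + 1)) : SP (Reg (R + 1)) :=
  .seq (.each .inp (.seq (.push .inq false) (.push (.x 0) true))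
      (.seq (.push .inq true) (.push (.x 0) true)))
    (.seq (.each .inq (.push .inp false) (.push .inp true))
      (.seq p.comp
        (.seq (.each .inp .skip .skip)
          (.seq (.loop (.x 0) .skip) (.each .O (.push .out false) (.push .out true))))))

/-- Initial values of the variables: the first one is the length of the input. -/
def env0 (R : ℕ) (n : ℕ) : Fin (R + 1) → ℕ := fun i => if i = 0 then n else 0

theorem FProg.main_run (p : FProg (R + 1)) (w : List Bool) (m : ℕ) (hm : w.length ≤ m)
    (hs : p.Safe m (env0 R w.length)) :
    RunLe p.main (Function.update (fun _ => []) .inp w)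
      (Function.update (fun _ => []) .out (p.output w (env0 R w.length)))
      (p.tp.eval m + 8 * m + 8 + 2 * (p.output w (env0 R w.length)).length) := by
  have h1 : RunLe (.each .inp (.seq (.push .inq false) (.push (.x 0) true))
      (.seq (.push .inq true) (.push (.x 0) true)) : SP (Reg (R + 1)))
      (Function.update (fun _ => []) .inp w)
      (⟨[], w.reverse, [], [], [], [], [], [], env0 R w.length⟩ : Sta (R + 1)).toFun
      (w.length * (2 + 1) + 1) := by
    have h := RunLe.each (k := (.inp : Reg (R + 1)))
      (f := .seq (.push .inq false) (.push (.x 0) true))
      (t := .seq (.push .inq true) (.push (.x 0) true)) (T := 2) w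
      (fun i => (⟨w.drop i, (w.take i).reverse, [], [], [], [], [], [], env0 R i⟩ :
        Sta (R + 1)).toFun) (fun i _ => rfl) ?_
    · have e0 : (⟨w.drop 0, (w.take 0).reverse, [], [], [], [], [], [], env0 R 0⟩ :
        Sta (R + 1)).toFun = Function.update (fun _ => []) .inp w := by
        funext r
        rcases r with _ | _ | _ | _ | _ | _ | _ | _ | i <;>
          simp [Sta.toFun, Function.update, env0]
      simp only [e0, List.take_length, List.drop_length] at h
      exact h
    · intro i hi
      rw [upd_inp]
      have e3 : (w.take (i + 1)).reverse = w[i] :: (w.take i).reverse := by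
        rw [List.take_add_one, List.getElem?_eq_getElem hi]
        simp
      have e4 : env0 R (i + 1) = Function.update (env0 R i) 0 (i + 1) := by
        funext j
        by_cases hj : j = 0
        · subst hj; simp [env0]
        · simp [env0, hj]
      have e5 : ∀ b : Bool, RunLe (.seq (.push .inq b) (.push (.x 0) true) : SP (Reg (R + 1)))
          (⟨w.drop (i + 1), (w.take i).reverse, [], [], [], [], [], [], env0 R i⟩ :
            Sta (R + 1)).toFun
          (⟨w.drop (i + 1), b :: (w.take i).reverse, [], [], [], [], [], [], env0 R (i + 1)⟩ :
            Sta (R + 1)).toFun 2 := by
        intro b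
        have g1 := RunLe.push (.inq : Reg (R + 1)) b
          (⟨w.drop (i + 1), (w.take i).reverse, [], [], [], [], [], [], env0 R i⟩ :
            Sta (R + 1)).toFun
        rw [upd_inq] at g1
        have g2 := RunLe.push (.x 0 : Reg (R + 1)) true
          (⟨w.drop (i + 1), b :: (w.take i).reverse, [], [], [], [], [], [], env0 R i⟩ :
            Sta (R + 1)).toFun
        have e6 : (true :: (⟨w.drop (i + 1), b :: (w.take i).reverse, [], [], [], [], [], [],
            env0 R i⟩ : Sta (R + 1)).toFun (.x 0)) = List.replicate (i + 1) true := by
          simp [Sta.toFun, env0, List.replicate_succ]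
        rw [e6, upd_x] at g2
        simp only at g2
        rw [← e4] at g2
        exact RunLe.seq g1 g2
      rw [e3]
      rcases hb : w[i] with _ | _
      · simpa using e5 false
      · simpa using e5 true
  have h2 : RunLe (.each .inq (.push .inp false) (.push .inp true) : SP (Reg (R + 1)))
      (⟨[], w.reverse, [], [], [], [], [], [], env0 R w.length⟩ : Sta (R + 1)).toFun
      (⟨w, [], [], [], [], [], [], [], env0 R w.length⟩ : Sta (R + 1)).toFun
      (2 * w.length + 1) := by
    have h := restore_run (⟨w, w.reverse, [], [], [], [], [], [], env0 R w.length⟩ :
      Sta (R + 1)) w.length (by simp)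
    simp only [List.drop_length] at h
    exact h
  have h3 := p.comp_run (m := m)
    (⟨w, [], [], [], [], [], [], [], env0 R w.length⟩ : Sta (R + 1)) rfl rfl
    (by
      intro i
      simp only [env0]
      split_ifs
      · exact hm
      · omega) hm hs
  simp only [List.append_nil] at h3
  have h4 : RunLe (.each .inp .skip .skip : SP (Reg (R + 1)))
      (⟨w, [], [], [], [], [], (p.output w (env0 R w.length)).reverse, [],
        env0 R w.length⟩ : Sta (R + 1)).toFun
      (⟨[], [], [], [], [], [], (p.output w (env0 R w.length)).reverse, [],
        env0 R w.length⟩ : Sta (R + 1)).toFun (w.length * (0 + 1) + 1) := by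
    have h := RunLe.each (k := (.inp : Reg (R + 1))) (f := .skip) (t := .skip) (T := 0) w
      (fun i => (⟨w.drop i, [], [], [], [], [], (p.output w (env0 R w.length)).reverse, [],
        env0 R w.length⟩ : Sta (R + 1)).toFun) (fun i _ => rfl) ?_
    · simpa using h
    · intro i hi
      rw [upd_inp]
      simp only [ite_self]
      exact RunLe.skip _
  have h5 := clear_x 0 (⟨[], [], [], [], [], [], (p.output w (env0 R w.length)).reverse, [],
        env0 R w.length⟩ : Sta (R + 1))
  have h6 : RunLe (.each .O (.push .out false) (.push .out true) : SP (Reg (R + 1)))
      (⟨[], [], [], [], [], [], (p.output w (env0 R w.length)).reverse, [],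
        Function.update (env0 R w.length) 0 0⟩ : Sta (R + 1)).toFun
      (Function.update (fun _ => []) .out (p.output w (env0 R w.length)))
      ((p.output w (env0 R w.length)).length * (1 + 1) + 1) := by
    set l := p.output w (env0 R w.length) with hl
    have h := RunLe.each (k := (.O : Reg (R + 1))) (f := .push .out false)
      (t := .push .out true) (T := 1) l.reverse
      (fun i => (⟨[], [], [], [], [], [], l.reverse.drop i, (l.reverse.take i).reverse,
        Function.update (env0 R w.length) 0 0⟩ : Sta (R + 1)).toFun) (fun i _ => rfl) ?_
    · have e0 : (⟨[], [], [], [], [], [], [], l,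
        Function.update (env0 R w.length) 0 0⟩ : Sta (R + 1)).toFun =
          Function.update (fun _ => []) .out l := by
        funext r
        rcases r with _ | _ | _ | _ | _ | _ | _ | _ | i <;>
          simp [Sta.toFun, Function.update, env0]
        intro hi1 hi2
        exact absurd hi2 hi1
      simp only [List.drop_zero, List.take_zero, List.reverse_nil, List.take_length,
        List.drop_length, List.reverse_reverse, List.length_reverse] at h
      rw [List.drop_of_length_le (by simp), List.take_of_length_le (by simp),
        List.reverse_reverse, e0] at h
      exact h
    · intro i hi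
      rw [upd_O]
      have e3 : (l.reverse.take (i + 1)).reverse = l.reverse[i] :: (l.reverse.take i).reverse := by
        rw [List.take_add_one, List.getElem?_eq_getElem hi]
        simp
      rw [e3]
      rcases hb : l.reverse[i] with _ | _
      · simp only [Bool.false_eq_true, if_false]
        have g1 := RunLe.push (.out : Reg (R + 1)) false
          (⟨[], [], [], [], [], [], l.reverse.drop (i + 1), (l.reverse.take i).reverse,
            Function.update (env0 R w.length) 0 0⟩ : Sta (R + 1)).toFun
        rw [upd_out] at g1
        exact g1
      · simp only [if_true]
        have g1 := RunLe.push (.out : Reg (R + 1)) true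
          (⟨[], [], [], [], [], [], l.reverse.drop (i + 1), (l.reverse.take i).reverse,
            Function.update (env0 R w.length) 0 0⟩ : Sta (R + 1)).toFun
        rw [upd_out] at g1
        exact g1
  have h7 := RunLe.seq h1 (RunLe.seq h2 (RunLe.seq h3 (RunLe.seq h4 (RunLe.seq h5 h6))))
  refine h7.mono ?_
  have e1 : (⟨[], [], [], [], [], [], (p.output w (env0 R w.length)).reverse, [],
        env0 R w.length⟩ : Sta (R + 1)).env 0 = w.length := by simp [env0]
  rw [e1]
  omega

theorem FProg.output_le {m : ℕ} (w : List Bool) (p : FProg R) : ∀ env : Fin R → ℕ,
    (∀ i, env i ≤ m) → p.Safe m env → (p.output w env).length ≤ p.tp.eval m := by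
  induction p with
  | nop => intro env _ _; simp [FProg.output]
  | emit b => intro env _ _; simp [FProg.output, FProg.tp]
  | seq p q ihp ihq =>
    intro env hm hs
    simp only [FProg.output, FProg.tp, List.length_append, Polynomial.eval_add]
    exact add_le_add (ihp env hm hs.1) (ihq env hm hs.2)
  | ite b p q ihp ihq =>
    intro env hm hs
    simp only [FProg.output, FProg.tp, Polynomial.eval_add]
    have h1 := ihp env hm hs.1
    have h2 := ihq env hm hs.2
    split_ifs
    · omega
    · omega
  | loopUp i e p ih =>
    intro env hm hs
    obtain ⟨hi, he, hs⟩ := hs
    simp only [FProg.output, FProg.tp, Polynomial.eval_add, Polynomial.eval_mul,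
      List.length_flatMap]
    have h1 : ((List.range (e.val env)).map fun v =>
        (p.output w (Function.update env i v)).length).sum ≤
          ((List.range (e.val env)).map fun _ => p.tp.eval m).sum := by
      apply List.sum_le_sum
      intro v hv
      have hv' := List.mem_range.1 hv
      apply ih
      · intro k
        by_cases hk : k = i
        · subst hk
          simp only [Function.update_self]
          omega
        · simp only [Function.update_of_ne hk]
          exact hm k
      · exact hs v hv'
    simp only [List.map_const', List.length_range, List.sum_replicate, smul_eq_mul] at h1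
    have hv := Expr.val_le hm e
    have h2 : e.val env * p.tp.eval m ≤ e.vp.eval m * (p.tp.eval m + 2) :=
      Nat.mul_le_mul hv (by omega)
    simp only [Polynomial.eval_ofNat]
    omega

/-- The function computed by a loop program is computable in polynomial time. -/
theorem FProg.polyTime (p : FProg (R + 1)) (m : Polynomial ℕ)
    (h : ∀ n, n ≤ m.eval n ∧ p.Safe (m.eval n) (env0 R n)) :
    Nonempty (Turing.TM2ComputableInPolyTime (id : List Bool → List Bool)
      (id : List Bool → List Bool) (fun w => p.output w (env0 R w.length))) := by
  apply SP.toPolyTime p.main .inp .out _ ((3 * p.tp + 8 * Polynomial.X + 8).comp m)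
  intro w
  obtain ⟨h1, h2⟩ := h w.length
  obtain ⟨t, ht, hr⟩ := FProg.main_run p w (m.eval w.length) h1 h2
  refine ⟨t, ht.trans ?_, hr⟩
  have h3 : ∀ i, env0 R w.length i ≤ m.eval w.length := by
    intro i
    simp only [env0]
    split_ifs
    · exact h1
    · omega
  have h4 := FProg.output_le w p _ h3 h2
  simp only [Polynomial.eval_comp, Polynomial.eval_add, Polynomial.eval_mul,
    Polynomial.eval_ofNat, Polynomial.eval_X]
  omega

end Pool.Agent.MEternal
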