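import Pool.Agent.MEternal.Bound

/-!
# M-ETERNAL DOMINATION is hard for exponential time
-/

namespace Pool.Agent.MEternal

open Turing Codes CAGame

/-- The vertices whose number is the number of guards. -/
def IsPV {C : Type} {P D : ℕ} : V C P D → Prop
  | .pA => True
  | .p _ => True
  | .sp _ => True
  | _ => False

open Classical in
theorem card_isPV (C : Type) [Fintype C] (P D : ℕ) :
    Fintype.card {x : V C P D // IsPV x} = Fintype.card (Option (Fin 3 × GV P)) +
      Fintype.card (LW (GW C P D) (Fin 3)) + 1 := by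
  have e : {x : V C P D // IsPV x} ≃
      Option (Option (Fin 3 × GV P) ⊕ LW (GW C P D) (Fin 3)) :=
    { toFun := fun x => match x with
        | ⟨.pA, _⟩ => none
        | ⟨.p i, _⟩ => some (.inl i)
        | ⟨.sp x, _⟩ => some (.inr x)
      invFun := fun y => match y with
        | none => ⟨.pA, trivial⟩
        | some (.inl i) => ⟨.p i, trivial⟩
        | some (.inr x) => ⟨.sp x, trivial⟩
      left_inv := by
        rintro ⟨x, hx⟩
        rcases x with _ | a | q | x | i | i | x | x | x | x | x <;>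
          first
            | rfl
            | exact hx.elim
      right_inv := by
        rintro (_ | i | x) <;> rfl }
  rw [Fintype.card_congr e, Fintype.card_option, Fintype.card_sum]

/-- Every language in EXPTIME is reducible to M-ETERNAL DOMINATION in polynomial time. -/
theorem med_hard (L : Set (List Bool)) (hL : L ∈ EXPTIME) :
    ∃ f : List Bool → List Bool,
      Nonempty (TM2ComputableInPolyTime (id : List Bool → List Bool)
        (id : List Bool → List Bool) f) ∧ ∀ w, w ∈ L ↔ f w ∈ MED := by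
  classical
  obtain ⟨Γ, Λ, iΓ, iΛ, fΓ, fΛ, M, enc, acc, p, hM⟩ := hL
  let _ : Fintype Γ := Fintype.ofFinite Γ
  let _ : Fintype Λ := Fintype.ofFinite Λ
  -- numbering of the symbols
  let C := Γ × Option Λ
  set c := Fintype.card C with hc
  let eC : C ≃ Fin c := Fintype.equivFin C
  let e : C → ℕ := fun x => (eC x : ℕ)
  have he : Function.Injective e := fun x y h => eC.injective (Fin.ext h)
  have he1 : ∀ x, e x < c := fun x => (eC x).2
  have he2 : ∀ i < c, ∃ x, e x = i := fun i hi => ⟨eC.symm ⟨i, hi⟩, by simp [e]⟩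
  -- parameters
  let P : ℕ → ℕ := fun n => p.eval n + 2
  let D : ℕ → ℕ := fun n => n + 3
  have hP : ∀ n, 0 < P n := fun n => Nat.succ_pos _
  have hD : ∀ n, 0 < D n := fun n => Nat.succ_pos _
  have hPe : IsExpr fun env : Fin 17 → ℕ => P (env 0) :=
    (IsExpr.eval (IsExpr.var 0) p).add (IsExpr.const 2)
  have hDe : IsExpr fun env : Fin 17 → ℕ => D (env 0) := (IsExpr.var 0).add (IsExpr.const 3)
  let B : ℕ → ℕ := fun n => P n + D n + c + 12
  have hBe : IsExpr fun env : Fin 17 → ℕ => B (env 0) :=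
    ((hPe.add hDe).add (IsExpr.const c)).add (IsExpr.const 12)
  let m : Polynomial ℕ := p + 2 + (Polynomial.X + 3) + (c : Polynomial ℕ) + 12
  have hm : ∀ n, n ≤ m.eval n ∧ B n ≤ m.eval n := by
    intro n
    simp only [m, B, P, D, Polynomial.eval_add, Polynomial.eval_X, Polynomial.eval_ofNat,
      Polynomial.eval_natCast]
    constructor
    · omega
    · exact le_rfl
  let F := TMRow.caF M
  let ac : C → Prop := TMRow.caAcc M (fun q => q ∈ acc)
  let cb : ℕ := oc e (some (default, none))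
  let valid : ℕ → List ℕ → Prop := fun n l => vV (P n) (D n) c (fromL l)
  let isP : ℕ → List ℕ → Prop := fun _ l =>
    (fromL l).1 = 0 ∨ (fromL l).1 = 4 ∨ (fromL l).1 = 7
  let adj : ℕ → List Bool → List ℕ → List ℕ → Prop := fun n w l l' =>
    ¬ ((fromL l).1 = (fromL l').1 ∧ eqN (fromL l).2 (fromL l').2) ∧
      (relN (D n) (curN F ac e) (nxtN (P n) (D n) cb (rowN e enc n w)) (fromL l) (fromL l') ∨
      relN (D n) (curN F ac e) (nxtN (P n) (D n) cb (rowN e enc n w)) (fromL l') (fromL l))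
  have t1 : IsTest fun (_ : List Bool) (env : Fin 17 → ℕ) =>
      valid (env 0) [env 1, env 2, env 3, env 4, env 5, env 6, env 7, env 8] :=
    isTest_vV hPe hDe c (IsExpr.var 1) (IsExpr.var 2) (IsExpr.var 3) (IsExpr.var 4)
      (IsExpr.var 5) (IsExpr.var 6) (IsExpr.var 7) (IsExpr.var 8)
  have t2 : IsTest fun (_ : List Bool) (env : Fin 17 → ℕ) =>
      valid (env 0) [env 9, env 10, env 11, env 12, env 13, env 14, env 15, env 16] :=
    isTest_vV hPe hDe c (IsExpr.var 9) (IsExpr.var 10) (IsExpr.var 11) (IsExpr.var 12)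
      (IsExpr.var 13) (IsExpr.var 14) (IsExpr.var 15) (IsExpr.var 16)
  have t3 : IsTest fun (_ : List Bool) (env : Fin 17 → ℕ) =>
      isP (env 0) [env 1, env 2, env 3, env 4, env 5, env 6, env 7, env 8] :=
    (IsTest.eq (IsExpr.var 1) (IsExpr.const 0)).or ((IsTest.eq (IsExpr.var 1)
      (IsExpr.const 4)).or (IsTest.eq (IsExpr.var 1) (IsExpr.const 7)))
  have hrow : ∀ a k d : (Fin 17 → ℕ) → ℕ, IsExpr a → IsExpr k → IsExpr d →
      IsTest fun w env => rowN e enc (env 0) w (a env) (k env) (d env) :=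
    fun a k d ha hk hd => isTest_rowN e enc (IsExpr.var 0) ha hk hd
  have t4 : IsTest fun (w : List Bool) (env : Fin 17 → ℕ) =>
      adj (env 0) w [env 1, env 2, env 3, env 4, env 5, env 6, env 7, env 8]
        [env 9, env 10, env 11, env 12, env 13, env 14, env 15, env 16] := by
    refine IsTest.and (IsTest.not (IsTest.and (IsTest.eq (IsExpr.var 1) (IsExpr.var 9)) ?_))
      (IsTest.or ?_ ?_)
    · exact (IsTest.eq (IsExpr.var 2) (IsExpr.var 10)).and
        ((IsTest.eq (IsExpr.var 3) (IsExpr.var 11)).and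
        ((IsTest.eq (IsExpr.var 4) (IsExpr.var 12)).and
        ((IsTest.eq (IsExpr.var 5) (IsExpr.var 13)).and
        ((IsTest.eq (IsExpr.var 6) (IsExpr.var 14)).and
        ((IsTest.eq (IsExpr.var 7) (IsExpr.var 15)).and
        (IsTest.eq (IsExpr.var 8) (IsExpr.var 16)))))))
    · exact isTest_relN F ac e cb hPe hDe (fun w env => rowN e enc (env 0) w) hrow
        (IsExpr.var 1) (IsExpr.var 2) (IsExpr.var 3) (IsExpr.var 4)
        (IsExpr.var 5) (IsExpr.var 6) (IsExpr.var 7) (IsExpr.var 8)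
        (IsExpr.var 9) (IsExpr.var 10) (IsExpr.var 11) (IsExpr.var 12)
        (IsExpr.var 13) (IsExpr.var 14) (IsExpr.var 15) (IsExpr.var 16)
    · exact isTest_relN F ac e cb hPe hDe (fun w env => rowN e enc (env 0) w) hrow
        (IsExpr.var 9) (IsExpr.var 10) (IsExpr.var 11) (IsExpr.var 12)
        (IsExpr.var 13) (IsExpr.var 14) (IsExpr.var 15) (IsExpr.var 16)
        (IsExpr.var 1) (IsExpr.var 2) (IsExpr.var 3) (IsExpr.var 4)
        (IsExpr.var 5) (IsExpr.var 6) (IsExpr.var 7) (IsExpr.var 8)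
  refine ⟨_, graphProg_polyTime B hBe m hm valid isP adj t1 t2 t3 t4, ?_⟩
  intro w
  obtain ⟨cf, ⟨hev⟩, hh, hw⟩ := hM w
  set n := w.length with hn
  -- the game
  let G := TMRow.tmGame M (fun q => q ∈ acc) (w.map enc) (P n) (D n) (hP n) (hD n)
  have hG : ∀ j, G.var (G.init j) = j := by
    intro j
    rcases j <;> rfl
  have hwin : G.DefenderWins ↔ cf.q ∈ acc := by
    refine TMRow.tmGame_iff M (fun q => q ∈ acc) (w.map enc) (P n) (D n) (hP n) (hD n) ?_
      (t := hev.steps) ?_ hev.evals_in_steps hh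
    · simp [D, hn]
    · refine hev.steps_le_m.trans ?_
      have h1 : (2 : ℕ) ^ p.eval n ≤ 3 ^ p.eval n := Nat.pow_le_pow_left (by omega) _
      have h2 : (3 : ℕ) ^ (p.eval n + 2) ≤ (n + 3) ^ (p.eval n + 2) :=
        Nat.pow_le_pow_left (by omega) _
      have h3 : 1 ≤ (3 : ℕ) ^ p.eval n := Nat.one_le_pow _ _ (by omega)
      have h4 : (3 : ℕ) ^ (p.eval n + 2) = 9 * 3 ^ p.eval n := by ring
      show 2 ^ p.eval n ≤ (n + 3) ^ (p.eval n + 2) - 2
      omega
  have hnum := SafetyGame.number_le_iff_defenderWins G hG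
  -- the output
  obtain ⟨N, H, ⟨iso⟩, hout⟩ := encode_of_codes G.lock.graph
    (fun x => toL (cV e x)) (fun x y h => cV_inj he (toL_inj h)) (B n) (valid n) (isP n)
    (adj n w) (fun l hl hv => by
      obtain ⟨x, hx⟩ := (vV_iff he1 he2 _).1 hv
      refine ⟨x, ?_⟩
      rw [hx, toL_fromL (mem_box.1 hl).1])
    (fun x => (vV_iff he1 he2 _).2 ⟨x, rfl⟩)
    (fun x => mem_box.2 ⟨rfl, vV_lt ((vV_iff he1 he2 _).2 ⟨x, rfl⟩)⟩)
    IsPV (fun x => by
      rcases x <;> simp [isP, cV, IsPV])
    (fun x y => cV_adj_iff F ac (default, none) (TMRow.cont (TMRow.run M (w.map enc) 0))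
      (hP n) (hD n) he rfl (rowN e enc n w)
      (fun a k d => rowN_iff he M enc w a k d) x y) rfl
  refine Iff.trans ?_ (iff_of_eq (congrArg (fun z => z ∈ MED) hout)).symm
  rw [encodeInstance_mem, number_iso iso, hw, ← hwin, ← hnum]
  have hcard := card_isPV (Γ × Option Λ) (P n) (D n)
  convert Iff.rfl using 2

end Pool.Agent.MEternal
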