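import Pool.Agent.MEternal.Defs

/-!
# Lock games and their graphs
-/

namespace Pool.Agent.MEternal

/-- A lock game: variables `I`, values `W` (each value belongs to one variable), a relation saying
which values of a variable can be exchanged directly, attacks `A`, and clauses `Q`, each belonging
to one attack, given by the values satisfying them. -/
structure LockGame (I W A Q : Type*) where
  var : W → I
  near : W → W → Prop
  att : Q → A
  lit : Q → W → Prop

/-- Vertices of the graph of a lock game. -/
inductive Vtx (I W A Q : Type*)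
  | pA : Vtx I W A Q
  | att (a : A) : Vtx I W A Q
  | cl (q : Q) : Vtx I W A Q
  | qz (x : W) : Vtx I W A Q
  | p (i : I) : Vtx I W A Q
  | h (i : I) : Vtx I W A Q
  | val (x : W) : Vtx I W A Q
  | sp (x : W) : Vtx I W A Q
  | sh (x : W) : Vtx I W A Q
  | sz (x : W) : Vtx I W A Q
  | sw (x : W) : Vtx I W A Q
  deriving DecidableEq, Fintype

namespace LockGame

variable {I W A Q : Type*}

/-- Base relation of the graph of a lock game (to be symmetrised). -/
def rel (L : LockGame I W A Q) : Vtx I W A Q → Vtx I W A Q → Prop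
  | .pA, .att _ => True
  | .pA, .cl _ => True
  | .pA, .qz _ => True
  | .att _, .att _ => True
  | .cl _, .cl _ => True
  | .cl _, .qz _ => True
  | .qz _, .qz _ => True
  | .att a, .cl q => L.att q ≠ a
  | .p i, .h j => i = j
  | .p i, .val x => L.var x = i
  | .h i, .val x => L.var x = i
  | .h _, .att _ => True
  | .val x, .val y => L.var x = L.var y ∧ L.near x y
  | .sp x, .sh y => x = y
  | .sp x, .sz y => x = y
  | .sp x, .sw y => x = y
  | .sh x, .sz y => x = y
  | .sh x, .sw y => x = y
  | .sz x, .sw y => x = y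
  | .sh _, .att _ => True
  | .sz x, .val y => x = y
  | .sh x, .val y => x = y
  | .sw x, .val y => x ≠ y ∧ L.var x = L.var y
  | .qz x, .sz y => x = y
  | .cl q, .val x => L.lit q x
  | _, _ => False

/-- The graph of a lock game. -/
def graph (L : LockGame I W A Q) : SimpleGraph (Vtx I W A Q) := SimpleGraph.fromRel L.rel

/-- The cell of a vertex. -/
def cellOf (L : LockGame I W A Q) : Vtx I W A Q → Option (I ⊕ W)
  | .pA => none
  | .att _ => none
  | .cl _ => none
  | .qz _ => none
  | .p i => some (.inl i)
  | .h i => some (.inl i)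
  | .val x => some (.inl (L.var x))
  | .sp x => some (.inr x)
  | .sh x => some (.inr x)
  | .sz x => some (.inr x)
  | .sw x => some (.inr x)

/-- A step of a lock game: from the partial assignment `s` to `s'`: no variable goes directly
from a value to another one unless these are near, and all clauses of the attack hold. -/
def Step (L : LockGame I W A Q) (a : A) (s s' : I → Option W) : Prop :=
  (∀ i x y, s i = some x → s' i = some y → x = y ∨ L.near x y ∨ L.near y x) ∧
    ∀ q, L.att q = a → ∃ x, L.lit q x ∧ s' (L.var x) = some x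

/-- A set of partial assignments closed under attacks. -/
def Closed (L : LockGame I W A Q) (S : Set (I → Option W)) : Prop :=
  (∀ s ∈ S, ∀ i x, s i = some x → L.var x = i) ∧
    ∀ s ∈ S, ∀ a, ∃ s' ∈ S, L.Step a s s'

theorem adj_iff (L : LockGame I W A Q) (u v : Vtx I W A Q) :
    L.graph.Adj u v ↔ u ≠ v ∧ (L.rel u v ∨ L.rel v u) := by
  simp [graph]

section soundness

theorem Traversable.refl {V : Type*} (G : SimpleGraph V) (C : Finset V) : Traversable G C C :=
  ⟨Equiv.refl _, fun _ => Or.inl rfl⟩

variable {L : LockGame I W A Q} {k : ℕ} {𝒞 : Set (Finset (Vtx I W A Q))}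

theorem resp (h𝒞 : IsStrategy L.graph k 𝒞) {C : Finset (Vtx I W A Q)} (hC : C ∈ 𝒞)
    (v : Vtx I W A Q) : ∃ C' ∈ 𝒞, v ∈ C' ∧ Traversable L.graph C C' := by
  obtain ⟨C', hC', hv, h⟩ := h𝒞.2.2 C hC v
  refine ⟨C', hC', hv, ?_⟩
  rcases h with rfl | h
  · exact Traversable.refl _ _
  · exact h

theorem dom (h𝒞 : IsStrategy L.graph k 𝒞) {C : Finset (Vtx I W A Q)} (hC : C ∈ 𝒞)
    (v : Vtx I W A Q) : ∃ u ∈ C, v = u ∨ L.graph.Adj u v := by
  obtain ⟨C', hC', hv, f, hf⟩ := resp h𝒞 hC v
  refine ⟨f.symm ⟨v, hv⟩, (f.symm ⟨v, hv⟩).2, ?_⟩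
  have := hf (f.symm ⟨v, hv⟩)
  simpa using this

theorem exists_cell (h𝒞 : IsStrategy L.graph k 𝒞) {C : Finset (Vtx I W A Q)} (hC : C ∈ 𝒞)
    (c : Option (I ⊕ W)) : ∃ u ∈ C, L.cellOf u = c := by
  rcases c with _ | i | x
  · obtain ⟨u, hu, h⟩ := dom h𝒞 hC .pA
    refine ⟨u, hu, ?_⟩
    rcases u <;> simp_all [adj_iff, rel, cellOf]
  · obtain ⟨u, hu, h⟩ := dom h𝒞 hC (.p i)
    refine ⟨u, hu, ?_⟩
    rcases u <;> simp_all [adj_iff, rel, cellOf]
  · obtain ⟨u, hu, h⟩ := dom h𝒞 hC (.sp x)
    refine ⟨u, hu, ?_⟩
    rcases u <;> simp_all [adj_iff, rel, cellOf]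

theorem cell_inj [Fintype I] [Fintype W] (h𝒞 : IsStrategy L.graph k 𝒞)
    (hk : k ≤ Fintype.card I + Fintype.card W + 1) {C : Finset (Vtx I W A Q)} (hC : C ∈ 𝒞)
    {u v : Vtx I W A Q} (hu : u ∈ C) (hv : v ∈ C) (huv : L.cellOf u = L.cellOf v) : u = v := by
  classical
  have hcard : C.card ≤ (Finset.univ : Finset (Option (I ⊕ W))).card := by
    rw [h𝒞.2.1 C hC]
    simpa using hk
  refine Finset.inj_on_of_surj_on_of_card_le (s := C) (t := Finset.univ)
    (fun a _ => L.cellOf a) (fun _ _ => Finset.mem_univ _) ?_ hcard hu hv huv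
  intro c _
  obtain ⟨u, hu, h⟩ := exists_cell h𝒞 hC c
  exact ⟨u, hu, h⟩

/-- After an attack on `att a`, all support guards are in place and all clauses of `a` hold. -/
theorem att_mem [Fintype I] [Fintype W] (h𝒞 : IsStrategy L.graph k 𝒞)
    (hk : k ≤ Fintype.card I + Fintype.card W + 1) {C : Finset (Vtx I W A Q)} (hC : C ∈ 𝒞)
    {a : A} (ha : Vtx.att a ∈ C) :
    (∀ x, Vtx.sz x ∈ C) ∧ ∀ q, L.att q = a → ∃ x, L.lit q x ∧ Vtx.val x ∈ C := by
  constructor
  · intro x
    obtain ⟨u, hu, h⟩ := dom h𝒞 hC (.qz x)
    by_cases hc : L.cellOf u = none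
    · have : u = .att a := cell_inj h𝒞 hk hC hu ha (by rw [hc]; rfl)
      subst this
      simp [adj_iff, rel] at h
    · rcases u <;> simp_all [adj_iff, rel, cellOf]
  · intro q hq
    obtain ⟨u, hu, h⟩ := dom h𝒞 hC (.cl q)
    by_cases hc : L.cellOf u = none
    · have : u = .att a := cell_inj h𝒞 hk hC hu ha (by rw [hc]; rfl)
      subst this
      simp [adj_iff, rel, hq] at h
    · rcases u with _ | _ | _ | _ | _ | _ | x | _ | _ | _ | _ <;>
        simp_all [adj_iff, rel, cellOf]
      exact ⟨x, h, hu⟩

/-- Locking: between two configurations with a guard on an attack vertex, a variable can only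
change its value to a near one. -/
theorem lock [Fintype I] [Fintype W] (h𝒞 : IsStrategy L.graph k 𝒞)
    (hk : k ≤ Fintype.card I + Fintype.card W + 1) {C C' : Finset (Vtx I W A Q)} (hC : C ∈ 𝒞)
    (hC' : C' ∈ 𝒞) {a a' : A} (ha : Vtx.att a ∈ C) (ha' : Vtx.att a' ∈ C')
    (ht : Traversable L.graph C C') {x y : W} (hx : Vtx.val x ∈ C) (hy : Vtx.val y ∈ C')
    (hxy : L.var x = L.var y) : x = y ∨ L.near x y ∨ L.near y x := by
  obtain ⟨f, hf⟩ := ht
  have hsz := (att_mem h𝒞 hk hC ha).1
  have hsz' := (att_mem h𝒞 hk hC' ha').1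
  -- the guard arriving at `val y`
  obtain ⟨⟨u, hu⟩, hfu⟩ := f.surjective ⟨.val y, hy⟩
  have h1 := hf ⟨u, hu⟩
  rw [hfu] at h1
  simp only at h1
  by_contra hcon
  push Not at hcon
  obtain ⟨hne, hn1, hn2⟩ := hcon
  have hvaly : Vtx.val y ∉ C := by
    intro h
    have := cell_inj h𝒞 hk hC hx h (by simp [cellOf, hxy])
    exact hne (by simpa using this)
  rcases h1 with h1 | h1
  · exact hvaly (h1 ▸ hu)
  · -- the guard arriving at `sz y`
    obtain ⟨⟨u', hu'⟩, hfu'⟩ := f.surjective ⟨.sz y, hsz' y⟩
    have h2 := hf ⟨u', hu'⟩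
    rw [hfu'] at h2
    simp only at h2
    have hA : ∀ v ∈ C, L.cellOf v = none → v = .att a := fun v hv hc =>
      cell_inj h𝒞 hk hC hv ha (by rw [hc]; rfl)
    have hI : ∀ v ∈ C, L.cellOf v = some (.inl (L.var y)) → v = .val x := fun v hv hc =>
      cell_inj h𝒞 hk hC hv hx (by rw [hc]; simp [cellOf, hxy])
    have hS : ∀ v ∈ C, ∀ z, L.cellOf v = some (.inr z) → v = .sz z := fun v hv z hc =>
      cell_inj h𝒞 hk hC hv (hsz z) (by rw [hc]; simp [cellOf])
    have key : u = .sz y := by
      rcases u with _ | _ | q | z | i | i | z | z | z | z | z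
      · simp [adj_iff, rel] at h1
      · simp [adj_iff, rel] at h1
      · simpa using hA _ hu rfl
      · simp [adj_iff, rel] at h1
      · have := hI _ hu (by simp [adj_iff, rel] at h1; simp [cellOf, h1])
        simp at this
      · have := hI _ hu (by simp [adj_iff, rel] at h1; simp [cellOf, h1])
        simp at this
      · have h3 : L.var z = L.var y := by
          simp [adj_iff, rel] at h1
          rcases h1.2 with h | h
          · exact h.1
          · exact h.1.symm
        have := hI _ hu (by simp [cellOf, h3])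
        simp at this
        subst this
        simp [adj_iff, rel] at h1
        rcases h1.2 with h | h
        · exact absurd h.2 hn1
        · exact absurd h.2 hn2
      · simp [adj_iff, rel] at h1
      · have := hS _ hu z rfl
        simp at this
      · simp [adj_iff, rel] at h1
        rw [h1]
      · have := hS _ hu z rfl
        simp at this
    have hne' : u' ≠ u := by
      rintro rfl
      have : (⟨.val y, hy⟩ : C') = ⟨.sz y, hsz' y⟩ := by rw [← hfu, ← hfu']
      simp at this
    have hS' : ∀ v ∈ C, L.cellOf v = some (.inr y) → v = u := fun v hv hc => by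
      rw [key]; exact hS v hv y hc
    rcases u' with _ | _ | q | z | i | i | z | z | z | z | z
    all_goals first
      | (simp [adj_iff, rel] at h2; done)
      | skip
    · have := hA _ hu' rfl
      simp at this
    · simp [adj_iff, rel] at h2
      subst h2
      exact hvaly hu'
    · simp [adj_iff, rel] at h2
      exact hne' (hS' _ hu' (by simp [cellOf, h2]))
    · simp [adj_iff, rel] at h2
      exact hne' (hS' _ hu' (by simp [cellOf, h2]))
    · simp [adj_iff, rel] at h2
      exact hne' (hS' _ hu' (by simp [cellOf, h2]))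
    · simp [adj_iff, rel] at h2
      exact hne' (hS' _ hu' (by simp [cellOf, h2]))

open Classical in
/-- The partial assignment of a configuration. -/
noncomputable def asg (L : LockGame I W A Q) (C : Finset (Vtx I W A Q)) : I → Option W :=
  fun i => if h : ∃ x, L.var x = i ∧ Vtx.val x ∈ C then some h.choose else none

theorem asg_eq_some [Fintype I] [Fintype W] (h𝒞 : IsStrategy L.graph k 𝒞)
    (hk : k ≤ Fintype.card I + Fintype.card W + 1) {C : Finset (Vtx I W A Q)} (hC : C ∈ 𝒞)
    {i : I} {x : W} : asg L C i = some x ↔ L.var x = i ∧ Vtx.val x ∈ C := by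
  unfold asg
  split_ifs with h
  · obtain ⟨h1, h2⟩ := h.choose_spec
    rw [Option.some.injEq]
    constructor
    · rintro rfl; exact ⟨h1, h2⟩
    · rintro ⟨h3, h4⟩
      have := cell_inj h𝒞 hk hC h2 h4 (by simp [cellOf, h1, h3])
      simpa using this
  · simp only [false_iff]
    exact fun h' => h ⟨x, h'⟩

/-- Soundness: a strategy of order at most the number of cells gives a closed set of partial
assignments. -/
theorem soundness [Fintype I] [Fintype W] [Nonempty A] (h𝒞 : IsStrategy L.graph k 𝒞)
    (hk : k ≤ Fintype.card I + Fintype.card W + 1) :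
    ∃ S : Set (I → Option W), S.Nonempty ∧ L.Closed S := by
  refine ⟨{s | ∃ C ∈ 𝒞, (∃ a, Vtx.att a ∈ C) ∧ s = asg L C}, ?_, ?_, ?_⟩
  · obtain ⟨C, hC⟩ := h𝒞.1
    obtain ⟨C', hC', ha, _⟩ := resp h𝒞 hC (.att (Classical.arbitrary A))
    exact ⟨asg L C', C', hC', ⟨_, ha⟩, rfl⟩
  · rintro s ⟨C, hC, -, rfl⟩ i x hx
    exact ((asg_eq_some h𝒞 hk hC).1 hx).1
  · rintro s ⟨C, hC, ⟨a, ha⟩, rfl⟩ a'
    obtain ⟨C', hC', ha', ht⟩ := resp h𝒞 hC (.att a')
    refine ⟨asg L C', ⟨C', hC', ⟨_, ha'⟩, rfl⟩, ?_, ?_⟩
    · intro i x y hx hy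
      obtain ⟨hx1, hx2⟩ := (asg_eq_some h𝒞 hk hC).1 hx
      obtain ⟨hy1, hy2⟩ := (asg_eq_some h𝒞 hk hC').1 hy
      exact lock h𝒞 hk hC hC' ha ha' ht hx2 hy2 (hx1.trans hy1.symm)
    · intro q hq
      obtain ⟨x, hx, hx'⟩ := (att_mem h𝒞 hk hC' ha').2 q hq
      exact ⟨x, hx, (asg_eq_some h𝒞 hk hC').2 ⟨rfl, hx'⟩⟩

end soundness

section completeness

variable {L : LockGame I W A Q} [DecidableEq I] [DecidableEq W] [DecidableEq A] [DecidableEq Q]
  [Fintype I] [Fintype W]

/-- Two vertices are equal or adjacent. -/
def Near (L : LockGame I W A Q) (u v : Vtx I W A Q) : Prop := v = u ∨ L.graph.Adj u v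

/-- The configuration given by a choice of a vertex in each cell. -/
def conf (s : Option (I ⊕ W) → Vtx I W A Q) : Finset (Vtx I W A Q) := Finset.univ.image s

theorem conf_card {s : Option (I ⊕ W) → Vtx I W A Q} (hs : ∀ c, L.cellOf (s c) = c) :
    (conf s).card = Fintype.card I + Fintype.card W + 1 := by
  have : Function.Injective s := fun a b hab => by rw [← hs a, ← hs b, hab]
  simp [conf, Finset.card_image_of_injective _ this]

theorem traversable_conf {s s' : Option (I ⊕ W) → Vtx I W A Q} (hs : ∀ c, L.cellOf (s c) = c)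
    (hs' : ∀ c, L.cellOf (s' c) = c) (π : Equiv.Perm (Option (I ⊕ W)))
    (h : ∀ c, L.Near (s c) (s' (π c))) : Traversable L.graph (conf s) (conf s') := by
  have hm : ∀ c, s c ∈ conf s := fun c => by simp [conf]
  have hm' : ∀ c, s' c ∈ conf s' := fun c => by simp [conf]
  let e : Option (I ⊕ W) ≃ (conf s) := Equiv.ofBijective (fun c => ⟨s c, hm c⟩) ⟨by
      intro a b hab
      simp only [Subtype.mk.injEq] at hab
      rw [← hs a, ← hs b, hab], by
      rintro ⟨v, hv⟩
      obtain ⟨c, -, rfl⟩ := Finset.mem_image.1 hv
      exact ⟨c, rfl⟩⟩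
  let e' : Option (I ⊕ W) ≃ (conf s') := Equiv.ofBijective (fun c => ⟨s' c, hm' c⟩) ⟨by
      intro a b hab
      simp only [Subtype.mk.injEq] at hab
      rw [← hs' a, ← hs' b, hab], by
      rintro ⟨v, hv⟩
      obtain ⟨c, -, rfl⟩ := Finset.mem_image.1 hv
      exact ⟨c, rfl⟩⟩
  refine ⟨(e.symm.trans π).trans e', ?_⟩
  intro u
  obtain ⟨c, rfl⟩ := e.surjective u
  have h1 : ((e.symm.trans π).trans e') (e c) = e' (π c) := by
    simp only [Equiv.trans_apply, Equiv.symm_apply_apply]
  rw [h1]
  exact h c

/-- The configuration answering an attack on `att a`. -/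
def secK (a : A) (s : I → Option W) : Option (I ⊕ W) → Vtx I W A Q
  | none => .att a
  | some (.inl i) => match s i with
    | none => .h i
    | some x => .val x
  | some (.inr x) => .sz x

/-- The configuration answering an attack on a vertex that is no attack vertex. -/
def secF (L : LockGame I W A Q) (v : Vtx I W A Q) : Option (I ⊕ W) → Vtx I W A Q
  | none => match v with
    | .cl q => .cl q
    | .qz x => .qz x
    | _ => .pA
  | some (.inl i) => match v with
    | .p j => if j = i then .p i else .h i
    | .val x => if L.var x = i then .val x else .h i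
    | _ => .h i
  | some (.inr x) => match v with
    | .sp y => if y = x then .sp x else .sh x
    | .sz y => if y = x then .sz x else .sh x
    | .sw y => if y = x then .sw x else .sh x
    | .val y => if y = x then .sw x else .sh x
    | _ => .sh x

omit [DecidableEq I] [DecidableEq W] [DecidableEq A] [DecidableEq Q] [Fintype I] [Fintype W] in
theorem cellOf_secK {a : A} {s : I → Option W} (hs : ∀ i x, s i = some x → L.var x = i)
    (c : Option (I ⊕ W)) : L.cellOf (secK a s c) = c := by
  rcases c with _ | i | x
  · rfl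
  · simp only [secK]
    rcases h : s i with _ | x
    · rfl
    · simp [cellOf, hs i x h]
  · rfl

omit [DecidableEq A] [DecidableEq Q] [Fintype I] [Fintype W] in
theorem cellOf_secF (v : Vtx I W A Q) (c : Option (I ⊕ W)) : L.cellOf (L.secF v c) = c := by
  rcases c with _ | i | x
  · rcases v <;> rfl
  · rcases v <;> simp [secF, cellOf] <;> split_ifs <;> simp_all
  · rcases v <;> simp [secF, cellOf] <;> split_ifs <;> simp_all

omit [DecidableEq I] [DecidableEq W] [DecidableEq A] [DecidableEq Q] [Fintype I] [Fintype W] in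
theorem cell_sup {w : Vtx I W A Q} {z : W} (h : L.cellOf w = some (.inr z)) :
    w = .sp z ∨ w = .sh z ∨ w = .sz z ∨ w = .sw z := by
  rcases w with _ | a' | q' | x | j' | j' | x | x | x | x | x <;> simp_all [cellOf]

/-- The partial assignment of `secF v`. -/
def asgF (L : LockGame I W A Q) (v : Vtx I W A Q) : I → Option W := fun i => match v with
  | .val x => if L.var x = i then some x else none
  | _ => none

theorem near_K_F {a : A} {s : I → Option W} (hs : ∀ i x, s i = some x → L.var x = i)
    (hq : ∀ q, L.att q = a → ∃ x, L.lit q x ∧ s (L.var x) = some x)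
    (v : Vtx I W A Q) (hv : ∀ a, v ≠ .att a) :
    ∃ π : Equiv.Perm (Option (I ⊕ W)), ∀ c, L.Near (secK a s c) (L.secF v (π c)) := by
  have hI : ∀ i w, (∀ x, s i = some x → L.Near (.val x) w) → L.Near (.h i) w →
      L.Near (secK a s (some (.inl i))) w := by
    intro i w h1 h2
    simp only [secK]
    rcases h : s i with _ | x
    · exact h2
    · exact h1 x h
  rcases v with _ | a' | q | z | j | j | z | z | z | z | z
  · refine ⟨1, ?_⟩
    rintro (_ | i | x)
    · simp [Near, adj_iff, rel, secK, secF]
    · apply hI <;> simp +contextual [Near, adj_iff, rel, secF, hs i]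
    · simp [Near, adj_iff, rel, secK, secF]
  · exact absurd rfl (hv a')
  · by_cases hqa : L.att q = a
    · obtain ⟨x, hx, hsx⟩ := hq q hqa
      refine ⟨Equiv.swap none (some (.inl (L.var x))), ?_⟩
      rintro (_ | i | y)
      · simp [Near, adj_iff, rel, secK, secF]
      · by_cases hi : i = L.var x
        · subst hi
          simp [Near, adj_iff, rel, secK, secF, hsx, hx]
        · rw [Equiv.swap_apply_of_ne_of_ne (by simp) (by simpa using hi)]
          apply hI <;> simp +contextual [Near, adj_iff, rel, secF, hs i]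
      · rw [Equiv.swap_apply_of_ne_of_ne (by simp) (by simp)]
        simp [Near, adj_iff, rel, secK, secF]
    · refine ⟨1, ?_⟩
      rintro (_ | i | x)
      · simp [Near, adj_iff, rel, secK, secF, hqa]
      · apply hI <;> simp +contextual [Near, adj_iff, rel, secF, hs i]
      · simp [Near, adj_iff, rel, secK, secF]
  · refine ⟨Equiv.swap none (some (.inr z)), ?_⟩
    rintro (_ | i | y)
    · simp [Near, adj_iff, rel, secK, secF]
    · rw [Equiv.swap_apply_of_ne_of_ne (by simp) (by simp)]
      apply hI <;> simp +contextual [Near, adj_iff, rel, secF, hs i]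
    · by_cases hi : y = z
      · subst hi
        simp [Near, adj_iff, rel, secK, secF]
      · rw [Equiv.swap_apply_of_ne_of_ne (by simp) (by simpa using hi)]
        simp [Near, adj_iff, rel, secK, secF]
  · refine ⟨1, ?_⟩
    rintro (_ | i | x)
    · simp [Near, adj_iff, rel, secK, secF]
    · by_cases hi : j = i
      · subst hi
        apply hI <;> simp +contextual [Near, adj_iff, rel, secF, hs j]
      · apply hI <;> simp +contextual [Near, adj_iff, rel, secF, hs i, hi]
    · simp [Near, adj_iff, rel, secK, secF]
  · refine ⟨1, ?_⟩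
    rintro (_ | i | x)
    · simp [Near, adj_iff, rel, secK, secF]
    · apply hI <;> simp +contextual [Near, adj_iff, rel, secF, hs i]
    · simp [Near, adj_iff, rel, secK, secF]
  · -- attack on a value
    by_cases hz : ∃ y, s (L.var z) = some y ∧ y ≠ z
    · obtain ⟨y, hy, hyz⟩ := hz
      have hvar := hs _ _ hy
      refine ⟨Equiv.swap (some (.inl (L.var z))) (some (.inr z)), ?_⟩
      rintro (_ | i | x)
      · rw [Equiv.swap_apply_of_ne_of_ne (by simp) (by simp)]
        simp [Near, adj_iff, rel, secK, secF]
      · by_cases hi : i = L.var z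
        · subst hi
          simp [Near, adj_iff, rel, secK, secF, hy, hyz.symm, hvar]
        · rw [Equiv.swap_apply_of_ne_of_ne (by simpa using hi) (by simp)]
          have hi' : L.var z ≠ i := fun h => hi h.symm
          apply hI <;> simp +contextual [Near, adj_iff, rel, secF, hs i, hi']
      · by_cases hx : x = z
        · subst hx
          simp [Near, adj_iff, rel, secK, secF]
        · rw [Equiv.swap_apply_of_ne_of_ne (by simp) (by simpa using hx)]
          have hx' : z ≠ x := fun h => hx h.symm
          simp [Near, adj_iff, rel, secK, secF, hx']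
    · refine ⟨1, ?_⟩
      rintro (_ | i | x)
      · simp [Near, adj_iff, rel, secK, secF]
      · by_cases hi : L.var z = i
        · subst hi
          apply hI
          · intro y hy
            have : y = z := by
              by_contra hne
              exact hz ⟨y, hy, hne⟩
            subst this
            simp [Near, adj_iff, rel, secF]
          · simp [Near, adj_iff, rel, secF]
        · apply hI <;> simp +contextual [Near, adj_iff, rel, secF, hs i, hi]
      · by_cases hx : z = x
        · subst hx
          simp [Near, adj_iff, rel, secK, secF]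
        · simp [Near, adj_iff, rel, secK, secF, hx]
  all_goals
    refine ⟨1, ?_⟩
    rintro (_ | i | x)
    · simp [Near, adj_iff, rel, secK, secF]
    · apply hI <;> simp +contextual [Near, adj_iff, rel, secF, hs i]
    · by_cases hx : z = x
      · subst hx
        simp [Near, adj_iff, rel, secK, secF]
      · simp [Near, adj_iff, rel, secK, secF, hx]

theorem near_F_F (u v : Vtx I W A Q) (hu : ∀ a, u ≠ .att a) (hv : ∀ a, v ≠ .att a) :
    ∃ π : Equiv.Perm (Option (I ⊕ W)), ∀ c, L.Near (L.secF u c) (L.secF v (π c)) := by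
  by_cases hsw : ∃ x y, u = .val y ∧ v = .val x ∧ x ≠ y ∧ L.var x = L.var y
  · obtain ⟨x, y, rfl, rfl, hne, hvar⟩ := hsw
    refine ⟨Equiv.swap (some (.inl (L.var y))) (some (.inr y)), ?_⟩
    rintro (_ | i | z)
    · rw [Equiv.swap_apply_of_ne_of_ne (by simp) (by simp)]
      simp [Near, secF]
    · by_cases hi : i = L.var y
      · subst hi
        simp [Near, adj_iff, rel, secF, hne]
      · rw [Equiv.swap_apply_of_ne_of_ne (by simpa using hi) (by simp)]
        have hi' : L.var y ≠ i := fun h => hi h.symm
        have hi'' : L.var x ≠ i := fun h => hi (h.symm.trans hvar)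
        simp [Near, secF, hi', hi'']
    · by_cases hz : z = y
      · subst hz
        simp [Near, adj_iff, rel, secF, hne.symm, hvar]
      · rw [Equiv.swap_apply_of_ne_of_ne (by simp) (by simpa using hz)]
        have hz' : y ≠ z := fun h => hz h.symm
        by_cases hx : x = z
        · subst hx
          simp [Near, adj_iff, rel, secF, hz']
        · simp [Near, secF, hz', hx]
  · refine ⟨1, ?_⟩
    rintro (_ | i | z)
    · rcases u with _ | a | q | y | j | j | y | y | y | y | y <;>
      rcases v with _ | a' | q' | x | j' | j' | x | x | x | x | x <;>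
        first
        | exact absurd rfl (hu _)
        | exact absurd rfl (hv _)
        | simp [Near, adj_iff, rel, secF, eq_comm, em]
    · by_cases hu' : ∃ y, u = .val y ∧ L.var y = i
      · obtain ⟨y, rfl, hy⟩ := hu'
        subst hy
        rcases v with _ | a' | q' | x | j' | j' | x | x | x | x | x
        all_goals try exact absurd rfl (hv _)
        all_goals try (simp [Near, adj_iff, rel, secF]; done)
        · by_cases h : j' = L.var y
          · subst h
            simp [Near, adj_iff, rel, secF]
          · simp [Near, adj_iff, rel, secF, h]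
        · by_cases h : L.var x = L.var y
          · have : x = y := by
              by_contra hne
              exact hsw ⟨x, y, rfl, rfl, hne, h⟩
            subst this
            simp [Near, secF]
          · simp [Near, adj_iff, rel, secF, h]
      · have hph : L.secF u (some (.inl i)) = .p i ∨ L.secF u (some (.inl i)) = .h i := by
          rcases u with _ | a | q | y | j | j | y | y | y | y | y
          all_goals try (simp [secF]; done)
          · by_cases h : j = i
            · left; simp [secF, h]
            · right; simp [secF, h]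
          · have h : L.var y ≠ i := fun h => hu' ⟨y, rfl, h⟩
            right; simp [secF, h]
        have hc := cellOf_secF (L := L) v (some (.inl i))
        have hc' : (1 : Equiv.Perm (Option (I ⊕ W))) (some (.inl i)) = some (.inl i) := rfl
        rw [hc']
        generalize L.secF v (some (.inl i)) = w at hc
        rcases hph with h | h <;> rw [h] <;>
        rcases w with _ | a' | q' | x | j' | j' | x | x | x | x | x <;>
          simp_all [Near, adj_iff, rel, cellOf]
    · have hc := cellOf_secF (L := L) v (some (.inr z))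
      have hc' : (1 : Equiv.Perm (Option (I ⊕ W))) (some (.inr z)) = some (.inr z) := rfl
      have hc2 := cellOf_secF (L := L) u (some (.inr z))
      rw [hc']
      generalize L.secF v (some (.inr z)) = w at hc
      generalize L.secF u (some (.inr z)) = w' at hc2
      rcases cell_sup hc with rfl | rfl | rfl | rfl <;>
        rcases cell_sup hc2 with rfl | rfl | rfl | rfl <;>
        simp [Near, adj_iff, rel]

theorem near_K_K {a a' : A} {s s' : I → Option W} (hs : ∀ i x, s i = some x → L.var x = i)
    (hs' : ∀ i x, s' i = some x → L.var x = i)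
    (hst : ∀ i x y, s i = some x → s' i = some y → x = y ∨ L.near x y ∨ L.near y x)
    (c : Option (I ⊕ W)) : L.Near (secK a s c) (secK a' s' c) := by
  rcases c with _ | i | x
  · simp [Near, adj_iff, rel, secK, eq_comm, em]
  · simp only [secK]
    rcases h : s i with _ | x <;> rcases h' : s' i with _ | y
    · simp [Near]
    · simp [Near, adj_iff, rel, hs' i y h']
    · simp [Near, adj_iff, rel, hs i x h]
    · have := hst i x y h h'
      simp only [Near, adj_iff, rel, hs i x h, hs' i y h']
      by_cases hxy : x = y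
      · subst hxy; simp
      · simp [hxy]
        tauto
  · simp [Near, secK]

theorem near_F_K {a : A} {v : Vtx I W A Q} (hv : ∀ a, v ≠ .att a) {s' : I → Option W}
    (hs' : ∀ i x, s' i = some x → L.var x = i)
    (hq : ∀ q, L.att q = a → ∃ x, L.lit q x ∧ s' (L.var x) = some x)
    (hst : ∀ i x y, L.asgF v i = some x → s' i = some y → x = y ∨ L.near x y ∨ L.near y x) :
    ∃ π : Equiv.Perm (Option (I ⊕ W)), ∀ c, L.Near (L.secF v c) (secK a s' (π c)) := by
  have hI : ∀ i w, (∀ x, s' i = some x → L.Near w (.val x)) → L.Near w (.h i) →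
      L.Near w (secK a s' (some (.inl i))) := by
    intro i w h1 h2
    simp only [secK]
    rcases h : s' i with _ | x
    · exact h2
    · exact h1 x h
  rcases v with _ | a' | q | z | j | j | z | z | z | z | z
  · refine ⟨1, ?_⟩
    rintro (_ | i | x)
    · simp [Near, adj_iff, rel, secK, secF]
    · apply hI <;> simp +contextual [Near, adj_iff, rel, secF, hs' i]
    · simp [Near, adj_iff, rel, secK, secF]
  · exact absurd rfl (hv a')
  · by_cases hqa : L.att q = a
    · obtain ⟨x, hx, hsx⟩ := hq q hqa
      refine ⟨Equiv.swap none (some (.inl (L.var x))), ?_⟩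
      rintro (_ | i | y)
      · simp [Near, adj_iff, rel, secK, secF, hsx, hx]
      · by_cases hi : i = L.var x
        · subst hi
          simp [Near, adj_iff, rel, secK, secF]
        · rw [Equiv.swap_apply_of_ne_of_ne (by simp) (by simpa using hi)]
          apply hI <;> simp +contextual [Near, adj_iff, rel, secF, hs' i]
      · rw [Equiv.swap_apply_of_ne_of_ne (by simp) (by simp)]
        simp [Near, adj_iff, rel, secK, secF]
    · refine ⟨1, ?_⟩
      rintro (_ | i | x)
      · simp [Near, adj_iff, rel, secK, secF, hqa]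
      · apply hI <;> simp +contextual [Near, adj_iff, rel, secF, hs' i]
      · simp [Near, adj_iff, rel, secK, secF]
  · refine ⟨Equiv.swap none (some (.inr z)), ?_⟩
    rintro (_ | i | y)
    · simp [Near, adj_iff, rel, secK, secF]
    · rw [Equiv.swap_apply_of_ne_of_ne (by simp) (by simp)]
      apply hI <;> simp +contextual [Near, adj_iff, rel, secF, hs' i]
    · by_cases hi : y = z
      · subst hi
        simp [Near, adj_iff, rel, secK, secF]
      · rw [Equiv.swap_apply_of_ne_of_ne (by simp) (by simpa using hi)]
        simp [Near, adj_iff, rel, secK, secF]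
  · refine ⟨1, ?_⟩
    rintro (_ | i | x)
    · simp [Near, adj_iff, rel, secK, secF]
    · by_cases hi : j = i
      · subst hi
        apply hI <;> simp +contextual [Near, adj_iff, rel, secF, hs' j]
      · apply hI <;> simp +contextual [Near, adj_iff, rel, secF, hs' i, hi]
    · simp [Near, adj_iff, rel, secK, secF]
  · refine ⟨1, ?_⟩
    rintro (_ | i | x)
    · simp [Near, adj_iff, rel, secK, secF]
    · apply hI <;> simp +contextual [Near, adj_iff, rel, secF, hs' i]
    · simp [Near, adj_iff, rel, secK, secF]
  · refine ⟨1, ?_⟩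
    rintro (_ | i | x)
    · simp [Near, adj_iff, rel, secK, secF]
    · by_cases hi : L.var z = i
      · subst hi
        apply hI
        · intro y hy
          have h1 := hst (L.var z) z y (by simp [asgF]) hy
          have h2 := hs' _ _ hy
          simp only [Equiv.Perm.coe_one, id_eq, Near, adj_iff, rel, secF, h2, if_true]
          by_cases hzy : z = y
          · subst hzy; simp
          · simp [hzy]
            tauto
        · simp [Near, adj_iff, rel, secF]
      · apply hI <;> simp +contextual [Near, adj_iff, rel, secF, hs' i, hi]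
    · by_cases hx : z = x
      · subst hx
        simp [Near, adj_iff, rel, secK, secF]
      · simp [Near, adj_iff, rel, secK, secF, hx]
  all_goals
    refine ⟨1, ?_⟩
    rintro (_ | i | x)
    · simp [Near, adj_iff, rel, secK, secF]
    · apply hI <;> simp +contextual [Near, adj_iff, rel, secF, hs' i]
    · by_cases hx : z = x
      · subst hx
        simp [Near, adj_iff, rel, secK, secF]
      · simp [Near, adj_iff, rel, secK, secF, hx]

/-- Completeness: a closed set of partial assignments containing the empty one and all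
singletons gives a strategy whose order is the number of cells. -/
theorem completeness {S : Set (I → Option W)} (hS : L.Closed S) (h0 : (fun _ => none) ∈ S)
    (h1 : ∀ x : W, (fun i => if L.var x = i then some x else none) ∈ S) :
    ∃ 𝒞 : Set (Finset (Vtx I W A Q)),
      IsStrategy L.graph (Fintype.card I + Fintype.card W + 1) 𝒞 := by
  have hF : ∀ v : Vtx I W A Q, L.asgF v ∈ S := by
    intro v
    rcases v with _ | a' | q' | x | j' | j' | x | x | x | x | x
    all_goals first | exact h0 | exact h1 _
  refine ⟨{C | (∃ a, ∃ s ∈ S, (∀ q, L.att q = a → ∃ x, L.lit q x ∧ s (L.var x) = some x) ∧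
      C = conf (secK a s)) ∨ ∃ v : Vtx I W A Q, (∀ a, v ≠ .att a) ∧ C = conf (L.secF v)},
    ⟨_, Or.inr ⟨.pA, by simp, rfl⟩⟩, ?_, ?_⟩
  · rintro C (⟨a, s, hs, -, rfl⟩ | ⟨v, -, rfl⟩)
    · exact conf_card (cellOf_secK (hS.1 s hs))
    · exact conf_card (cellOf_secF v)
  · rintro C hC v
    by_cases hv : ∃ a, v = .att a
    · obtain ⟨a, rfl⟩ := hv
      rcases hC with ⟨a', s, hs, -, rfl⟩ | ⟨u, hu, rfl⟩
      · obtain ⟨s', hs', h2, h3⟩ := hS.2 s hs a
        refine ⟨_, Or.inl ⟨a, s', hs', h3, rfl⟩, ?_, Or.inr ?_⟩
        · exact Finset.mem_image.2 ⟨none, Finset.mem_univ _, rfl⟩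
        · exact traversable_conf (cellOf_secK (hS.1 s hs)) (cellOf_secK (hS.1 s' hs')) 1
            (near_K_K (hS.1 s hs) (hS.1 s' hs') h2)
      · obtain ⟨s', hs', h2, h3⟩ := hS.2 _ (hF u) a
        refine ⟨_, Or.inl ⟨a, s', hs', h3, rfl⟩, ?_, Or.inr ?_⟩
        · exact Finset.mem_image.2 ⟨none, Finset.mem_univ _, rfl⟩
        · obtain ⟨π, hπ⟩ := near_F_K hu (hS.1 s' hs') h3 h2
          exact traversable_conf (cellOf_secF u) (cellOf_secK (hS.1 s' hs')) π hπ
    · have hv' : ∀ a, v ≠ .att a := fun a h => hv ⟨a, h⟩
      refine ⟨conf (L.secF v), Or.inr ⟨v, hv', rfl⟩, ?_, Or.inr ?_⟩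
      · refine Finset.mem_image.2 ⟨L.cellOf v, Finset.mem_univ _, ?_⟩
        rcases v with _ | a' | q' | x | j' | j' | x | x | x | x | x
        all_goals first
          | exact absurd rfl (hv' _)
          | simp [secF, cellOf]
      · rcases hC with ⟨a', s, hs, hq, rfl⟩ | ⟨u, hu, rfl⟩
        · obtain ⟨π, hπ⟩ := near_K_F (hS.1 s hs) hq v hv'
          exact traversable_conf (cellOf_secK (hS.1 s hs)) (cellOf_secF v) π hπ
        · obtain ⟨π, hπ⟩ := near_F_F u v hu hv'
          exact traversable_conf (cellOf_secF u) (cellOf_secF v) π hπ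

end completeness

end LockGame

end Pool.Agent.MEternal
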