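import Pool.Agent.MEternal.Tests

/-!
# Nested loops and a program writing a graph
-/

namespace Pool.Agent.MEternal

variable {R : ℕ}

/-- The lists of length `k` with entries less than `B`, in lexicographic order. -/
def box (B : ℕ) : ℕ → List (List ℕ)
  | 0 => [[]]
  | k + 1 => (List.range B).flatMap fun a => (box B k).map (a :: ·)

theorem mem_box {B k : ℕ} {l : List ℕ} : l ∈ box B k ↔ l.length = k ∧ ∀ a ∈ l, a < B := by
  induction k generalizing l with
  | zero =>
    simp only [box, List.mem_singleton, List.length_eq_zero_iff]
    constructor
    · rintro rfl; simp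
    · exact fun h => h.1
  | succ k ih =>
    simp only [box, List.mem_flatMap, List.mem_range, List.mem_map]
    constructor
    · rintro ⟨a, ha, l, hl, rfl⟩
      obtain ⟨h1, h2⟩ := ih.1 hl
      refine ⟨by simp [h1], ?_⟩
      intro b hb
      rcases List.mem_cons.1 hb with rfl | hb
      · exact ha
      · exact h2 b hb
    · rintro ⟨h1, h2⟩
      rcases l with _ | ⟨a, l⟩
      · simp at h1
      · exact ⟨a, h2 a (by simp), l, ih.2 ⟨by simpa using h1, fun b hb => h2 b (by simp [hb])⟩, rfl⟩

theorem nodup_box (B k : ℕ) : (box B k).Nodup := by
  induction k with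
  | zero => simp [box]
  | succ k ih =>
    rw [box, List.nodup_flatMap]
    refine ⟨fun a _ => ih.map fun l l' h => by simpa using h, ?_⟩
    refine (List.nodup_range).imp_of_mem ?_
    intro a b _ _ hab
    show List.Disjoint _ _
    intro l hl hl'
    obtain ⟨l1, -, rfl⟩ := List.mem_map.1 hl
    obtain ⟨l2, -, h⟩ := List.mem_map.1 hl'
    simp only [List.cons.injEq] at h
    exact hab h.1.symm

/-- Nested loops. -/
def loops (e : Expr R) : List (Fin R) → FProg R → FProg R
  | [], p => p
  | i :: is, p => .loopUp i e (loops e is p)

/-- Setting several variables. -/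
def setAll : (Fin R → ℕ) → List (Fin R) → List ℕ → (Fin R → ℕ)
  | env, i :: is, a :: l => setAll (Function.update env i a) is l
  | env, _, _ => env

theorem setAll_of_notMem (env : Fin R → ℕ) (is : List (Fin R)) (l : List ℕ) {j : Fin R}
    (hj : j ∉ is) : setAll env is l j = env j := by
  induction is generalizing env l with
  | nil => rfl
  | cons i is ih =>
    rcases l with _ | ⟨a, l⟩
    · rfl
    · rw [setAll, ih _ _ (fun h => hj (List.mem_cons_of_mem _ h)), Function.update_of_ne]
      rintro rfl
      exact hj (by simp)

theorem output_loops (w : List Bool) (e : Expr R) (z : Fin R) (f : ℕ → ℕ)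
    (he : ∀ env, e.val env = f (env z)) (p : FProg R) (is : List (Fin R)) (env : Fin R → ℕ)
    (hz : z ∉ is) : (loops e is p).output w env =
      (box (f (env z)) is.length).flatMap fun l => p.output w (setAll env is l) := by
  induction is generalizing env with
  | nil => simp [loops, box, setAll]
  | cons i is ih =>
    have hzi : z ≠ i := by
      rintro rfl
      exact hz (by simp)
    have hzis : z ∉ is := fun h => hz (List.mem_cons_of_mem _ h)
    simp only [loops, FProg.output, he, box, List.length_cons, List.flatMap_assoc,
      List.flatMap_map]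
    congr 1
    funext a
    rw [ih _ hzis, Function.update_of_ne hzi]
    rfl

theorem safe_loops {m : ℕ} (e : Expr R) (z : Fin R) (f : ℕ → ℕ)
    (he : ∀ env, e.val env = f (env z)) (p : FProg R) (is : List (Fin R)) (hn : is.Nodup)
    (env : Fin R → ℕ)
    (hz : z ∉ is) (h0 : ∀ i ∈ is, env i = 0) (hm : f (env z) ≤ m)
    (hp : ∀ l, p.Safe m (setAll env is l)) : (loops e is p).Safe m env := by
  induction is generalizing env with
  | nil => exact hp []
  | cons i is ih =>
    have hzi : z ≠ i := by
      rintro rfl
      exact hz (by simp)
    have hzis : z ∉ is := fun h => hz (List.mem_cons_of_mem _ h)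
    refine ⟨h0 i (by simp), by rw [he]; exact hm, fun v _ => ?_⟩
    apply ih (List.nodup_cons.1 hn).2 _ hzis
    · intro j hj
      rw [Function.update_of_ne]
      · exact h0 j (List.mem_cons_of_mem _ hj)
      · rintro rfl
        exact (List.nodup_cons.1 hn).1 hj
    · rwa [Function.update_of_ne hzi]
    · intro l
      exact hp (v :: l)

/-- The variables of the first vertex. -/
def us : List (Fin 17) := [1, 2, 3, 4, 5, 6, 7, 8]

/-- The variables of the second vertex. -/
def vs : List (Fin 17) := [9, 10, 11, 12, 13, 14, 15, 16]

/-- The program writing a graph. -/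
def graphProg (e : Expr 17) (vu vv pu adj : BExpr 17) : FProg 17 :=
  .seq (loops e us (.ite vu (.emit true) .nop))
    (.seq (.emit false)
      (.seq (loops e us (.ite vu (.ite pu (.emit true) .nop) .nop))
        (.seq (.emit false)
          (loops e us (.ite vu
            (loops e vs (.ite vv (.ite adj (.emit true) (.emit false)) .nop)) .nop)))))

theorem flatMap_ite_filter {α β : Type*} (l : List α) (q : α → Prop) [DecidablePred q]
    (g : α → List β) : (l.flatMap fun a => if q a then g a else []) =
      (l.filter q).flatMap g := by
  induction l with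
  | nil => rfl
  | cons a l ih =>
    by_cases h : q a
    · simp [List.flatMap_cons, List.filter_cons_of_pos, h, ih]
    · simp [List.flatMap_cons, List.filter_cons_of_neg, h, ih]

theorem flatMap_singleton_const {α β : Type*} (l : List α) (b : β) :
    (l.flatMap fun _ => [b]) = List.replicate l.length b := by
  induction l with
  | nil => rfl
  | cons a l ih => simp [List.flatMap_cons, List.replicate_succ, ih]

open Classical in
/-- Output of the program writing a graph. -/
theorem graphProg_polyTime (B : ℕ → ℕ) (hB : IsExpr (fun env : Fin 17 → ℕ => B (env 0)))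
    (m : Polynomial ℕ) (hm : ∀ n, n ≤ m.eval n ∧ B n ≤ m.eval n)
    (valid isP : ℕ → List ℕ → Prop) (adj : ℕ → List Bool → List ℕ → List ℕ → Prop)
    (h1 : IsTest fun (_ : List Bool) (env : Fin 17 → ℕ) =>
      valid (env 0) [env 1, env 2, env 3, env 4, env 5, env 6, env 7, env 8])
    (h2 : IsTest fun (_ : List Bool) (env : Fin 17 → ℕ) =>
      valid (env 0) [env 9, env 10, env 11, env 12, env 13, env 14, env 15, env 16])
    (h3 : IsTest fun (_ : List Bool) (env : Fin 17 → ℕ) =>
      isP (env 0) [env 1, env 2, env 3, env 4, env 5, env 6, env 7, env 8])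
    (h4 : IsTest fun (w : List Bool) (env : Fin 17 → ℕ) =>
      adj (env 0) w [env 1, env 2, env 3, env 4, env 5, env 6, env 7, env 8]
        [env 9, env 10, env 11, env 12, env 13, env 14, env 15, env 16]) :
    Nonempty (Turing.TM2ComputableInPolyTime (id : List Bool → List Bool)
      (id : List Bool → List Bool) (fun w =>
        let cs := (box (B w.length) 8).filter (valid w.length)
        List.replicate cs.length true ++ false ::
          (List.replicate (cs.filter (isP w.length)).length true ++ false ::
            cs.flatMap fun c => cs.map fun d => decide (adj w.length w c d)))) := by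
  obtain ⟨e, he⟩ := hB
  obtain ⟨b1, hb1⟩ := h1
  obtain ⟨b2, hb2⟩ := h2
  obtain ⟨b3, hb3⟩ := h3
  obtain ⟨b4, hb4⟩ := h4
  have hus : (0 : Fin 17) ∉ us := by decide
  have hvs : (0 : Fin 17) ∉ vs := by decide
  have husn : us.Nodup := by decide
  have hvsn : vs.Nodup := by decide
  have key := FProg.polyTime (graphProg e b1 b2 b3 b4) m ?_
  · convert key using 2
    funext w
    set n := w.length with hn
    have e0 : env0 16 n 0 = n := rfl
    -- semantics of variables
    have hset : ∀ (env : Fin 17 → ℕ) (l : List ℕ), l ∈ box (B n) 8 →
        [setAll env us l 1, setAll env us l 2, setAll env us l 3, setAll env us l 4,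
          setAll env us l 5, setAll env us l 6, setAll env us l 7, setAll env us l 8] = l := by
      intro env l hl
      have hlen := (mem_box.1 hl).1
      match l, hlen with
      | [a1, a2, a3, a4, a5, a6, a7, a8], _ => rfl
    have hset2 : ∀ (env : Fin 17 → ℕ) (l : List ℕ), l ∈ box (B n) 8 →
        [setAll env vs l 9, setAll env vs l 10, setAll env vs l 11, setAll env vs l 12,
          setAll env vs l 13, setAll env vs l 14, setAll env vs l 15,
          setAll env vs l 16] = l := by
      intro env l hl
      have hlen := (mem_box.1 hl).1
      match l, hlen with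
      | [a1, a2, a3, a4, a5, a6, a7, a8], _ => rfl
    have hset3 : ∀ (env : Fin 17 → ℕ) (l : List ℕ),
        [setAll env vs l 1, setAll env vs l 2, setAll env vs l 3, setAll env vs l 4,
          setAll env vs l 5, setAll env vs l 6, setAll env vs l 7, setAll env vs l 8] =
          [env 1, env 2, env 3, env 4, env 5, env 6, env 7, env 8] := by
      intro env l
      rw [setAll_of_notMem _ _ _ (by decide), setAll_of_notMem _ _ _ (by decide),
        setAll_of_notMem _ _ _ (by decide), setAll_of_notMem _ _ _ (by decide),
        setAll_of_notMem _ _ _ (by decide), setAll_of_notMem _ _ _ (by decide),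
        setAll_of_notMem _ _ _ (by decide), setAll_of_notMem _ _ _ (by decide)]
    have hset0 : ∀ (env : Fin 17 → ℕ) (l : List ℕ), setAll env us l 0 = env 0 := fun env l =>
      setAll_of_notMem _ _ _ hus
    have hset0' : ∀ (env : Fin 17 → ℕ) (l : List ℕ), setAll env vs l 0 = env 0 := fun env l =>
      setAll_of_notMem _ _ _ hvs
    have hb1' : ∀ l ∈ box (B n) 8, (b1.val w (setAll (env0 16 n) us l) = true ↔ valid n l) := by
      intro l hl
      rw [hb1]
      beta_reduce
      rw [hset _ _ hl, hset0, e0]
    have hb3' : ∀ l ∈ box (B n) 8, (b3.val w (setAll (env0 16 n) us l) = true ↔ isP n l) := by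
      intro l hl
      rw [hb3]
      beta_reduce
      rw [hset _ _ hl, hset0, e0]
    have hb2' : ∀ l, ∀ l' ∈ box (B n) 8,
        (b2.val w (setAll (setAll (env0 16 n) us l) vs l') = true ↔ valid n l') := by
      intro l l' hl'
      rw [hb2]
      beta_reduce
      rw [hset2 _ _ hl', hset0', hset0, e0]
    have hb4' : ∀ l ∈ box (B n) 8, ∀ l' ∈ box (B n) 8,
        (b4.val w (setAll (setAll (env0 16 n) us l) vs l') = true ↔ adj n w l l') := by
      intro l hl l' hl'
      rw [hb4]
      beta_reduce
      rw [hset2 _ _ hl', hset3, hset _ _ hl, hset0', hset0, e0]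
    have hlen8 : us.length = 8 := rfl
    have hlen8' : vs.length = 8 := rfl
    simp only [graphProg, FProg.output]
    rw [output_loops w e 0 B he _ us _ hus, output_loops w e 0 B he _ us _ hus,
      output_loops w e 0 B he _ us _ hus, e0, hlen8]
    have p1 : ((box (B n) 8).flatMap fun l =>
        (FProg.ite b1 (.emit true) .nop).output w (setAll (env0 16 n) us l)) =
          List.replicate ((box (B n) 8).filter (valid n)).length true := by
      rw [← flatMap_singleton_const, ← flatMap_ite_filter]
      apply List.flatMap_congr
      intro l hl
      simp only [FProg.output]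
      by_cases hv : valid n l
      · simp [hv, (hb1' l hl).2 hv]
      · have : ¬ b1.val w (setAll (env0 16 n) us l) = true := fun h => hv ((hb1' l hl).1 h)
        simp [hv, this]
    have p2 : ((box (B n) 8).flatMap fun l =>
        (FProg.ite b1 (.ite b3 (.emit true) .nop) .nop).output w
          (setAll (env0 16 n) us l)) =
          List.replicate (((box (B n) 8).filter (valid n)).filter (isP n)).length true := by
      rw [← flatMap_singleton_const, ← flatMap_ite_filter, ← flatMap_ite_filter]
      apply List.flatMap_congr
      intro l hl
      simp only [FProg.output]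
      by_cases hv : valid n l
      · by_cases hp : isP n l
        · simp [hv, (hb1' l hl).2 hv, hp, (hb3' l hl).2 hp]
        · have : ¬ b3.val w (setAll (env0 16 n) us l) = true := fun h => hp ((hb3' l hl).1 h)
          simp [hv, (hb1' l hl).2 hv, hp, this]
      · have : ¬ b1.val w (setAll (env0 16 n) us l) = true := fun h => hv ((hb1' l hl).1 h)
        simp [hv, this]
    have p3 : ((box (B n) 8).flatMap fun l =>
        (FProg.ite b1 (loops e vs (.ite b2 (.ite b4 (.emit true) (.emit false)) .nop))
          .nop).output w (setAll (env0 16 n) us l)) =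
          ((box (B n) 8).filter (valid n)).flatMap fun c =>
            ((box (B n) 8).filter (valid n)).map fun d => decide (adj n w c d) := by
      rw [← flatMap_ite_filter]
      apply List.flatMap_congr
      intro l hl
      simp only [FProg.output]
      by_cases hv : valid n l
      · simp only [hv, (hb1' l hl).2 hv, if_true]
        rw [output_loops w e 0 B he _ vs _ hvs, hset0, e0, hlen8', List.map_eq_flatMap,
          ← flatMap_ite_filter]
        apply List.flatMap_congr
        intro l' hl'
        simp only [FProg.output]
        by_cases hv' : valid n l'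
        · by_cases ha : adj n w l l'
          · simp [hv', (hb2' l l' hl').2 hv', ha, (hb4' l hl l' hl').2 ha]
          · have : ¬ b4.val w (setAll (setAll (env0 16 n) us l) vs l') = true :=
              fun h => ha ((hb4' l hl l' hl').1 h)
            simp [hv', (hb2' l l' hl').2 hv', ha, this]
        · have : ¬ b2.val w (setAll (setAll (env0 16 n) us l) vs l') = true :=
            fun h => hv' ((hb2' l l' hl').1 h)
          simp [hv', this]
      · have : ¬ b1.val w (setAll (env0 16 n) us l) = true := fun h => hv ((hb1' l hl).1 h)
        simp [hv, this]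
    rw [p1, p2, p3]
    simp
  · intro n
    refine ⟨(hm n).1, ?_⟩
    have hB' : B (env0 16 n 0) ≤ m.eval n := (hm n).2
    have h0 : ∀ i ∈ us, env0 16 n i = 0 := by
      intro i hi
      have : i ≠ 0 := by
        rintro rfl
        exact hus hi
      simp [env0, this]
    refine ⟨?_, trivial, ?_, trivial, ?_⟩
    · exact safe_loops e 0 B he _ us husn _ hus h0 hB' fun l => ⟨trivial, trivial⟩
    · exact safe_loops e 0 B he _ us husn _ hus h0 hB' fun l => ⟨⟨trivial, trivial⟩, trivial⟩
    · refine safe_loops e 0 B he _ us husn _ hus h0 hB' fun l => ⟨?_, trivial⟩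
      refine safe_loops e 0 B he _ vs hvsn _ hvs ?_ ?_ fun l =>
        ⟨⟨trivial, trivial⟩, trivial⟩
      · intro i hi
        have hi0 : i ≠ 0 := by
          rintro rfl
          exact hvs hi
        rw [setAll_of_notMem]
        · simp [env0, hi0]
        · intro hi'
          revert hi hi'
          revert i
          decide
      · rw [setAll_of_notMem _ _ _ hus]
        exact hB'

end Pool.Agent.MEternal
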