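import Pool.Agent.MEternal.Valid

/-!
# The adjacency relation in terms of codes
-/

namespace Pool.Agent.MEternal

namespace Codes

open CAGame

variable {C : Type} {e : C → ℕ} {P D : ℕ}

/-- Values of the same variable. -/
def varEqN (x y : ℕ × ℕ × ℕ) : Prop :=
  x.1 = y.1 ∧ (x.2.1 = y.2.1 ∨ x.1 = 2 ∨ x.1 = 3 ∨ x.1 = 4)

theorem varEqN_iff (x y : GW C P D) : varEqN (cGW e x) (cGW e y) ↔ varL x = varL y := by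
  rcases x <;> rcases y <;> simp [varEqN, cGW, varL, Fin.val_inj]

/-- Value of a given variable. -/
def varIsN (x : ℕ × ℕ × ℕ) (j : ℕ × ℕ) : Prop :=
  x.1 = j.1 ∧ (x.2.1 = j.2 ∨ x.1 = 2 ∨ x.1 = 3 ∨ x.1 = 4)

theorem varIsN_iff (x : GW C P D) (j : GV P) : varIsN (cGW e x) (cGV j) ↔ varL x = j := by
  rcases x <;> rcases j <;> simp [varIsN, cGW, cGV, varL, Fin.val_inj]

/-- Initial values. -/
def initN (D : ℕ) (x : ℕ × ℕ × ℕ) (j : ℕ × ℕ) : Prop :=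
  x.1 = j.1 ∧ ((x.1 = 0 ∧ x.2.1 = j.2 ∧ x.2.2 + 1 = D) ∨ (x.1 = 1 ∧ x.2.1 = j.2 ∧ x.2.2 = 0) ∨
    (x.1 = 2 ∧ x.2.1 = 0) ∨ (x.1 = 3 ∧ x.2.1 = 0) ∨ (x.1 = 4 ∧ x.2.1 = 0) ∨
    (x.1 = 5 ∧ x.2.1 = j.2 ∧ x.2.2 = 0))

theorem initN_iff (hP : 0 < P) (hD : 0 < D) (x : GW C P D) (j : GV P) :
    initN D (cGW e x) (cGV j) ↔ x = initL hP hD j := by
  have hv : ∀ v : Fin D, (v : ℕ) + 1 = D ↔ v = ⟨D - 1, by omega⟩ := by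
    intro v
    rw [Fin.ext_iff]
    have h2 := v.2
    simp only
    omega
  have hz : ∀ v : Fin D, (v : ℕ) = 0 ↔ v = ⟨0, hD⟩ := fun v => by rw [Fin.ext_iff]
  have hm : ∀ v : Fin P, (v : ℕ) = 0 ↔ v = ⟨0, hP⟩ := fun v => by rw [Fin.ext_iff]
  rcases x with ⟨i, v⟩ | ⟨i, v⟩ | m | m | b | ⟨k, c⟩ <;> rcases j with i' | i' | _ | _ | _ | k'
  all_goals try (simp [initN, cGW, cGV, initL, Fin.val_inj, hv]; done)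
  all_goals try (simp [initN, cGW, cGV, initL, Fin.val_inj, hz]; done)
  all_goals try (simp [initN, cGW, cGV, initL, Fin.val_inj, hm]; done)
  · rcases c with _ | c <;> simp [initN, cGW, cGV, initL, Fin.val_inj, oc]

/-- Subtracting one. -/
def decN (D m i v v' : ℕ) : Prop :=
  (i < m ∧ v = 0 ∧ v' + 1 = D) ∨ (i = m ∧ v' + 1 = v) ∨ (m < i ∧ v' = v)

theorem decN_iff (D m i v v' : ℕ) : decN D m i v v' ↔ Dec D m i v v' := by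
  unfold decN Dec
  split_ifs <;> omega

/-- Moving. -/
def mvN (D b m i v v' : ℕ) : Prop :=
  (b = 0 ∧ decN D m i v v') ∨ (b = 1 ∧ v' = v) ∨ (1 < b ∧ decN D m i v' v)

theorem mvN_iff (D b m i v v' : ℕ) : mvN D b m i v v' ↔ Mv D b m i v v' := by
  unfold mvN Mv
  rw [decN_iff, decN_iff]
  rcases b with _ | _ | b
  · simp
  · simp
  · simp

/-- Digits of the origin. -/
def offN (P i v : ℕ) : Prop := (i = P + 1 ∧ v = 1) ∨ (i ≠ P + 1 ∧ v = 0)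

theorem offN_iff (P i v : ℕ) : offN P i v ↔ v = off P i := by
  unfold offN off
  split_ifs with h <;> simp [h]

/-- Supported claims. -/
def okN (F : C → C → C → C) (acc : C → Prop) (e : C → ℕ) (a b c d : ℕ) : Prop :=
  ∃ u : Option C × Option C × Option C × Option C, Ok F acc u.1 u.2.1 u.2.2.1 u.2.2.2 ∧
    a = oc e u.1 ∧ b = oc e u.2.1 ∧ c = oc e u.2.2.1 ∧ d = oc e u.2.2.2

theorem okN_iff (he : Function.Injective e) (F : C → C → C → C) (acc : C → Prop)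
    (a b c d : Option C) : okN F acc e (oc e a) (oc e b) (oc e c) (oc e d) ↔
      Ok F acc a b c d := by
  constructor
  · rintro ⟨u, hu, h1, h2, h3, h4⟩
    rw [oc_inj he h1, oc_inj he h2, oc_inj he h3, oc_inj he h4]
    exact hu
  · intro h
    exact ⟨(a, b, c, d), h, rfl, rfl, rfl, rfl⟩

/-- Literals about the current state. -/
def curN (F : C → C → C → C) (acc : C → Prop) (e : C → ℕ) (q : ℕ × ℕ × ℕ × ℕ × ℕ)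
    (x : ℕ × ℕ × ℕ) : Prop :=
  (x.1 = 4 ∧ x.2.1 = 1) ∨
  (q.1 = 0 ∧ x.1 = 0 ∧ x.2.1 = q.2.2.2.1 ∧ x.2.2 ≠ q.2.2.2.2) ∨
  (q.1 = 1 ∧ x.1 = 1 ∧ x.2.1 = q.2.2.2.1 ∧ x.2.2 ≠ q.2.2.2.2) ∨
  (q.1 = 1 ∧ x.1 = 5 ∧ x.2.1 = q.2.1 ∧ x.2.2 = 0) ∨
  (q.1 = 2 ∧ x.1 = 5 ∧ x.2.1 = q.2.1 ∧ okN F acc e q.2.2.1 q.2.2.2.1 q.2.2.2.2 x.2.2)

theorem curN_iff (he : Function.Injective e) (F : C → C → C → C) (acc : C → Prop)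
    (q : GQ C P D) (x : GW C P D) : curN F acc e (cGQ e q) (cGW e x) ↔ curL F acc q x := by
  rcases x with ⟨i, v⟩ | ⟨i, v⟩ | m | m | b | ⟨k, c⟩ <;>
    rcases q with ⟨b', m', i', v'⟩ | ⟨b', m', i', v'⟩ | ⟨b', u₀, u₁, u₂⟩ | ⟨b', i'⟩ |
      ⟨b', a', k'⟩ | ⟨b', i', k'⟩
  all_goals try (simp [curN, cGW, cGQ, curL, Fin.val_inj]; done)
  · rcases c with _ | c <;> simp [curN, cGW, cGQ, curL, oc, Fin.val_inj]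
  · simp [curN, cGW, cGQ, curL, Fin.val_inj, okN_iff he]

/-- Literals about the next state. -/
def nxtN (P D cb : ℕ) (row : ℕ → ℕ → ℕ → Prop) (q : ℕ × ℕ × ℕ × ℕ × ℕ)
    (x : ℕ × ℕ × ℕ) : Prop :=
  (q.1 = 0 ∧ x.1 = 2 ∧ x.2.1 ≠ q.2.2.1) ∨
  (q.1 = 0 ∧ x.1 = 0 ∧ x.2.1 = q.2.2.2.1 ∧ decN D q.2.2.1 q.2.2.2.1 q.2.2.2.2 x.2.2) ∨
  (q.1 = 1 ∧ x.1 = 3 ∧ x.2.1 ≠ q.2.2.1) ∨
  (q.1 = 1 ∧ x.1 = 1 ∧ x.2.1 = q.2.2.2.1 ∧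
    mvN D q.2.1 q.2.2.1 q.2.2.2.1 q.2.2.2.2 x.2.2) ∨
  (q.1 = 2 ∧ x.1 = 5 ∧ ((x.2.1 = 0 ∧ x.2.2 ≠ q.2.2.1) ∨ (x.2.1 = 1 ∧ x.2.2 ≠ q.2.2.2.1) ∨
    (x.2.1 = 2 ∧ x.2.2 ≠ q.2.2.2.2))) ∨
  (q.1 = 3 ∧ x.1 = 4 ∧ x.2.1 = 0) ∨
  (q.1 = 3 ∧ x.1 = 0 ∧ x.2.1 = q.2.2.1 ∧ x.2.2 = 0) ∨
  (q.1 = 4 ∧ x.1 = 4 ∧ x.2.1 = 0) ∨
  (q.1 = 4 ∧ x.1 = 1 ∧ ((x.2.1 = 0 ∧ x.2.2 ≠ q.2.2.1) ∨ (x.2.1 ≠ 0 ∧ ¬ offN P x.2.1 x.2.2))) ∨
  (q.1 = 4 ∧ x.1 = 5 ∧ x.2.1 = q.2.2.2.1 ∧ row q.2.2.1 q.2.2.2.1 x.2.2) ∨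
  (q.1 = 5 ∧ x.1 = 4 ∧ x.2.1 = 0) ∨
  (q.1 = 5 ∧ x.1 = 1 ∧ x.2.1 = q.2.2.1 ∧ (q.2.2.1 = 0 ∨ offN P q.2.2.1 x.2.2)) ∨
  (q.1 = 5 ∧ x.1 = 5 ∧ x.2.1 = q.2.2.2.1 ∧ x.2.2 = cb)

theorem nxtN_iff (he : Function.Injective e) (blank : C) (row0 : ℤ → C) {cb : ℕ}
    (hcb : cb = oc e (some blank)) (row : ℕ → ℕ → ℕ → Prop)
    (hrow : ∀ (a : Fin D) (k : Fin 3) (c : Option C),
      row a k (oc e c) ↔ c = some (row0 ((a : ℕ) + (k : ℕ) - 2)))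
    (q : GQ C P D) (x : GW C P D) :
    nxtN P D cb row (cGQ e q) (cGW e x) ↔ nxtL blank row0 q x := by
  subst hcb
  rcases x with ⟨i, v⟩ | ⟨i, v⟩ | m | m | b | ⟨k, c⟩ <;>
    rcases q with ⟨b', m', i', v'⟩ | ⟨b', m', i', v'⟩ | ⟨b', u₀, u₁, u₂⟩ | ⟨b', i'⟩ |
      ⟨b', a', k'⟩ | ⟨b', i', k'⟩
  all_goals try (simp [nxtN, cGW, cGQ, nxtL, Fin.val_inj, decN_iff, mvN_iff,
    offN_iff, hrow, (oc_inj he).eq_iff]; done)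
  have h0 : (k : ℕ) = 0 ↔ k = 0 := by rw [Fin.ext_iff]; rfl
  have h1 : (k : ℕ) = 1 ↔ k = 1 := by rw [Fin.ext_iff]; rfl
  have h2 : (k : ℕ) = 2 ↔ k = 2 := by rw [Fin.ext_iff]; rfl
  simp [nxtN, cGW, cGQ, nxtL, h0, h1, h2, (oc_inj he).eq_iff]

/-- Values of the same variable of the lock game. -/
def lVarEqN (x y : ℕ × ℕ × ℕ × ℕ × ℕ) : Prop :=
  (x.1 < 2 ∧ y.1 < 2) ∨ (x.1 = 2 ∧ y.1 = 2 ∧ x.2.1 = y.2.1 ∧ varEqN x.2.2 y.2.2)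

/-- Value of a given variable of the lock game. -/
def lVarIsN (x : ℕ × ℕ × ℕ × ℕ × ℕ) (i : ℕ × ℕ × ℕ × ℕ) : Prop :=
  (x.1 < 2 ∧ i.1 = 0) ∨ (x.1 = 2 ∧ i.1 = 1 ∧ x.2.1 = i.2.1 ∧ varIsN x.2.2 i.2.2)

/-- Near values. -/
def nearN (x y : ℕ × ℕ × ℕ × ℕ × ℕ) : Prop := x.1 < 2 ∧ y.1 < 2 ∧ x.2.1 ≠ y.2.1

/-- Clauses of a given attack. -/
def attN (q : N7) (t o : ℕ) : Prop :=
  q.2.1 = t ∧ ((q.1 < 3 ∧ q.2.2.1 = o) ∨ (q.1 = 3 ∧ o = 0) ∨ (q.1 = 4 ∧ o = q.2.2.2.1 + 1))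

/-- The next phase. -/
def succ3N (t t' : ℕ) : Prop := (t = 0 ∧ t' = 1) ∨ (t = 1 ∧ t' = 2) ∨ (t = 2 ∧ t' = 0)

theorem succ3N_iff (t t' : Fin 3) : succ3N t t' ↔ t' = t + 1 := by
  revert t t'
  unfold succ3N
  decide

/-- Literals of the lock game. -/
def litN (D : ℕ) (cur nxt : ℕ × ℕ × ℕ × ℕ × ℕ → ℕ × ℕ × ℕ → Prop) (q : N7)
    (x : ℕ × ℕ × ℕ × ℕ × ℕ) : Prop :=
  (q.1 = 0 ∧ x.1 = 0 ∧ succ3N q.2.1 x.2.1) ∨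
  (q.1 < 3 ∧ x.1 = 1 ∧ x.2.1 = q.2.1 ∧ x.2.2.1 = q.2.2.1) ∨
  (q.1 = 1 ∧ x.1 = 2 ∧ x.2.1 = q.2.1 ∧ varIsN x.2.2 (q.2.2.2.1, q.2.2.2.2.1)) ∨
  (q.1 = 2 ∧ x.1 = 2 ∧ succ3N q.2.1 x.2.1 ∧ varIsN x.2.2 (q.2.2.2.1, q.2.2.2.2.1)) ∨
  (q.1 = 3 ∧ x.1 = 2 ∧ succ3N q.2.1 x.2.1 ∧ initN D x.2.2 (q.2.2.1, q.2.2.2.1)) ∨
  (q.1 = 3 ∧ x.1 = 1 ∧ x.2.1 = q.2.1 ∧ x.2.2.1 = 0) ∨
  (q.1 = 4 ∧ x.1 = 1 ∧ x.2.1 = q.2.1 ∧ x.2.2.1 = q.2.2.2.1 + 1) ∨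
  (q.1 = 4 ∧ x.1 = 2 ∧ ((x.2.1 = q.2.1 ∧ cur q.2.2 x.2.2) ∨
    (succ3N q.2.1 x.2.1 ∧ nxt q.2.2 x.2.2)))

section lock

variable (F : C → C → C → C) (acc : C → Prop) (blank : C) (row0 : ℤ → C)
  (hP : 0 < P) (hD : 0 < D)

theorem lVarEqN_iff (x y : LW (GW C P D) (Fin 3)) : lVarEqN (cLW e x) (cLW e y) ↔
    (game F acc blank row0 P D hP hD).lock.var x =
      (game F acc blank row0 P D hP hD).lock.var y := by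
  have h := varEqN_iff (P := P) (D := D) (e := e)
  rcases x <;> rcases y <;> simp [lVarEqN, cLW, SafetyGame.lock, game, h, Fin.val_inj]

theorem lVarIsN_iff (x : LW (GW C P D) (Fin 3)) (i : Option (Fin 3 × GV P)) :
    lVarIsN (cLW e x) (cI i) ↔ (game F acc blank row0 P D hP hD).lock.var x = i := by
  have h := varIsN_iff (P := P) (D := D) (e := e)
  rcases x <;> rcases i with _ | ⟨t, j⟩ <;>
    simp [lVarIsN, cLW, cI, SafetyGame.lock, game, h, Fin.val_inj]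

theorem nearN_iff (x y : LW (GW C P D) (Fin 3)) : nearN (cLW e x) (cLW e y) ↔
    (game F acc blank row0 P D hP hD).lock.near x y := by
  rcases x <;> rcases y <;> simp [nearN, cLW, SafetyGame.lock, Fin.val_inj]

theorem attN_iff (q : LQ (GV P) (Fin 3) (GQ C P D)) (a : Fin 3 × Option (Fin 3)) :
    attN (cLQ e q) a.1 (ob a.2) ↔ (game F acc blank row0 P D hP hD).lock.att q = a := by
  obtain ⟨t, b⟩ := a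
  have hob : ∀ b : Option (Fin 3), ob b = 0 ↔ none = b := by
    intro b
    rw [← ob_none, ob_eq_iff, eq_comm]
  have hob' : ∀ (b : Option (Fin 3)) (i : Fin 3), ob b = i + 1 ↔ some i = b := by
    intro b i
    rw [← ob_some, ob_eq_iff, eq_comm]
  rcases q with ⟨t', b'⟩ | ⟨t', b', j⟩ | ⟨t', b', j⟩ | ⟨t', j⟩ | ⟨t', q⟩
  · simp [attN, cLQ, SafetyGame.lock, Fin.val_inj]
  · simp [attN, cLQ, SafetyGame.lock, Fin.val_inj]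
  · simp [attN, cLQ, SafetyGame.lock, Fin.val_inj]
  · simp [attN, cLQ, SafetyGame.lock, Fin.val_inj, hob]
  · rcases q <;> simp [attN, cLQ, cGQ, SafetyGame.lock, Fin.val_inj, game, optL, hob']

theorem litN_iff (he : Function.Injective e) {cb : ℕ}
    (hcb : cb = oc e (some blank)) (row : ℕ → ℕ → ℕ → Prop)
    (hrow : ∀ (a : Fin D) (k : Fin 3) (c : Option C),
      row a k (oc e c) ↔ c = some (row0 ((a : ℕ) + (k : ℕ) - 2)))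
    (q : LQ (GV P) (Fin 3) (GQ C P D)) (x : LW (GW C P D) (Fin 3)) :
    litN D (curN F acc e) (nxtN P D cb row) (cLQ e q) (cLW e x) ↔
      (game F acc blank row0 P D hP hD).lock.lit q x := by
  have h1 := varIsN_iff (P := P) (D := D) (e := e)
  have h2 := curN_iff (P := P) (D := D) he F acc
  have h3 := nxtN_iff (P := P) (D := D) he blank row0 hcb row hrow
  have h4 := initN_iff (e := e) hP hD
  have hob : ∀ b : Option (Fin 3), ob b = 0 ↔ b = none := by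
    intro b
    rw [← ob_none, ob_eq_iff]
  have hob' : ∀ (b : Option (Fin 3)) (i : Fin 3), ob b = i + 1 ↔ b = some i := by
    intro b i
    rw [← ob_some, ob_eq_iff]
  rcases x with t | ⟨t, b⟩ | ⟨t, x⟩ <;>
    rcases q with ⟨t', b'⟩ | ⟨t', b', j⟩ | ⟨t', b', j⟩ | ⟨t', j⟩ | ⟨t', q⟩
  all_goals try (simp [litN, cLQ, cLW, SafetyGame.lock, Fin.val_inj, game, h1, h2, h3, h4,
    hob, hob', succ3N_iff]; done)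
  rcases q <;> simp [litN, cLQ, cLW, cGQ, SafetyGame.lock, Fin.val_inj, game, optL, hob']

end lock

end Codes

end Pool.Agent.MEternal
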