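import Mathlib

/-!
# Structured stack programs and their translation to Mathlib's stack machines
-/

namespace Pool.Agent.MEternal

open Turing

/-- Structured programs over finitely many stacks of bits. -/
inductive SP (K : Type)
  | skip : SP K
  | push (k : K) (b : Bool) : SP K
  | pop (k : K) (e f t : SP K) : SP K
  | seq (p q : SP K) : SP K
  | loop (k : K) (p : SP K) : SP K
  | each (k : K) (f t : SP K) : SP K

namespace SP

variable {K : Type} [DecidableEq K]

/-- `Run p s s' t`: the program `p` started in `s` ends in `s'` after `t` elementary steps. -/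
inductive Run : SP K → (K → List Bool) → (K → List Bool) → ℕ → Prop
  | skip (s) : Run .skip s s 0
  | push (k b s) : Run (.push k b) s (Function.update s k (b :: s k)) 1
  | pop_nil {k e f t s s' n} (h : s k = []) (hr : Run e s s' n) : Run (.pop k e f t) s s' (n + 1)
  | pop_false {k e f t s s' n l} (h : s k = false :: l) (hr : Run f (Function.update s k l) s' n) :
      Run (.pop k e f t) s s' (n + 1)
  | pop_true {k e f t s s' n l} (h : s k = true :: l) (hr : Run t (Function.update s k l) s' n) :
      Run (.pop k e f t) s s' (n + 1)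
  | seq {p q s s' s'' n m} (h : Run p s s' n) (h' : Run q s' s'' m) : Run (.seq p q) s s'' (n + m)
  | loop_nil {k p s} (h : s k = []) : Run (.loop k p) s s 1
  | loop_false {k p s l} (h : s k = false :: l) : Run (.loop k p) s (Function.update s k l) 1
  | loop_true {k p s s' s'' n m l} (h : s k = true :: l) (hr : Run p (Function.update s k l) s' n)
      (hr' : Run (.loop k p) s' s'' m) : Run (.loop k p) s s'' (n + m + 1)
  | each_nil {k f t s} (h : s k = []) : Run (.each k f t) s s 1
  | each_false {k f t s s' s'' n m l} (h : s k = false :: l)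
      (hr : Run f (Function.update s k l) s' n)
      (hr' : Run (.each k f t) s' s'' m) : Run (.each k f t) s s'' (n + m + 1)
  | each_true {k f t s s' s'' n m l} (h : s k = true :: l)
      (hr : Run t (Function.update s k l) s' n)
      (hr' : Run (.each k f t) s' s'' m) : Run (.each k f t) s s'' (n + m + 1)

/-- Labels of the machine of a program. -/
def Lab : SP K → Type
  | .skip => Empty
  | .push _ _ => Unit
  | .pop _ e f t => Unit ⊕ (Lab e ⊕ (Lab f ⊕ Lab t))
  | .seq p q => Lab p ⊕ Lab q
  | .loop _ p => Unit ⊕ Lab p
  | .each _ f t => Unit ⊕ (Lab f ⊕ Lab t)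

instance instFintypeLab : (p : SP K) → Fintype (Lab p)
  | .skip => inferInstanceAs (Fintype Empty)
  | .push _ _ => inferInstanceAs (Fintype Unit)
  | .pop _ e f t =>
    letI := instFintypeLab e
    letI := instFintypeLab f
    letI := instFintypeLab t
    inferInstanceAs (Fintype (Unit ⊕ (Lab e ⊕ (Lab f ⊕ Lab t))))
  | .seq p q =>
    letI := instFintypeLab p
    letI := instFintypeLab q
    inferInstanceAs (Fintype (Lab p ⊕ Lab q))
  | .loop _ p =>
    letI := instFintypeLab p
    inferInstanceAs (Fintype (Unit ⊕ Lab p))
  | .each _ f t =>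
    letI := instFintypeLab f
    letI := instFintypeLab t
    inferInstanceAs (Fintype (Unit ⊕ (Lab f ⊕ Lab t)))

/-- The label at which a program starts, given the embedding of its labels and the label of
what follows. -/
def entry {Λ : Type} : (p : SP K) → (Lab p → Λ) → Λ → Λ
  | .skip, _, nxt => nxt
  | .push _ _, e, _ => e ()
  | .pop _ _ _ _, e, _ => e (.inl ())
  | .seq p q, e, nxt => entry p (fun l => e (.inl l)) (entry q (fun l => e (.inr l)) nxt)
  | .loop _ _, e, _ => e (.inl ())
  | .each _ _ _, e, _ => e (.inl ())

/-- The statements of the machine of a program. -/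
def code {Λ : Type} : (p : SP K) → (Lab p → Λ) → Λ → Lab p →
    TM2.Stmt (fun _ : K => Bool) Λ (Option Bool)
  | .skip, _, _ => fun l => nomatch l
  | .push k b, _, nxt => fun _ => .push k (fun _ => b) (.goto fun _ => nxt)
  | .pop k pe pf pt, e, nxt => fun l => match l with
    | .inl () => .pop k (fun _ o => o) (.goto fun v => match v with
      | none => entry pe (fun l => e (.inr (.inl l))) nxt
      | some false => entry pf (fun l => e (.inr (.inr (.inl l)))) nxt
      | some true => entry pt (fun l => e (.inr (.inr (.inr l)))) nxt)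
    | .inr (.inl l) => code pe (fun l => e (.inr (.inl l))) nxt l
    | .inr (.inr (.inl l)) => code pf (fun l => e (.inr (.inr (.inl l)))) nxt l
    | .inr (.inr (.inr l)) => code pt (fun l => e (.inr (.inr (.inr l)))) nxt l
  | .seq p q, e, nxt => fun l => match l with
    | .inl l => code p (fun l => e (.inl l)) (entry q (fun l => e (.inr l)) nxt) l
    | .inr l => code q (fun l => e (.inr l)) nxt l
  | .loop k p, e, nxt => fun l => match l with
    | .inl () => .pop k (fun _ o => o) (.goto fun v => match v with
      | none => nxt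
      | some false => nxt
      | some true => entry p (fun l => e (.inr l)) (e (.inl ())))
    | .inr l => code p (fun l => e (.inr l)) (e (.inl ())) l
  | .each k pf pt, e, nxt => fun l => match l with
    | .inl () => .pop k (fun _ o => o) (.goto fun v => match v with
      | none => nxt
      | some false => entry pf (fun l => e (.inr (.inl l))) (e (.inl ()))
      | some true => entry pt (fun l => e (.inr (.inr l))) (e (.inl ())))
    | .inr (.inl l) => code pf (fun l => e (.inr (.inl l))) (e (.inl ())) l
    | .inr (.inr l) => code pt (fun l => e (.inr (.inr l))) (e (.inl ())) l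

/-- Iterated steps of a machine. -/
def steps {Λ : Type} (m : Λ → TM2.Stmt (fun _ : K => Bool) Λ (Option Bool)) (n : ℕ)
    (c : TM2.Cfg (fun _ : K => Bool) Λ (Option Bool)) :
    Option (TM2.Cfg (fun _ : K => Bool) Λ (Option Bool)) :=
  (flip bind (TM2.step m))^[n] (some c)

theorem steps_add {Λ : Type} (m : Λ → TM2.Stmt (fun _ : K => Bool) Λ (Option Bool)) {n n' : ℕ}
    {c c' c'' : TM2.Cfg (fun _ : K => Bool) Λ (Option Bool)} (h : steps m n c = some c')
    (h' : steps m n' c' = some c'') : steps m (n + n') c = some c'' := by
  unfold steps at *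
  rw [add_comm, Function.iterate_add_apply, h, h']

theorem steps_one {Λ : Type} (m : Λ → TM2.Stmt (fun _ : K => Bool) Λ (Option Bool))
    (l : Λ) (v : Option Bool) (s : K → List Bool) :
    steps m 1 ⟨some l, v, s⟩ = some (TM2.stepAux (m l) v s) := by
  simp [steps, flip]

theorem run_correct {Λ : Type} (m : Λ → TM2.Stmt (fun _ : K => Bool) Λ (Option Bool))
    {p : SP K} {s s' : K → List Bool} {n : ℕ} (h : Run p s s' n) :
    ∀ (e : Lab p → Λ) (nxt : Λ), (∀ l, m (e l) = code p e nxt l) → ∀ v : Option Bool,
      ∃ v' : Option Bool, steps m n ⟨some (entry p e nxt), v, s⟩ = some ⟨some nxt, v', s'⟩ := by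
  induction h with
  | skip s =>
    intro e nxt _ v
    exact ⟨v, rfl⟩
  | push k b s =>
    intro e nxt hm v
    refine ⟨v, ?_⟩
    rw [entry, steps_one, hm ()]
    rfl
  | @pop_nil k pe pf pt s s' n h hr ih =>
    intro e nxt hm v
    obtain ⟨v', hv'⟩ := ih (fun l => e (.inr (.inl l))) nxt (fun l => hm (.inr (.inl l))) none
    refine ⟨v', ?_⟩
    rw [add_comm]
    refine steps_add m ?_ hv'
    rw [entry, steps_one, hm (.inl ())]
    simp only [code, TM2.stepAux, h, List.head?_nil, List.tail_nil]
    congr 2
    rw [← h, Function.update_eq_self]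
  | @pop_false k pe pf pt s s' n l h hr ih =>
    intro e nxt hm v
    obtain ⟨v', hv'⟩ := ih (fun l => e (.inr (.inr (.inl l)))) nxt
      (fun l => hm (.inr (.inr (.inl l)))) (some false)
    refine ⟨v', ?_⟩
    rw [add_comm]
    refine steps_add m ?_ hv'
    rw [entry, steps_one, hm (.inl ())]
    simp only [code, TM2.stepAux, h, List.head?_cons, List.tail_cons]
  | @pop_true k pe pf pt s s' n l h hr ih =>
    intro e nxt hm v
    obtain ⟨v', hv'⟩ := ih (fun l => e (.inr (.inr (.inr l)))) nxt
      (fun l => hm (.inr (.inr (.inr l)))) (some true)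
    refine ⟨v', ?_⟩
    rw [add_comm]
    refine steps_add m ?_ hv'
    rw [entry, steps_one, hm (.inl ())]
    simp only [code, TM2.stepAux, h, List.head?_cons, List.tail_cons]
  | @seq p q s s' s'' n m' h h' ih ih' =>
    intro e nxt hm v
    obtain ⟨v', hv'⟩ := ih (fun l => e (.inl l)) (entry q (fun l => e (.inr l)) nxt)
      (fun l => hm (.inl l)) v
    obtain ⟨v'', hv''⟩ := ih' (fun l => e (.inr l)) nxt (fun l => hm (.inr l)) v'
    exact ⟨v'', steps_add m hv' hv''⟩
  | @loop_nil k p s h =>
    intro e nxt hm v
    refine ⟨none, ?_⟩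
    rw [entry, steps_one, hm (.inl ())]
    simp only [code, TM2.stepAux, h, List.head?_nil, List.tail_nil]
    congr 2
    rw [← h, Function.update_eq_self]
  | @loop_false k p s l h =>
    intro e nxt hm v
    refine ⟨some false, ?_⟩
    rw [entry, steps_one, hm (.inl ())]
    simp only [code, TM2.stepAux, h, List.head?_cons, List.tail_cons]
  | @loop_true k p s s' s'' n m' l h hr hr' ih ih' =>
    intro e nxt hm v
    obtain ⟨v', hv'⟩ := ih (fun l => e (.inr l)) (e (.inl ())) (fun l => hm (.inr l)) (some true)
    obtain ⟨v'', hv''⟩ := ih' e nxt hm v'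
    refine ⟨v'', ?_⟩
    rw [add_comm]
    refine steps_add m ?_ (steps_add m hv' hv'')
    rw [entry, steps_one, hm (.inl ())]
    simp only [code, TM2.stepAux, h, List.head?_cons, List.tail_cons]
  | @each_nil k pf pt s h =>
    intro e nxt hm v
    refine ⟨none, ?_⟩
    rw [entry, steps_one, hm (.inl ())]
    simp only [code, TM2.stepAux, h, List.head?_nil, List.tail_nil]
    congr 2
    rw [← h, Function.update_eq_self]
  | @each_false k pf pt s s' s'' n m' l h hr hr' ih ih' =>
    intro e nxt hm v
    obtain ⟨v', hv'⟩ := ih (fun l => e (.inr (.inl l))) (e (.inl ()))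
      (fun l => hm (.inr (.inl l))) (some false)
    obtain ⟨v'', hv''⟩ := ih' e nxt hm v'
    refine ⟨v'', ?_⟩
    rw [add_comm]
    refine steps_add m ?_ (steps_add m hv' hv'')
    rw [entry, steps_one, hm (.inl ())]
    simp only [code, TM2.stepAux, h, List.head?_cons, List.tail_cons]
  | @each_true k pf pt s s' s'' n m' l h hr hr' ih ih' =>
    intro e nxt hm v
    obtain ⟨v', hv'⟩ := ih (fun l => e (.inr (.inr l))) (e (.inl ()))
      (fun l => hm (.inr (.inr l))) (some true)
    obtain ⟨v'', hv''⟩ := ih' e nxt hm v'
    refine ⟨v'', ?_⟩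
    rw [add_comm]
    refine steps_add m ?_ (steps_add m hv' hv'')
    rw [entry, steps_one, hm (.inl ())]
    simp only [code, TM2.stepAux, h, List.head?_cons, List.tail_cons]

/-- The statements of the machine of a program. -/
def mm (p : SP K) : Option (Lab p) → TM2.Stmt (fun _ : K => Bool) (Option (Lab p)) (Option Bool)
  | none => .load (fun _ => none) .halt
  | some l => code p some none l

/-- The machine of a program. -/
def machine [Fintype K] (p : SP K) (k₀ k₁ : K) : FinTM2 where
  K := K
  k₀ := k₀
  k₁ := k₁
  Γ := fun _ => Bool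
  Λ := Option (Lab p)
  main := entry p some none
  σ := Option Bool
  initialState := none
  Γk₀Fin := inferInstanceAs (Fintype Bool)
  m := mm p

theorem stk_aux (k₀ : K) (w : List Bool) (F : ∀ k : K, k = k₀ → List Bool)
    (hF : ∀ k h, F k h = w) (d : ∀ k : K, Decidable (k = k₀)) :
    (fun k : K => @dite (List Bool) (k = k₀) (d k) (F k) fun _ => []) =
      Function.update (fun _ => []) k₀ w := by
  funext k
  by_cases hk : k = k₀
  · rw [dif_pos hk, hF, hk, Function.update_self]
  · rw [dif_neg hk, Function.update_of_ne hk]

theorem initList_eq [Fintype K] (p : SP K) (k₀ k₁ : K) (w : List Bool) :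
    initList (machine p k₀ k₁) w =
      (⟨some (entry p some none), none, Function.update (fun _ => []) k₀ w⟩ :
        TM2.Cfg (fun _ : K => Bool) (Option (Lab p)) (Option Bool)) := by
  have h1 : ((initList (machine p k₀ k₁) w).stk : K → List Bool) =
      Function.update (fun _ => []) k₀ w := by
    refine stk_aux k₀ w _ ?_ _
    intro k h
    subst h
    rfl
  have h2 : initList (machine p k₀ k₁) w =
    (⟨some (entry p some none), none, (initList (machine p k₀ k₁) w).stk⟩ :
        TM2.Cfg (fun _ : K => Bool) (Option (Lab p)) (Option Bool)) := rfl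
  rw [h2]
  exact congrArg (fun S => (⟨some (entry p some none), none, S⟩ :
        TM2.Cfg (fun _ : K => Bool) (Option (Lab p)) (Option Bool))) h1

theorem haltList_eq [Fintype K] (p : SP K) (k₀ k₁ : K) (w : List Bool) :
    haltList (machine p k₀ k₁) w =
      (⟨none, none, Function.update (fun _ => []) k₁ w⟩ :
        TM2.Cfg (fun _ : K => Bool) (Option (Lab p)) (Option Bool)) := by
  have h1 : ((haltList (machine p k₀ k₁) w).stk : K → List Bool) =
      Function.update (fun _ => []) k₁ w := by
    refine stk_aux k₁ w _ ?_ _
    intro k h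
    subst h
    rfl
  have h2 : haltList (machine p k₀ k₁) w =
    (⟨none, none, (haltList (machine p k₀ k₁) w).stk⟩ :
        TM2.Cfg (fun _ : K => Bool) (Option (Lab p)) (Option Bool)) := rfl
  rw [h2]
  exact congrArg (fun S => (⟨none, none, S⟩ :
        TM2.Cfg (fun _ : K => Bool) (Option (Lab p)) (Option Bool))) h1

/-- A function computed by a program within a polynomial number of steps is computable in
polynomial time in the sense of Mathlib. -/
theorem toPolyTime [Fintype K] (p : SP K) (k₀ k₁ : K) (f : List Bool → List Bool)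
    (q : Polynomial ℕ)
    (h : ∀ w : List Bool, ∃ n ≤ q.eval w.length,
      Run p (Function.update (fun _ => []) k₀ w) (Function.update (fun _ => []) k₁ (f w)) n) :
    Nonempty (TM2ComputableInPolyTime (id : List Bool → List Bool) (id : List Bool → List Bool)
      f) := by
  have hn : ∀ w : List Bool, ∃ n ≤ q.eval w.length, steps (mm p) (n + 1)
        ⟨some (entry p some none), none, Function.update (fun _ => []) k₀ w⟩ =
          some ⟨none, none, Function.update (fun _ => []) k₁ (f w)⟩ := by
    intro w
    obtain ⟨n, hn, hr⟩ := h w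
    obtain ⟨v, hv⟩ := run_correct (mm p) hr some none (fun l => rfl) none
    refine ⟨n, hn, steps_add _ hv ?_⟩
    rw [steps_one]
    rfl
  choose n hn1 hn2 using hn
  refine ⟨{ tm := machine p k₀ k₁, inputAlphabet := Equiv.refl Bool,
            outputAlphabet := Equiv.refl Bool, time := q + 1, outputsFun := fun w => ?_ }⟩
  refine ⟨⟨n w + 1, ?_⟩, ?_⟩
  · have e1 : (List.map (Equiv.refl Bool).invFun (id w) : List Bool) = w := by
      simp
    have e2 : (List.map (Equiv.refl Bool).invFun (id (f w)) : List Bool) = f w := by
      simp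
    have h1 := (congrArg (initList (machine p k₀ k₁)) e1).trans (initList_eq p k₀ k₁ w)
    have h2 := (congrArg (haltList (machine p k₀ k₁)) e2).trans (haltList_eq p k₀ k₁ (f w))
    have h3 : (flip bind (machine p k₀ k₁).step)^[n w + 1]
        (some (initList (machine p k₀ k₁) (List.map (Equiv.refl Bool).invFun (id w)))) =
        (flip bind (TM2.step (mm p)))^[n w + 1]
          (some ⟨some (entry p some none), none, Function.update (fun _ => []) k₀ w⟩) :=
      congrArg (fun c => (flip bind (machine p k₀ k₁).step)^[n w + 1] (some c)) h1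
    exact h3.trans ((hn2 w).trans (congrArg some h2.symm))
  · simp only [Polynomial.eval_add, Polynomial.eval_one]
    exact Nat.succ_le_succ (hn1 w)

end SP

end Pool.Agent.MEternal
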