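import Pool.Agent.MEternal.Lock

/-!
# Safety games given by clauses, and their lock games
-/

namespace Pool.Agent.MEternal

/-- A safety game given by clauses: variables `J`, values `W` (each belonging to one variable),
options `B` of the attacker, clauses `Q`. Clause `q` is used when the attacker plays `opt q`; it
holds if the current state has a value in `cur q` or the next state has a value in `nxt q`. -/
structure SafetyGame (J W B Q : Type*) where
  var : W → J
  init : J → W
  opt : Q → B
  cur : Q → W → Prop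
  nxt : Q → W → Prop

namespace SafetyGame

variable {J W B Q : Type*}

/-- The defender may answer `b` in state `x` by moving to state `x'`. -/
def Trans (G : SafetyGame J W B Q) (b : B) (x x' : J → W) : Prop :=
  ∀ q, G.opt q = b → (∃ w, G.cur q w ∧ x (G.var w) = w) ∨ (∃ w, G.nxt q w ∧ x' (G.var w) = w)

/-- The defender wins from the initial state. -/
def DefenderWins (G : SafetyGame J W B Q) : Prop :=
  ∃ S : Set (J → W), G.init ∈ S ∧ (∀ x ∈ S, ∀ j, G.var (x j) = j) ∧
    ∀ x ∈ S, ∀ b, ∃ x' ∈ S, G.Trans b x x'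

end SafetyGame

/-- Values of the lock game of a safety game. -/
inductive LW (W B : Type*)
  | eps (t : Fin 3) : LW W B
  | esc (t : Fin 3) (b : Option B) : LW W B
  | buf (t : Fin 3) (w : W) : LW W B
  deriving DecidableEq, Fintype

/-- Clauses of the lock game of a safety game. -/
inductive LQ (J B Q : Type*)
  | phase (t : Fin 3) (b : Option B) : LQ J B Q
  | hold (t : Fin 3) (b : Option B) (j : J) : LQ J B Q
  | fill (t : Fin 3) (b : Option B) (j : J) : LQ J B Q
  | reset (t : Fin 3) (j : J) : LQ J B Q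
  | game (t : Fin 3) (q : Q) : LQ J B Q
  deriving DecidableEq, Fintype

namespace SafetyGame

variable {J W B Q : Type*}

/-- The phase of a value of the escape variable. -/
def phase : LW W B → Option (Fin 3)
  | .eps t => some t
  | .esc t _ => some t
  | .buf _ _ => none

/-- The lock game of a safety game. -/
def lock (G : SafetyGame J W B Q) :
    LockGame (Option (Fin 3 × J)) (LW W B) (Fin 3 × Option B) (LQ J B Q) where
  var := fun w => match w with
    | .eps _ => none
    | .esc _ _ => none
    | .buf t w => some (t, G.var w)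
  near := fun x y => match x, y with
    | .eps t, .eps t' => t ≠ t'
    | .eps t, .esc t' _ => t ≠ t'
    | .esc t _, .eps t' => t ≠ t'
    | .esc t _, .esc t' _ => t ≠ t'
    | _, _ => False
  att := fun q => match q with
    | .phase t b => (t, b)
    | .hold t b _ => (t, b)
    | .fill t b _ => (t, b)
    | .reset t _ => (t, none)
    | .game t q => (t, some (G.opt q))
  lit := fun q w => match q, w with
    | .phase t _, .eps t' => t' = t + 1
    | .phase t b, .esc t' b' => t' = t ∧ b' = b
    | .hold t _ j, .buf t' w => t' = t ∧ G.var w = j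
    | .hold t b _, .esc t' b' => t' = t ∧ b' = b
    | .fill t _ j, .buf t' w => t' = t + 1 ∧ G.var w = j
    | .fill t b _, .esc t' b' => t' = t ∧ b' = b
    | .reset t j, .buf t' w => t' = t + 1 ∧ w = G.init j
    | .reset t _, .esc t' b' => t' = t ∧ b' = none
    | .game t q, .buf t' w => (t' = t ∧ G.cur q w) ∨ (t' = t + 1 ∧ G.nxt q w)
    | .game t q, .esc t' b' => t' = t ∧ b' = some (G.opt q)
    | _, _ => False

theorem fin3_ne (t : Fin 3) : t ≠ t + 1 := by
  revert t; decide

theorem fin3_ne' (t : Fin 3) : t + 1 ≠ t := by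
  revert t; decide

theorem lock_sound [Nonempty B] (G : SafetyGame J W B Q) (hG : ∀ j, G.var (G.init j) = j)
    {S : Set (Option (Fin 3 × J) → Option (LW W B))} (hne : S.Nonempty)
    (hS : G.lock.Closed S) : G.DefenderWins := by
  obtain ⟨hS1, hS2⟩ := hS
  -- phase clause
  have hphase : ∀ s' ∈ S, ∀ t b, (∀ q, G.lock.att q = (t, b) →
      ∃ x, G.lock.lit q x ∧ s' (G.lock.var x) = some x) →
      s' none = some (.eps (t + 1)) ∨ s' none = some (.esc t b) := by
    intro s' _ t b h
    obtain ⟨x, hx, hx'⟩ := h (.phase t b) rfl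
    rcases x with t' | ⟨t', b'⟩ | ⟨t', w⟩
    · left
      simp only [lock] at hx hx'
      rw [hx'.trans (by rw [hx])]
    · right
      simp only [lock] at hx hx'
      rw [hx'.trans (by rw [hx.1, hx.2])]
    · simp [lock] at hx
  refine ⟨{x | (∀ j, G.var (x j) = j) ∧ ∃ t, ∃ s ∈ S, s none = some (.eps t) ∧
    ∀ j, s (some (t, j)) = some (.buf t (x j))}, ?_, fun x hx => hx.1, ?_⟩
  · refine ⟨hG, ?_⟩
    obtain ⟨s0, hs0⟩ := hne
    obtain ⟨b0⟩ := ‹Nonempty B›
    obtain ⟨s1, hs1, -, hc1⟩ := hS2 s0 hs0 (0, some b0)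
    -- reset clause
    have hreset : ∀ s' ∈ S, ∀ t, s' none = some (.eps (t + 1)) →
        (∀ q, G.lock.att q = (t, none) → ∃ x, G.lock.lit q x ∧ s' (G.lock.var x) = some x) →
        ∀ j, s' (some (t + 1, j)) = some (.buf (t + 1) (G.init j)) := by
      intro s' hs' t he h j
      obtain ⟨x, hx, hx'⟩ := h (.reset t j) rfl
      rcases x with t' | ⟨t', b'⟩ | ⟨t', w⟩
      · simp [lock] at hx
      · simp only [lock] at hx'
        rw [he] at hx'
        simp at hx'
      · simp only [lock] at hx hx'
        obtain ⟨rfl, rfl⟩ := hx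
        rw [hG j] at hx'
        exact hx'
    rcases hphase s1 hs1 0 (some b0) hc1 with he | he
    · obtain ⟨s2, hs2, hm, hc2⟩ := hS2 s1 hs1 (0 + 1, none)
      rcases hphase s2 hs2 _ _ hc2 with he2 | he2
      · exact ⟨_, s2, hs2, he2, hreset s2 hs2 _ he2 hc2⟩
      · have := hm none _ _ he he2
        simp [lock] at this
    · obtain ⟨s2, hs2, hm, hc2⟩ := hS2 s1 hs1 (0, none)
      rcases hphase s2 hs2 _ _ hc2 with he2 | he2
      · exact ⟨_, s2, hs2, he2, hreset s2 hs2 _ he2 hc2⟩
      · have := hm none _ _ he he2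
        simp [lock] at this
  · rintro x ⟨hx, t, s, hs, he, hbuf⟩ b
    obtain ⟨s', hs', hm, hc⟩ := hS2 s hs (t, some b)
    have he' : s' none = some (.eps (t + 1)) := by
      rcases hphase s' hs' _ _ hc with he2 | he2
      · exact he2
      · have := hm none _ _ he he2
        simp [lock] at this
    have hhold : ∀ j, s' (some (t, j)) = some (.buf t (x j)) := by
      intro j
      obtain ⟨y, hy, hy'⟩ := hc (.hold t (some b) j) rfl
      rcases y with t' | ⟨t', b'⟩ | ⟨t', w⟩
      · simp [lock] at hy
      · simp only [lock] at hy'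
        rw [he'] at hy'
        simp at hy'
      · simp only [lock] at hy hy'
        obtain ⟨rfl, rfl⟩ := hy
        have := hm _ _ _ (hbuf (G.var w)) hy'
        simp only [lock, or_false, LW.buf.injEq, true_and] at this
        rw [hy', this]
    have hfill : ∀ j, ∃ w, G.var w = j ∧ s' (some (t + 1, j)) = some (.buf (t + 1) w) := by
      intro j
      obtain ⟨y, hy, hy'⟩ := hc (.fill t (some b) j) rfl
      rcases y with t' | ⟨t', b'⟩ | ⟨t', w⟩
      · simp [lock] at hy
      · simp only [lock] at hy'
        rw [he'] at hy'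
        simp at hy'
      · simp only [lock] at hy hy'
        obtain ⟨rfl, rfl⟩ := hy
        exact ⟨w, rfl, hy'⟩
    choose x' hx' hx'' using hfill
    refine ⟨x', ⟨hx', t + 1, s', hs', he', hx''⟩, ?_⟩
    intro q hq
    obtain ⟨y, hy, hy'⟩ := hc (.game t q) (by simp [lock, hq])
    rcases y with t' | ⟨t', b'⟩ | ⟨t', w⟩
    · simp [lock] at hy
    · simp only [lock] at hy'
      rw [he'] at hy'
      simp at hy'
    · simp only [lock] at hy hy'
      rcases hy with ⟨rfl, hy⟩ | ⟨rfl, hy⟩
      · left
        refine ⟨w, hy, ?_⟩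
        have := (hhold (G.var w)).symm.trans hy'
        simpa using this
      · right
        refine ⟨w, hy, ?_⟩
        have := (hx'' (G.var w)).symm.trans hy'
        simpa using this

/-- The assignment with escape value `e` and buffers `u`. -/
def mkA (e : Option (LW W B)) (u : Fin 3 → Option (J → W)) :
    Option (Fin 3 × J) → Option (LW W B)
  | none => e
  | some (t, j) => (u t).map fun x => .buf t (x j)

theorem fin3_cases (t t' : Fin 3) : t' = t ∨ t' = t + 1 ∨ (t' ≠ t ∧ t' ≠ t + 1 ∧ t' = t + 1 + 1) := by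
  revert t t'; decide

theorem fin3_ne'' (t : Fin 3) : t + 1 + 1 ≠ t := by
  revert t; decide

theorem lock_complete (G : SafetyGame J W B Q) (hG : ∀ j, G.var (G.init j) = j)
    (hw : G.DefenderWins) :
    ∃ S : Set (Option (Fin 3 × J) → Option (LW W B)), G.lock.Closed S ∧
      (fun _ => none) ∈ S ∧ ∀ x s, (∀ i, s i = some x ∨ s i = none) →
        (∀ i y, s i = some y → G.lock.var y = i) → s ∈ S := by
  obtain ⟨S, hi, hS1, hS2⟩ := hw
  have hresp : ∀ x ∈ S, ∀ b : Option B, ∃ x' ∈ S, (b = none → x' = G.init) ∧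
      ∀ b', b = some b' → G.Trans b' x x' := by
    intro x hx b
    rcases b with _ | b
    · exact ⟨G.init, hi, fun _ => rfl, by simp⟩
    · obtain ⟨x', hx', h⟩ := hS2 x hx b
      exact ⟨x', hx', by simp, by rintro b' ⟨⟩; exact h⟩
  let V : Set (Option (Fin 3 × J) → Option (LW W B)) :=
    {s | ∀ i y, s i = some y → G.lock.var y = i}
  let S1 : Set (Option (Fin 3 × J) → Option (LW W B)) := {s | s ∈ V ∧ ∀ i, s (some i) = none}
  let S2 : Set (Option (Fin 3 × J) → Option (LW W B)) := {s | s ∈ V ∧ s none = none}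
  let S3 : Set (Option (Fin 3 × J) → Option (LW W B)) := {s | s ∈ V ∧ ∃ t, ∃ x ∈ S,
    s none = some (.eps t) ∧ (∀ j, s (some (t, j)) = some (.buf t (x j))) ∧
      ∀ j, s (some (t + 1, j)) = none}
  -- escape
  have hesc : ∀ s ∈ V, ∀ t b, (∀ y, s none = some y → y = .esc t b ∨ phase y ≠ some t) →
      ∃ s' ∈ S1, G.lock.Step (t, b) s s' := by
    intro s hs t b h
    refine ⟨mkA (some (.esc t b)) (fun _ => none), ⟨?_, ?_⟩, ?_, ?_⟩
    · rintro (_ | ⟨t', j⟩) y hy
      · simp only [mkA, Option.some.injEq] at hy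
        subst hy; rfl
      · simp [mkA] at hy
    · rintro ⟨t', j⟩; simp [mkA]
    · rintro (_ | ⟨t', j⟩) x y hx hy
      · simp only [mkA, Option.some.injEq] at hy
        subst hy
        rcases h x hx with h1 | h1
        · exact Or.inl h1
        · right; left
          have hv := hs _ _ hx
          rcases x with t' | ⟨t', b'⟩ | ⟨t', w⟩
          · simpa [lock, phase] using h1
          · simpa [lock, phase] using h1
          · simp [lock] at hv
      · simp [mkA] at hy
    · rintro q hq
      refine ⟨.esc t b, ?_, by simp [lock, mkA]⟩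
      rcases q with ⟨t', b'⟩ | ⟨t', b', j⟩ | ⟨t', b', j⟩ | ⟨t', j⟩ | ⟨t', q⟩ <;>
        simp only [lock, Prod.mk.injEq] at hq ⊢ <;> simp [hq]
  -- write
  have hwrite : ∀ s ∈ V, ∀ t b, ∀ x ∈ S, (∀ y, s none = some y → phase y = some t) →
      (∀ j, s (some (t, j)) = none ∨ s (some (t, j)) = some (.buf t (x j))) →
      (∀ j, s (some (t + 1, j)) = none) →
      ∃ s' ∈ S3, G.lock.Step (t, b) s s' := by
    intro s hs t b x hx h1 h2 h3
    obtain ⟨x', hx', hn, hb⟩ := hresp x hx b
    refine ⟨mkA (some (.eps (t + 1))) (fun t' => if t' = t then some x else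
      if t' = t + 1 then some x' else none), ⟨?_, t + 1, x', hx', rfl, ?_, ?_⟩, ?_, ?_⟩
    · rintro (_ | ⟨t', j⟩) y hy
      · simp only [mkA, Option.some.injEq] at hy
        subst hy; rfl
      · simp only [mkA, Option.map_eq_some_iff] at hy
        obtain ⟨z, hz, rfl⟩ := hy
        have hzS : z ∈ S := by
          split_ifs at hz
          · simp at hz; exact hz ▸ hx
          · simp at hz; exact hz ▸ hx'
        simp [lock, hS1 z hzS j]
    · intro j
      simp [mkA, fin3_ne']
    · intro j
      simp [mkA, fin3_ne'', fin3_ne']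
    · rintro (_ | ⟨t', j⟩) y z hy hz
      · simp only [mkA, Option.some.injEq] at hz
        subst hz
        right; left
        have hv := hs _ _ hy
        have hp := h1 y hy
        rcases y with t' | ⟨t', b'⟩ | ⟨t', w⟩
        · simp only [phase, Option.some.injEq] at hp
          subst hp
          simpa [lock] using fin3_ne t'
        · simp only [phase, Option.some.injEq] at hp
          subst hp
          simpa [lock] using fin3_ne t'
        · simp [lock] at hv
      · rcases fin3_cases t t' with rfl | rfl | ⟨h4, h5, -⟩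
        · rcases h2 j with h | h
          · rw [h] at hy; simp at hy
          · rw [h] at hy
            simp [mkA] at hy hz
            left; rw [← hy, ← hz]
        · rw [h3 j] at hy; simp at hy
        · simp [mkA, h4, h5] at hz
    · rintro q hq
      rcases q with ⟨t', b'⟩ | ⟨t', b', j⟩ | ⟨t', b', j⟩ | ⟨t', j⟩ | ⟨t', q⟩ <;>
        simp only [lock, Prod.mk.injEq] at hq
      · obtain ⟨rfl, rfl⟩ := hq
        exact ⟨.eps (t' + 1), rfl, rfl⟩
      · obtain ⟨rfl, rfl⟩ := hq
        exact ⟨.buf t' (x j), ⟨rfl, hS1 x hx j⟩, by simp [lock, mkA, hS1 x hx j]⟩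
      · obtain ⟨rfl, rfl⟩ := hq
        exact ⟨.buf (t' + 1) (x' j), ⟨rfl, hS1 x' hx' j⟩, by
          simp [lock, mkA, hS1 x' hx' j, fin3_ne']⟩
      · obtain ⟨rfl, rfl⟩ := hq
        have hn' := hn rfl
        refine ⟨.buf (t' + 1) (G.init j), ⟨rfl, rfl⟩, ?_⟩
        simp [lock, mkA, hG j, fin3_ne', hn']
      · obtain ⟨rfl, rfl⟩ := hq
        rcases hb _ rfl q rfl with ⟨w, hw1, hw2⟩ | ⟨w, hw1, hw2⟩
        · exact ⟨.buf t' w, Or.inl ⟨rfl, hw1⟩, by simp [lock, mkA, hw2]⟩
        · exact ⟨.buf (t' + 1) w, Or.inr ⟨rfl, hw1⟩, by simp [lock, mkA, hw2, fin3_ne']⟩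
  refine ⟨S1 ∪ S2 ∪ S3, ⟨?_, ?_⟩, ?_, ?_⟩
  · rintro s ((hs | hs) | hs) <;> exact hs.1
  · rintro s ((hs | hs) | hs) ⟨t, b⟩
    · by_cases h : ∀ y, s none = some y → y = .esc t b ∨ phase y ≠ some t
      · obtain ⟨s', hs', h'⟩ := hesc s hs.1 t b h
        exact ⟨s', Or.inl (Or.inl hs'), h'⟩
      · push Not at h
        obtain ⟨y, hy, -, hyt⟩ := h
        obtain ⟨s', hs', h'⟩ := hwrite s hs.1 t b G.init hi
          (by intro z hz; rw [hy] at hz; cases hz; exact hyt)
          (fun j => Or.inl (hs.2 _)) (fun j => hs.2 _)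
        exact ⟨s', Or.inr hs', h'⟩
    · obtain ⟨s', hs', h'⟩ := hesc s hs.1 t b (by intro y hy; rw [hs.2] at hy; simp at hy)
      exact ⟨s', Or.inl (Or.inl hs'), h'⟩
    · obtain ⟨hV, t0, x, hx, he, hb, hn⟩ := hs
      by_cases ht : t0 = t
      · subst ht
        obtain ⟨s', hs', h'⟩ := hwrite s hV t0 b x hx
          (by intro z hz; rw [he] at hz; cases hz; rfl) (fun j => Or.inr (hb j)) hn
        exact ⟨s', Or.inr hs', h'⟩
      · obtain ⟨s', hs', h'⟩ := hesc s hV t b (by
          intro y hy; rw [he] at hy; cases hy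
          right; simpa [phase] using ht)
        exact ⟨s', Or.inl (Or.inl hs'), h'⟩
  · exact Or.inl (Or.inr ⟨by intro i y hy; simp at hy, rfl⟩)
  · intro x s hs hV
    rcases hs none with h | h
    · left; left
      refine ⟨hV, fun i => ?_⟩
      rcases hs (some i) with h' | h'
      · have h1 := hV _ _ h
        have h2 := hV _ _ h'
        rw [h1] at h2
        simp at h2
      · exact h'
    · exact Or.inl (Or.inr ⟨hV, h⟩)

/-- The graph of a safety game has m-eternal domination number at most the number of its cells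
if and only if the defender wins the safety game. -/
theorem number_le_iff_defenderWins [Fintype J] [Fintype W] [Fintype B] [Fintype Q] [Nonempty B]
    [DecidableEq J] [DecidableEq W] [DecidableEq B] [DecidableEq Q]
    (G : SafetyGame J W B Q) (hG : ∀ j, G.var (G.init j) = j) :
    mEternalDominationNumber G.lock.graph ≤
      Fintype.card (Option (Fin 3 × J)) + Fintype.card (LW W B) + 1 ↔ G.DefenderWins := by
  rw [number_le_iff]
  constructor
  · rintro ⟨k', hk', 𝒞, h𝒞⟩
    obtain ⟨S, hne, hS⟩ := LockGame.soundness h𝒞 hk'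
    exact lock_sound G hG hne hS
  · intro h
    obtain ⟨S, hS, h0, h1⟩ := lock_complete G hG h
    obtain ⟨𝒞, h𝒞⟩ := LockGame.completeness hS h0 (fun x => by
      refine h1 x _ (fun i => ?_) (fun i y hy => ?_)
      · by_cases h : G.lock.var x = i
        · left; simp [h]
        · right; simp [h]
      · by_cases h : G.lock.var x = i
        · simp [h] at hy; rw [← hy, h]
        · simp [h] at hy)
    exact ⟨_, le_rfl, 𝒞, h𝒞⟩

end SafetyGame

end Pool.Agent.MEternal
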