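import Pool.Agent.MEternal.CAWin

/-!
# Turing machines as cellular automata
-/

namespace Pool.Agent.MEternal

open Turing

namespace TMRow

variable {Γ Λ : Type} [Inhabited Γ] [Inhabited Λ]

/-- The state entering a cell from its left neighbour. -/
def fromL (M : TM0.Machine Γ Λ) : Γ × Option Λ → Option Λ
  | (a, some q) => match M q a with
    | some (q', .move .right) => some q'
    | _ => none
  | (_, none) => none

/-- The state entering a cell from its right neighbour. -/
def fromR (M : TM0.Machine Γ Λ) : Γ × Option Λ → Option Λ
  | (a, some q) => match M q a with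
    | some (q', .move .left) => some q'
    | _ => none
  | (_, none) => none

/-- The local rule of the cellular automaton of a machine. -/
def caF (M : TM0.Machine Γ Λ) (l c r : Γ × Option Λ) : Γ × Option Λ :=
  match c with
  | (a, some q) => match M q a with
    | none => (a, some q)
    | some (q', .write b) => (b, some q')
    | some (_, .move _) => (a, none)
  | (a, none) => (a, (fromL M l).orElse fun _ => fromR M r)

/-- Accepting symbols: the head is there, the machine has halted, in an accepting state. -/
def caAcc (M : TM0.Machine Γ Λ) (acc : Λ → Prop) (c : Γ × Option Λ) : Prop :=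
  ∃ a q, c = (a, some q) ∧ M q a = none ∧ acc q

/-- One step of the machine, together with the position of the head; nothing happens if the
machine has halted. -/
def next (M : TM0.Machine Γ Λ) (p : TM0.Cfg Γ Λ × ℤ) : TM0.Cfg Γ Λ × ℤ :=
  match M p.1.q p.1.Tape.head with
  | none => p
  | some (q', .move .left) => (⟨q', p.1.Tape.move .left⟩, p.2 - 1)
  | some (q', .move .right) => (⟨q', p.1.Tape.move .right⟩, p.2 + 1)
  | some (q', .write b) => (⟨q', p.1.Tape.write b⟩, p.2)

/-- The content of a cell. -/
def cont (p : TM0.Cfg Γ Λ × ℤ) (j : ℤ) : Γ × Option Λ :=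
  (p.1.Tape.nth (j - p.2), if j = p.2 then some p.1.q else none)

theorem cont_next (M : TM0.Machine Γ Λ) (p : TM0.Cfg Γ Λ × ℤ) (j : ℤ) :
    cont (next M p) j = caF M (cont p (j - 1)) (cont p j) (cont p (j + 1)) := by
  obtain ⟨⟨q, T⟩, h⟩ := p
  by_cases hj : j = h
  · subst hj
    rcases hM : M q T.head with _ | ⟨q', _ | b⟩
    · simp [next, cont, caF, hM]
    · rename_i d
      rcases d with _ | _
      · simp only [next, cont, caF, hM, Tape.move_left_nth, sub_self, Tape.nth_zero, if_true]
        rw [if_neg (by omega)]
        simp
      · simp [next, cont, caF, hM]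
    · simp [next, cont, caF, hM, Tape.write]
  · have hj' : j - h ≠ 0 := sub_ne_zero.2 hj
    have hc : cont (⟨q, T⟩, h) j = (T.nth (j - h), none) := by simp [cont, hj]
    rw [hc]
    simp only [caF]
    have hl : fromL M (cont (⟨q, T⟩, h) (j - 1)) = if j - 1 = h then
        (match M q T.head with
          | some (q', .move .right) => some q'
          | _ => none) else none := by
      by_cases hjl : j - 1 = h
      · simp [cont, hjl, fromL]
      · simp [cont, hjl, fromL]
    have hr : fromR M (cont (⟨q, T⟩, h) (j + 1)) = if j + 1 = h then
        (match M q T.head with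
          | some (q', .move .left) => some q'
          | _ => none) else none := by
      by_cases hjl : j + 1 = h
      · simp [cont, hjl, fromR]
      · simp [cont, hjl, fromR]
    rw [hl, hr]
    rcases hM : M q T.head with _ | ⟨q', _ | b⟩
    · simp [next, cont, hM, hj]
    · rename_i d
      rcases d with _ | _
      · simp only [next, cont, hM, Tape.move_left_nth]
        have e1 : j - (h - 1) - 1 = j - h := by ring
        rw [e1]
        by_cases hjr : j + 1 = h
        · have : j = h - 1 := by omega
          simp [this]
        · have : ¬ j = h - 1 := by omega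
          simp [this, hjr]
      · simp only [next, cont, hM, Tape.move_right_nth]
        have e1 : j - (h + 1) + 1 = j - h := by ring
        rw [e1]
        by_cases hjr : j - 1 = h
        · have : j = h + 1 := by omega
          simp [this]
        · have : ¬ j = h + 1 := by omega
          simp [this, hjr]
    · simp [next, cont, hM, hj, hj']

/-- The configuration and head position after `t` steps. -/
def run (M : TM0.Machine Γ Λ) (l : List Γ) (t : ℕ) : TM0.Cfg Γ Λ × ℤ :=
  (next M)^[t] (TM0.init l, 0)

theorem run_succ (M : TM0.Machine Γ Λ) (l : List Γ) (t : ℕ) :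
    run M l (t + 1) = next M (run M l t) := by
  unfold run
  rw [Function.iterate_succ_apply']

theorem row_eq (M : TM0.Machine Γ Λ) (l : List Γ) (t : ℕ) :
    CAGame.row (caF M) (cont (run M l 0)) t = cont (run M l t) := by
  induction t with
  | zero => rfl
  | succ t ih =>
    funext j
    rw [run_succ, cont_next]
    simp only [CAGame.row]
    rw [ih]

theorem head_le (M : TM0.Machine Γ Λ) (l : List Γ) (t : ℕ) : |(run M l t).2| ≤ t := by
  induction t with
  | zero => simp [run]
  | succ t ih =>
    rw [run_succ]
    have : |(next M (run M l t)).2| ≤ |(run M l t).2| + 1 := by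
      unfold next
      rcases hM : M (run M l t).1.q (run M l t).1.Tape.head with _ | ⟨q', _ | b⟩
      · simp
      · rename_i d
        rcases d with _ | _
        · simp only
          have := abs_sub (run M l t).2 1
          simpa using this
        · simp only
          have := abs_add_le (run M l t).2 1
          simpa using this
      · simp
    push_cast
    linarith

/-- Iterating the step function of the machine agrees with `run` as long as it does not halt. -/
theorem evals_eq (M : TM0.Machine Γ Λ) (l : List Γ) (t : ℕ) (c : TM0.Cfg Γ Λ)
    (h : (flip bind (TM0.step M))^[t] (some (TM0.init l)) = some c) : (run M l t).1 = c := by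
  induction t generalizing c with
  | zero => simpa [run] using h
  | succ t ih =>
    rw [Function.iterate_succ_apply'] at h
    rcases hc : (flip bind (TM0.step M))^[t] (some (TM0.init l)) with _ | c'
    · rw [hc] at h
      simp [flip] at h
    · rw [hc] at h
      have h' : TM0.step M c' = some c := by simpa [flip] using h
      rw [run_succ]
      have := ih c' hc
      unfold next
      rw [this]
      rcases c' with ⟨q, T⟩
      simp only [TM0.step, Option.map_eq_some_iff] at h'
      obtain ⟨⟨q', a⟩, hM, hc'⟩ := h'
      have hM' : M q T.head = some (q', a) := hM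
      rcases a with d | b
      · rcases d with _ | _
        · simp only [hM']
          exact hc'
        · simp only [hM']
          exact hc'
      · simp only [hM']
        exact hc'

theorem run_halted (M : TM0.Machine Γ Λ) (l : List Γ) (t : ℕ)
    (h : M (run M l t).1.q (run M l t).1.Tape.head = none) (t' : ℕ) (ht : t ≤ t') :
    run M l t' = run M l t := by
  induction t', ht using Nat.le_induction with
  | base => rfl
  | succ t' _ ih =>
    rw [run_succ, ih]
    unfold next
    rw [h]

/-- The tableau game of a machine. -/
def tmGame (M : TM0.Machine Γ Λ) (acc : Λ → Prop) (l : List Γ) (P D : ℕ) (hP : 0 < P)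
    (hD : 0 < D) :=
  CAGame.game (caF M) (caAcc M acc) (default, none) (cont (run M l 0)) P D hP hD

theorem tmGame_iff (M : TM0.Machine Γ Λ) (acc : Λ → Prop) (l : List Γ) (P D : ℕ) (hP : 0 < P)
    (hD : 0 < D) (hD3 : l.length + 3 ≤ D) {t : ℕ} (ht : t ≤ D ^ P - 2) {c : TM0.Cfg Γ Λ}
    (hc : (flip bind (TM0.step M))^[t] (some (TM0.init l)) = some c)
    (hh : TM0.step M c = none) :
    (tmGame M acc l P D hP hD).DefenderWins ↔ acc c.q := by
  have hD2 : 2 ≤ D := by omega
  have hrun := evals_eq M l t c hc
  have hM : M (run M l t).1.q (run M l t).1.Tape.head = none := by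
    rw [hrun]
    rcases c with ⟨q, T⟩
    simpa [TM0.step] using hh
  have hrow : ∀ τ : ℤ, (τ < 0 ∨ (D : ℤ) - 2 ≤ τ) → cont (run M l 0) τ = (default, none) := by
    intro τ hτ
    have h0 : τ ≠ 0 := by
      rintro rfl
      rcases hτ with h | h
      · exact absurd h (lt_irrefl _)
      · have : (l.length : ℤ) + 3 ≤ D := by exact_mod_cast hD3
        have := Int.natCast_nonneg l.length
        omega
    unfold cont
    rw [Prod.mk.injEq]
    constructor
    · simp only [run, Function.iterate_zero, id_eq, sub_zero, TM0.init, Tape.mk₁, Tape.mk₂]
      rcases hτ with h | h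
      · obtain ⟨n, rfl⟩ := Int.eq_negSucc_of_lt_zero h
        simp [Tape.mk', Tape.nth, ListBlank.nth_mk]
      · obtain ⟨n, rfl⟩ := Int.eq_ofNat_of_zero_le (show 0 ≤ τ by omega)
        rw [Tape.mk'_nth_nat, ListBlank.nth_mk]
        rw [List.getI_eq_default]
        omega
    · simp [run, h0]
  have ht1 : run M l (D ^ P - 2) = run M l t := run_halted M l t hM _ ht
  constructor
  · intro h
    obtain ⟨τ, a, q, h1, h2, h3⟩ := CAGame.sound hD2 hrow h
    rw [row_eq, ht1] at h1
    unfold cont at h1
    by_cases hτ : τ = (run M l t).2
    · rw [if_pos hτ] at h1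
      simp only [Prod.mk.injEq, Option.some.injEq] at h1
      rw [← h1.2, hrun] at h3
      exact h3
    · rw [if_neg hτ] at h1
      simp at h1
  · intro h
    apply CAGame.complete hD2 hrow (τ₀ := (run M l (D ^ P - 2)).2)
    · have := head_le M l (D ^ P - 2)
      have h5 : 2 ≤ D ^ P := by
        calc 2 ≤ D := hD2
          _ = D ^ 1 := (pow_one D).symm
          _ ≤ D ^ P := Nat.pow_le_pow_right hD hP
      push_cast [Nat.cast_sub h5] at this
      exact this
    · rw [row_eq, ht1]
      refine ⟨c.Tape.head, c.q, ?_, ?_, h⟩
      · unfold cont
        rw [hrun]; simp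
      · rw [← hrun]; exact hM

end TMRow

end Pool.Agent.MEternal
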