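import Pool.Agent.MEternal.FPMain

/-!
# Functions and relations given by expressions and tests
-/

namespace Pool.Agent.MEternal

variable {R : ℕ}

/-- The function is the value of an expression. -/
def IsExpr (f : (Fin R → ℕ) → ℕ) : Prop := ∃ e : Expr R, ∀ env, e.val env = f env

/-- The relation is given by a test. -/
def IsTest (φ : List Bool → (Fin R → ℕ) → Prop) : Prop :=
  ∃ b : BExpr R, ∀ w env, b.val w env = true ↔ φ w env

theorem IsExpr.var (i : Fin R) : IsExpr (fun env => env i) := ⟨.var i, fun _ => rfl⟩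

theorem IsExpr.const (c : ℕ) : IsExpr (fun _ : Fin R → ℕ => c) := ⟨.const c, fun _ => rfl⟩

theorem IsExpr.add {f g : (Fin R → ℕ) → ℕ} (hf : IsExpr f) (hg : IsExpr g) :
    IsExpr (fun env => f env + g env) := by
  obtain ⟨e, he⟩ := hf
  obtain ⟨e', he'⟩ := hg
  exact ⟨.add e e', fun env => by simp [Expr.val, he, he']⟩

theorem IsExpr.mul {f g : (Fin R → ℕ) → ℕ} (hf : IsExpr f) (hg : IsExpr g) :
    IsExpr (fun env => f env * g env) := by
  obtain ⟨e, he⟩ := hf
  obtain ⟨e', he'⟩ := hg
  exact ⟨.mul e e', fun env => by simp [Expr.val, he, he']⟩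

theorem IsExpr.pred {f : (Fin R → ℕ) → ℕ} (hf : IsExpr f) :
    IsExpr (fun env => f env - 1) := by
  obtain ⟨e, he⟩ := hf
  exact ⟨.pred e, fun env => by simp [Expr.val, he]⟩

theorem IsExpr.pow {f : (Fin R → ℕ) → ℕ} (hf : IsExpr f) (k : ℕ) :
    IsExpr (fun env => f env ^ k) := by
  induction k with
  | zero => simpa using IsExpr.const 1
  | succ k ih => simpa [pow_succ] using ih.mul hf

theorem IsExpr.eval {f : (Fin R → ℕ) → ℕ} (hf : IsExpr f) (p : Polynomial ℕ) :
    IsExpr (fun env => p.eval (f env)) := by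
  induction p using Polynomial.induction_on' with
  | add p q hp hq => simpa [Polynomial.eval_add] using hp.add hq
  | monomial k a => simpa [Polynomial.eval_monomial] using (IsExpr.const a).mul (hf.pow k)

theorem IsTest.lt {f g : (Fin R → ℕ) → ℕ} (hf : IsExpr f) (hg : IsExpr g) :
    IsTest (fun _ env => f env < g env) := by
  obtain ⟨e, he⟩ := hf
  obtain ⟨e', he'⟩ := hg
  exact ⟨.lt e e', fun w env => by simp [BExpr.val, he, he']⟩

theorem IsTest.not {φ : List Bool → (Fin R → ℕ) → Prop} (h : IsTest φ) :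
    IsTest (fun w env => ¬ φ w env) := by
  obtain ⟨b, hb⟩ := h
  refine ⟨.not b, fun w env => ?_⟩
  simp [BExpr.val, ← hb]

theorem IsTest.and {φ ψ : List Bool → (Fin R → ℕ) → Prop} (h : IsTest φ) (h' : IsTest ψ) :
    IsTest (fun w env => φ w env ∧ ψ w env) := by
  obtain ⟨b, hb⟩ := h
  obtain ⟨b', hb'⟩ := h'
  refine ⟨.and b b', fun w env => ?_⟩
  simp [BExpr.val, ← hb, ← hb']

theorem IsTest.or {φ ψ : List Bool → (Fin R → ℕ) → Prop} (h : IsTest φ) (h' : IsTest ψ) :
    IsTest (fun w env => φ w env ∨ ψ w env) := by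
  obtain ⟨b, hb⟩ := h
  obtain ⟨b', hb'⟩ := h'
  refine ⟨.or b b', fun w env => ?_⟩
  simp [BExpr.val, ← hb, ← hb']

theorem IsTest.congr {φ ψ : List Bool → (Fin R → ℕ) → Prop} (h : IsTest φ)
    (h' : ∀ w env, ψ w env ↔ φ w env) : IsTest ψ := by
  obtain ⟨b, hb⟩ := h
  exact ⟨b, fun w env => (hb w env).trans (h' w env).symm⟩

theorem IsTest.le {f g : (Fin R → ℕ) → ℕ} (hf : IsExpr f) (hg : IsExpr g) :
    IsTest (fun _ env => f env ≤ g env) :=
  (IsTest.lt hg hf).not.congr fun _ _ => by simp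

theorem IsTest.eq {f g : (Fin R → ℕ) → ℕ} (hf : IsExpr f) (hg : IsExpr g) :
    IsTest (fun _ env => f env = g env) :=
  ((IsTest.le hf hg).and (IsTest.le hg hf)).congr fun _ _ => by omega

theorem IsTest.ne {f g : (Fin R → ℕ) → ℕ} (hf : IsExpr f) (hg : IsExpr g) :
    IsTest (fun _ env => f env ≠ g env) := (IsTest.eq hf hg).not

theorem IsTest.const (p : Prop) : IsTest (fun (_ : List Bool) (_ : Fin R → ℕ) => p) := by
  by_cases h : p
  · exact ⟨.tt, fun w env => by simp [BExpr.val, h]⟩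
  · exact ⟨.not .tt, fun w env => by simp [BExpr.val, h]⟩

theorem IsTest.bit {f : (Fin R → ℕ) → ℕ} (hf : IsExpr f) :
    IsTest (fun w env => w.getD (f env) false = true) := by
  obtain ⟨e, he⟩ := hf
  exact ⟨.bit e, fun w env => by simp [BExpr.val, he]⟩

theorem IsTest.exists_finset {ι : Type*} (s : Finset ι)
    {φ : ι → List Bool → (Fin R → ℕ) → Prop} (h : ∀ i, IsTest (φ i)) :
    IsTest (fun w env => ∃ i ∈ s, φ i w env) := by
  classical
  induction s using Finset.induction_on with
  | empty => exact (IsTest.const False).congr fun _ _ => by simp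
  | insert i s hi ih => exact ((h i).or ih).congr fun _ _ => by simp

theorem IsTest.exists {ι : Type*} [Finite ι]
    {φ : ι → List Bool → (Fin R → ℕ) → Prop} (h : ∀ i, IsTest (φ i)) :
    IsTest (fun w env => ∃ i, φ i w env) := by
  cases nonempty_fintype ι
  exact (IsTest.exists_finset Finset.univ h).congr fun _ _ => by simp

end Pool.Agent.MEternal
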