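import Pool.Agent.MEternal.Codes

/-!
# Which tuples are codes
-/

namespace Pool.Agent.MEternal

namespace Codes

open CAGame

variable {C : Type} {e : C → ℕ} {P D c : ℕ}

/-- Being a code of a variable of the game. -/
def vGV (P : ℕ) (j : ℕ × ℕ) : Prop :=
  (j.1 = 0 ∧ j.2 < P) ∨ (j.1 = 1 ∧ j.2 < P + 2) ∨ (j.1 = 2 ∧ j.2 = 0) ∨ (j.1 = 3 ∧ j.2 = 0) ∨
    (j.1 = 4 ∧ j.2 = 0) ∨ (j.1 = 5 ∧ j.2 < 3)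

theorem vGV_iff (j : ℕ × ℕ) : vGV P j ↔ ∃ x : GV P, cGV x = j := by
  obtain ⟨j0, j1⟩ := j
  constructor
  · rintro (⟨h0, h1⟩ | ⟨h0, h1⟩ | ⟨h0, h1⟩ | ⟨h0, h1⟩ | ⟨h0, h1⟩ | ⟨h0, h1⟩) <;>
      simp only at h0 h1 <;> subst h0
    · exact ⟨.td ⟨j1, h1⟩, rfl⟩
    · exact ⟨.pd ⟨j1, h1⟩, rfl⟩
    · exact ⟨.mt, by simp [cGV, h1]⟩
    · exact ⟨.mp, by simp [cGV, h1]⟩
    · exact ⟨.zf, by simp [cGV, h1]⟩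
    · exact ⟨.cell ⟨j1, h1⟩, rfl⟩
  · rintro ⟨x, hx⟩
    rw [← hx]
    rcases x <;> simp [cGV, vGV]

/-- Being a code of a value of the game. -/
def vGW (P D c : ℕ) (x : ℕ × ℕ × ℕ) : Prop :=
  (x.1 = 0 ∧ x.2.1 < P ∧ x.2.2 < D) ∨ (x.1 = 1 ∧ x.2.1 < P + 2 ∧ x.2.2 < D) ∨
    (x.1 = 2 ∧ x.2.1 < P ∧ x.2.2 = 0) ∨ (x.1 = 3 ∧ x.2.1 < P + 2 ∧ x.2.2 = 0) ∨
    (x.1 = 4 ∧ x.2.1 < 2 ∧ x.2.2 = 0) ∨ (x.1 = 5 ∧ x.2.1 < 3 ∧ x.2.2 < c + 1)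

theorem vGW_iff (he : ∀ x, e x < c) (he' : ∀ i < c, ∃ x, e x = i) (x : ℕ × ℕ × ℕ) :
    vGW P D c x ↔ ∃ y : GW C P D, cGW e y = x := by
  obtain ⟨x0, x1, x2⟩ := x
  constructor
  · rintro (⟨h0, h1, h2⟩ | ⟨h0, h1, h2⟩ | ⟨h0, h1, h2⟩ | ⟨h0, h1, h2⟩ | ⟨h0, h1, h2⟩ |
      ⟨h0, h1, h2⟩) <;> simp only at h0 h1 h2 <;> subst h0
    · exact ⟨.td ⟨x1, h1⟩ ⟨x2, h2⟩, rfl⟩
    · exact ⟨.pd ⟨x1, h1⟩ ⟨x2, h2⟩, rfl⟩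
    · exact ⟨.mt ⟨x1, h1⟩, by simp [cGW, h2]⟩
    · exact ⟨.mp ⟨x1, h1⟩, by simp [cGW, h2]⟩
    · rcases x1 with _ | _ | x1
      · exact ⟨.zf false, by simp [cGW, h2]⟩
      · exact ⟨.zf true, by simp [cGW, h2]⟩
      · omega
    · obtain ⟨o, ho⟩ := oc_surj he' h2
      exact ⟨.cell ⟨x1, h1⟩ o, by simp [cGW, ho]⟩
  · rintro ⟨y, hy⟩
    rw [← hy]
    rcases y with y | y | y | y | b | ⟨y, o⟩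
    · simp [cGW, vGW]
    · simp [cGW, vGW]
    · simp [cGW, vGW]
    · simp [cGW, vGW]
    · rcases b <;> simp [cGW, vGW]
    · have := oc_lt he o
      simp [cGW, vGW, this]

/-- Being a code of a clause of the game. -/
def vGQ (P D c : ℕ) (x : ℕ × ℕ × ℕ × ℕ × ℕ) : Prop :=
  x.2.1 < 3 ∧
  ((x.1 = 0 ∧ x.2.2.1 < P ∧ x.2.2.2.1 < P ∧ x.2.2.2.2 < D) ∨
    (x.1 = 1 ∧ x.2.2.1 < P + 2 ∧ x.2.2.2.1 < P + 2 ∧ x.2.2.2.2 < D) ∨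
    (x.1 = 2 ∧ x.2.2.1 < c + 1 ∧ x.2.2.2.1 < c + 1 ∧ x.2.2.2.2 < c + 1) ∨
    (x.1 = 3 ∧ x.2.2.1 < P ∧ x.2.2.2.1 = 0 ∧ x.2.2.2.2 = 0) ∨
    (x.1 = 4 ∧ x.2.2.1 < D ∧ x.2.2.2.1 < 3 ∧ x.2.2.2.2 = 0) ∨
    (x.1 = 5 ∧ x.2.2.1 < P + 2 ∧ x.2.2.2.1 < 3 ∧ x.2.2.2.2 = 0))

theorem vGQ_iff (he : ∀ x, e x < c) (he' : ∀ i < c, ∃ x, e x = i) (x : ℕ × ℕ × ℕ × ℕ × ℕ) :
    vGQ P D c x ↔ ∃ y : GQ C P D, cGQ e y = x := by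
  obtain ⟨x0, x1, x2, x3, x4⟩ := x
  constructor
  · rintro ⟨hb, (⟨h0, h1, h2, h3⟩ | ⟨h0, h1, h2, h3⟩ | ⟨h0, h1, h2, h3⟩ | ⟨h0, h1, h2, h3⟩ |
      ⟨h0, h1, h2, h3⟩ | ⟨h0, h1, h2, h3⟩)⟩ <;> simp only at hb h0 h1 h2 h3 <;> subst h0
    · exact ⟨.T ⟨x1, hb⟩ ⟨x2, h1⟩ ⟨x3, h2⟩ ⟨x4, h3⟩, rfl⟩
    · exact ⟨.A ⟨x1, hb⟩ ⟨x2, h1⟩ ⟨x3, h2⟩ ⟨x4, h3⟩, rfl⟩
    · obtain ⟨o1, h1⟩ := oc_surj he' h1
      obtain ⟨o2, h2⟩ := oc_surj he' h2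
      obtain ⟨o3, h3⟩ := oc_surj he' h3
      exact ⟨.C ⟨x1, hb⟩ o1 o2 o3, by simp [cGQ, h1, h2, h3]⟩
    · exact ⟨.Z ⟨x1, hb⟩ ⟨x2, h1⟩, by simp [cGQ, h2, h3]⟩
    · exact ⟨.I ⟨x1, hb⟩ ⟨x2, h1⟩ ⟨x3, h2⟩, by simp [cGQ, h3]⟩
    · exact ⟨.J ⟨x1, hb⟩ ⟨x2, h1⟩ ⟨x3, h2⟩, by simp [cGQ, h3]⟩
  · rintro ⟨y, hy⟩
    rw [← hy]
    rcases y with y | y | ⟨b, o1, o2, o3⟩ | y | y | y
    · simp [cGQ, vGQ]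
    · simp [cGQ, vGQ]
    · have h1 := oc_lt he o1
      have h2 := oc_lt he o2
      have h3 := oc_lt he o3
      simp [cGQ, vGQ, h1, h2, h3]
    · simp [cGQ, vGQ]
    · simp [cGQ, vGQ]
    · simp [cGQ, vGQ]

/-- Being a code of a variable of the lock game. -/
def vI (P : ℕ) (x : ℕ × ℕ × ℕ × ℕ) : Prop :=
  (x.1 = 0 ∧ x.2.1 = 0 ∧ x.2.2.1 = 0 ∧ x.2.2.2 = 0) ∨ (x.1 = 1 ∧ x.2.1 < 3 ∧ vGV P x.2.2)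

theorem vI_iff (x : ℕ × ℕ × ℕ × ℕ) : vI P x ↔ ∃ y : Option (Fin 3 × GV P), cI y = x := by
  obtain ⟨x0, x1, x2⟩ := x
  constructor
  · rintro (⟨h0, h1, h2, h3⟩ | ⟨h0, h1, h2⟩)
    · exact ⟨none, Prod.ext h0.symm (Prod.ext h1.symm (Prod.ext h2.symm h3.symm))⟩
    · simp only at h0 h1 h2
      subst h0
      obtain ⟨j, hj⟩ := (vGV_iff _).1 h2
      exact ⟨some (⟨x1, h1⟩, j), by simp [cI, hj]⟩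
  · rintro ⟨y, hy⟩
    rw [← hy]
    rcases y with _ | ⟨t, j⟩
    · simp [cI, vI]
    · have := (vGV_iff (P := P) _).2 ⟨j, rfl⟩
      simp [cI, vI, this]

/-- Being a code of a value of the lock game. -/
def vLW (P D c : ℕ) (x : ℕ × ℕ × ℕ × ℕ × ℕ) : Prop :=
  x.2.1 < 3 ∧ ((x.1 = 0 ∧ x.2.2.1 = 0 ∧ x.2.2.2.1 = 0 ∧ x.2.2.2.2 = 0) ∨
    (x.1 = 1 ∧ x.2.2.1 < 4 ∧ x.2.2.2.1 = 0 ∧ x.2.2.2.2 = 0) ∨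
    (x.1 = 2 ∧ vGW P D c x.2.2))

theorem vLW_iff (he : ∀ x, e x < c) (he' : ∀ i < c, ∃ x, e x = i) (x : ℕ × ℕ × ℕ × ℕ × ℕ) :
    vLW P D c x ↔ ∃ y : LW (GW C P D) (Fin 3), cLW e y = x := by
  obtain ⟨x0, x1, x2⟩ := x
  constructor
  · rintro ⟨ht, (⟨h0, h1, h2, h3⟩ | ⟨h0, h1, h2, h3⟩ | ⟨h0, h1⟩)⟩
    · simp only at ht h0 h1 h2 h3
      subst h0
      exact ⟨.eps ⟨x1, ht⟩,
        Prod.ext rfl (Prod.ext rfl (Prod.ext h1.symm (Prod.ext h2.symm h3.symm)))⟩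
    · simp only at ht h0 h1 h2 h3
      subst h0
      obtain ⟨b, hb⟩ := ob_surj h1
      exact ⟨.esc ⟨x1, ht⟩ b,
        Prod.ext rfl (Prod.ext rfl (Prod.ext hb (Prod.ext h2.symm h3.symm)))⟩
    · simp only at ht h0 h1
      subst h0
      obtain ⟨w, hw⟩ := (vGW_iff he he' _).1 h1
      exact ⟨.buf ⟨x1, ht⟩ w, by simp [cLW, hw]⟩
  · rintro ⟨y, hy⟩
    rw [← hy]
    rcases y with t | ⟨t, b⟩ | ⟨t, w⟩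
    · simp [cLW, vLW]
    · have := ob_lt b
      simp [cLW, vLW, this]
    · have := (vGW_iff (P := P) (D := D) he he' _).2 ⟨w, rfl⟩
      simp [cLW, vLW, this]

/-- Being a code of a clause of the lock game. -/
def vLQ (P D c : ℕ) (x : N7) : Prop :=
  x.2.1 < 3 ∧
    ((x.1 = 0 ∧ x.2.2.1 < 4 ∧ x.2.2.2.1 = 0 ∧ x.2.2.2.2.1 = 0 ∧ x.2.2.2.2.2.1 = 0 ∧
      x.2.2.2.2.2.2 = 0) ∨
    (x.1 = 1 ∧ x.2.2.1 < 4 ∧ vGV P (x.2.2.2.1, x.2.2.2.2.1) ∧ x.2.2.2.2.2.1 = 0 ∧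
      x.2.2.2.2.2.2 = 0) ∨
    (x.1 = 2 ∧ x.2.2.1 < 4 ∧ vGV P (x.2.2.2.1, x.2.2.2.2.1) ∧ x.2.2.2.2.2.1 = 0 ∧
      x.2.2.2.2.2.2 = 0) ∨
    (x.1 = 3 ∧ vGV P (x.2.2.1, x.2.2.2.1) ∧ x.2.2.2.2.1 = 0 ∧ x.2.2.2.2.2.1 = 0 ∧
      x.2.2.2.2.2.2 = 0) ∨
    (x.1 = 4 ∧ vGQ P D c x.2.2))

theorem vLQ_iff (he : ∀ x, e x < c) (he' : ∀ i < c, ∃ x, e x = i) (x : N7) :
    vLQ P D c x ↔ ∃ y : LQ (GV P) (Fin 3) (GQ C P D), cLQ e y = x := by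
  obtain ⟨x0, x1, x2⟩ := x
  constructor
  · rintro ⟨ht, (⟨h0, h1, h2, h3, h4, h5⟩ | ⟨h0, h1, h2, h3, h4⟩ | ⟨h0, h1, h2, h3, h4⟩ |
      ⟨h0, h2, h3, h4, h5⟩ | ⟨h0, h1⟩)⟩
    · simp only at ht h0 h1 h2 h3 h4 h5
      subst h0
      obtain ⟨b, hb⟩ := ob_surj h1
      exact ⟨.phase ⟨x1, ht⟩ b, Prod.ext rfl (Prod.ext rfl (Prod.ext hb
        (Prod.ext h2.symm (Prod.ext h3.symm (Prod.ext h4.symm h5.symm)))))⟩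
    · simp only at ht h0 h1 h2 h3 h4
      subst h0
      obtain ⟨b, hb⟩ := ob_surj h1
      obtain ⟨j, hj⟩ := (vGV_iff _).1 h2
      exact ⟨.hold ⟨x1, ht⟩ b j, Prod.ext rfl (Prod.ext rfl (Prod.ext hb
        (Prod.ext (show (cGV j).1 = x2.2.1 by rw [hj])
          (Prod.ext (show (cGV j).2 = x2.2.2.1 by rw [hj])
          (Prod.ext h3.symm h4.symm)))))⟩
    · simp only at ht h0 h1 h2 h3 h4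
      subst h0
      obtain ⟨b, hb⟩ := ob_surj h1
      obtain ⟨j, hj⟩ := (vGV_iff _).1 h2
      exact ⟨.fill ⟨x1, ht⟩ b j, Prod.ext rfl (Prod.ext rfl (Prod.ext hb
        (Prod.ext (show (cGV j).1 = x2.2.1 by rw [hj])
          (Prod.ext (show (cGV j).2 = x2.2.2.1 by rw [hj])
          (Prod.ext h3.symm h4.symm)))))⟩
    · simp only at ht h0 h2 h3 h4 h5
      subst h0
      obtain ⟨j, hj⟩ := (vGV_iff _).1 h2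
      exact ⟨.reset ⟨x1, ht⟩ j, Prod.ext rfl (Prod.ext rfl
        (Prod.ext (show (cGV j).1 = x2.1 by rw [hj])
          (Prod.ext (show (cGV j).2 = x2.2.1 by rw [hj])
          (Prod.ext h3.symm (Prod.ext h4.symm h5.symm)))))⟩
    · simp only at ht h0 h1
      subst h0
      obtain ⟨q, hq⟩ := (vGQ_iff he he' _).1 h1
      exact ⟨.game ⟨x1, ht⟩ q, by simp [cLQ, hq]⟩
  · rintro ⟨y, hy⟩
    rw [← hy]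
    rcases y with ⟨t, b⟩ | ⟨t, b, j⟩ | ⟨t, b, j⟩ | ⟨t, j⟩ | ⟨t, q⟩
    · have := ob_lt b
      simp [cLQ, vLQ, this]
    · have h1 := ob_lt b
      have h2 := (vGV_iff (P := P) _).2 ⟨j, rfl⟩
      simp [cLQ, vLQ, h1, h2]
    · have h1 := ob_lt b
      have h2 := (vGV_iff (P := P) _).2 ⟨j, rfl⟩
      simp [cLQ, vLQ, h1, h2]
    · have h2 := (vGV_iff (P := P) _).2 ⟨j, rfl⟩
      simp [cLQ, vLQ, h2]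
    · have := (vGQ_iff (P := P) (D := D) he he' _).2 ⟨q, rfl⟩
      simp [cLQ, vLQ, this]

/-- Being a code of a vertex. -/
def vV (P D c : ℕ) (x : ℕ × N7) : Prop :=
  (x.1 = 0 ∧ x.2.1 = 0 ∧ x.2.2.1 = 0 ∧ x.2.2.2.1 = 0 ∧ x.2.2.2.2.1 = 0 ∧ x.2.2.2.2.2.1 = 0 ∧
      x.2.2.2.2.2.2.1 = 0 ∧ x.2.2.2.2.2.2.2 = 0) ∨
    (x.1 = 1 ∧ x.2.1 < 3 ∧ x.2.2.1 < 4 ∧ x.2.2.2.1 = 0 ∧ x.2.2.2.2.1 = 0 ∧
      x.2.2.2.2.2.1 = 0 ∧ x.2.2.2.2.2.2.1 = 0 ∧ x.2.2.2.2.2.2.2 = 0) ∨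
    (x.1 = 2 ∧ vLQ P D c x.2) ∨
    ((x.1 = 3 ∨ x.1 = 6 ∨ x.1 = 7 ∨ x.1 = 8 ∨ x.1 = 9 ∨ x.1 = 10) ∧ vLW P D c (p5 x.2) ∧
      x.2.2.2.2.2.2.1 = 0 ∧ x.2.2.2.2.2.2.2 = 0) ∨
    ((x.1 = 4 ∨ x.1 = 5) ∧ vI P (p4 x.2) ∧ x.2.2.2.2.2.1 = 0 ∧ x.2.2.2.2.2.2.1 = 0 ∧
      x.2.2.2.2.2.2.2 = 0)

theorem vV_iff (he : ∀ x, e x < c) (he' : ∀ i < c, ∃ x, e x = i) (x : ℕ × N7) :
    vV P D c x ↔ ∃ y : V C P D, cV e y = x := by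
  obtain ⟨x0, x1, x2, x3, x4, x5, x6, x7⟩ := x
  constructor
  · rintro (⟨h0, h1, h2, h3, h4, h5, h6, h7⟩ | ⟨h0, h1, h2, h3, h4, h5, h6, h7⟩ | ⟨h0, h1⟩ |
      ⟨h0, h1, h2, h3⟩ | ⟨h0, h1, h2, h3, h4⟩)
    · simp only at h0 h1 h2 h3 h4 h5 h6 h7
      subst h0 h1 h2 h3 h4 h5 h6 h7
      exact ⟨.pA, rfl⟩
    · simp only at h0 h1 h2 h3 h4 h5 h6 h7
      subst h0 h3 h4 h5 h6 h7
      obtain ⟨b, hb⟩ := ob_surj h2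
      exact ⟨.att (⟨x1, h1⟩, b), by simp [cV, hb]⟩
    · simp only at h0 h1
      subst h0
      obtain ⟨q, hq⟩ := (vLQ_iff he he' _).1 h1
      exact ⟨.cl q, by simp [cV, hq]⟩
    · simp only [p5] at h0 h1 h2 h3
      subst h2 h3
      obtain ⟨y, hy⟩ := (vLW_iff he he' _).1 h1
      rcases h0 with rfl | rfl | rfl | rfl | rfl | rfl
      · exact ⟨.qz y, by simp [cV, hy, e5]⟩
      · exact ⟨.val y, by simp [cV, hy, e5]⟩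
      · exact ⟨.sp y, by simp [cV, hy, e5]⟩
      · exact ⟨.sh y, by simp [cV, hy, e5]⟩
      · exact ⟨.sz y, by simp [cV, hy, e5]⟩
      · exact ⟨.sw y, by simp [cV, hy, e5]⟩
    · simp only [p4] at h0 h1 h2 h3 h4
      subst h2 h3 h4
      obtain ⟨y, hy⟩ := (vI_iff _).1 h1
      rcases h0 with rfl | rfl
      · exact ⟨.p y, by simp [cV, hy, e4]⟩
      · exact ⟨.h y, by simp [cV, hy, e4]⟩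
  · rintro ⟨y, hy⟩
    rw [← hy]
    have hLW : ∀ z, vLW P D c (cLW (P := P) (D := D) e z) := fun z =>
      (vLW_iff he he' _).2 ⟨z, rfl⟩
    have hI : ∀ z, vI P (cI (P := P) z) := fun z => (vI_iff _).2 ⟨z, rfl⟩
    have hLQ : ∀ z, vLQ P D c (cLQ (P := P) (D := D) e z) := fun z =>
      (vLQ_iff he he' _).2 ⟨z, rfl⟩
    have e51 : ∀ z, (e5 z).2.2.2.2.2.1 = 0 := fun z => rfl
    have e52 : ∀ z, (e5 z).2.2.2.2.2.2 = 0 := fun z => rfl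
    have e41 : ∀ z, (e4 z).2.2.2.2.1 = 0 := fun z => rfl
    have e42 : ∀ z, (e4 z).2.2.2.2.2.1 = 0 := fun z => rfl
    have e43 : ∀ z, (e4 z).2.2.2.2.2.2 = 0 := fun z => rfl
    rcases y with _ | ⟨t, b⟩ | q | x | i | i | x | x | x | x | x
    · simp [cV, vV]
    · have := ob_lt b
      simp [cV, vV, this]
    · simp [cV, vV, hLQ]
    · simp [cV, vV, hLW, e51, e52]
    · simp [cV, vV, hI, e41, e42, e43]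
    · simp [cV, vV, hI, e41, e42, e43]
    · simp [cV, vV, hLW, e51, e52]
    · simp [cV, vV, hLW, e51, e52]
    · simp [cV, vV, hLW, e51, e52]
    · simp [cV, vV, hLW, e51, e52]
    · simp [cV, vV, hLW, e51, e52]

end Codes

end Pool.Agent.MEternal
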